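import Mathlib

set_option autoImplicit false

/-!
# A quadratic relation modulo `p` for the logarithmic solutions (symmetric square)
-/

namespace Pool.Agent.H547.P4

open Finset Polynomial

variable {F : Type*} [Field F]

noncomputable def tp (f : F[X]) : F[X] := X * derivative f

theorem tp_add (f g : F[X]) : tp (f + g) = tp f + tp g := by unfold tp; rw [derivative_add]; ring
theorem tp_sub (f g : F[X]) : tp (f - g) = tp f - tp g := by unfold tp; rw [derivative_sub]; ring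
theorem tp_mul (f g : F[X]) : tp (f * g) = tp f * g + f * tp g := by unfold tp; rw [derivative_mul]; ring
theorem tp_X : tp (X : F[X]) = X := by unfold tp; rw [derivative_X]; ring
theorem tp_C (a : F) : tp (C a) = 0 := by unfold tp; rw [derivative_C]; ring
theorem tp_num (n : ℕ) [n.AtLeastTwo] : tp (OfNat.ofNat n : F[X]) = 0 := by
  have : (OfNat.ofNat n : F[X]) = C (OfNat.ofNat n : F) := by rw [map_ofNat]
  rw [this, tp_C]
theorem coeff_tp (f : F[X]) (k : ℕ) : (tp f).coeff k = k * f.coeff k := by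
  unfold tp
  rcases k with _ | k
  · simp
  · rw [coeff_X_mul, coeff_derivative]; push_cast; ring

noncomputable def Apol : F[X] := 1 - 64 * X

theorem tp_A : tp (Apol : F[X]) = -64 * X := by
  unfold Apol
  have h1 : tp (1 : F[X]) = 0 := by have := tp_C (1 : F); rwa [map_one] at this
  rw [tp_sub, h1, tp_mul, tp_num, tp_X]; ring

/-- the bilinear first integral -/
noncomputable def BB (P Q R P' Q' R' : F[X]) : F[X] :=
  Apol * (P * R' + R * P' - Q * Q') - 32 * X * (P * Q' + Q * P') - 16 * X * P * P'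

theorem tp_BB {P Q R T p q r P' Q' R' T' p' q' r' : F[X]} (hP : tp P = Q - p) (hQ : tp Q = R - q) (hR : tp R = T - r)
    (hT : Apol * T = X * (96 * R + 48 * Q + 8 * P)) (hP' : tp P' = Q' - p') (hQ' : tp Q' = R' - q') (hR' : tp R' = T' - r')
    (hT' : Apol * T' = X * (96 * R' + 48 * Q' + 8 * P')) :
    tp (BB P Q R P' Q' R') = -BB p q r P' Q' R' - BB P Q R p' q' r' := by
  have h16 : tp (16 : F[X]) = 0 := by
    have : (16 : F[X]) = C 16 := by rw [map_ofNat]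
    rw [this, tp_C]
  have h32 : tp (32 : F[X]) = 0 := by
    have : (32 : F[X]) = C 32 := by rw [map_ofNat]
    rw [this, tp_C]
  unfold BB
  simp only [tp_sub, tp_add, tp_mul, tp_A, tp_X, h16, h32, hP, hQ, hR, hP', hQ', hR']
  linear_combination P' * hT + P * hT'

theorem const_of_tp {p : ℕ} [CharP F p] {f : F[X]} (h : X ^ p ∣ tp f) : X ^ p ∣ f - C (f.coeff 0) := by
  rw [X_pow_dvd_iff] at h ⊢
  intro k hk
  rw [coeff_sub, coeff_C]
  rcases Nat.eq_zero_or_pos k with hk0 | hk0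
  · subst hk0; rw [if_pos rfl, sub_self]
  · rw [if_neg (by omega), sub_zero]
    have := h k hk
    rw [coeff_tp] at this
    have hk1 : ((k : ℕ) : F) ≠ 0 := by
      intro h0
      rw [CharP.cast_eq_zero_iff F p] at h0
      exact absurd (Nat.le_of_dvd hk0 h0) (by omega)
    rcases mul_eq_zero.mp this with h1 | h1
    · exact absurd h1 hk1
    · exact h1

theorem BB_coeff_zero (P Q R P' Q' R' : F[X]) : (BB P Q R P' Q' R').coeff 0 =
    P.coeff 0 * R'.coeff 0 + R.coeff 0 * P'.coeff 0 - Q.coeff 0 * Q'.coeff 0 := by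
  have : BB P Q R P' Q' R' = (P * R' + R * P' - Q * Q') -
      X * (64 * (P * R' + R * P' - Q * Q') + 32 * (P * Q' + Q * P') + 16 * (P * P')) := by
    unfold BB Apol
    ring
  rw [this, coeff_sub, coeff_X_mul_zero, sub_zero, coeff_sub, coeff_add]
  simp only [mul_coeff_zero]

/-- the quadratic relation among the three solutions -/
theorem quad_rel {p : ℕ} [CharP F p] {P0 P1 P2 Q0 Q1 Q2 R0 R1 R2 T0 T1 T2 : F[X]}
    (hP0 : tp P0 = Q0 - 0) (hP1 : tp P1 = Q1 - P0) (hP2 : tp P2 = Q2 - P1)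
    (hQ0 : tp Q0 = R0 - 0) (hQ1 : tp Q1 = R1 - Q0) (hQ2 : tp Q2 = R2 - Q1)
    (hR0 : tp R0 = T0 - 0) (hR1 : tp R1 = T1 - R0) (hR2 : tp R2 = T2 - R1)
    (hT0 : Apol * T0 = X * (96 * R0 + 48 * Q0 + 8 * P0))
    (hT1 : Apol * T1 = X * (96 * R1 + 48 * Q1 + 8 * P1))
    (hT2 : Apol * T2 = X * (96 * R2 + 48 * Q2 + 8 * P2))
    (zP0 : P0.coeff 0 = 1) (zP1 : P1.coeff 0 = 0) (zP2 : P2.coeff 0 = 0)
    (zQ0 : Q0.coeff 0 = 0) (zQ1 : Q1.coeff 0 = 1) (zQ2 : Q2.coeff 0 = 0)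
    (zR0 : R0.coeff 0 = 0) (zR1 : R1.coeff 0 = 0) (zR2 : R2.coeff 0 = 1) :
    X ^ p ∣ 2 * P0 * P2 - P1 ^ 2 := by
  have b0 : ∀ a b c : F[X], BB 0 0 0 a b c = 0 := by intro a b c; unfold BB; ring
  have b0' : ∀ a b c : F[X], BB a b c 0 0 0 = 0 := by intro a b c; unfold BB; ring
  have bs : ∀ a b c a' b' c' : F[X], BB a b c a' b' c' = BB a' b' c' a b c := by
    intro a b c a' b' c'; unfold BB; ring
  have e00 : X ^ p ∣ BB P0 Q0 R0 P0 Q0 R0 := by
    have h := tp_BB hP0 hQ0 hR0 hT0 hP0 hQ0 hR0 hT0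
    rw [b0, b0'] at h
    have h1 := const_of_tp (p := p) (f := BB P0 Q0 R0 P0 Q0 R0) (by rw [h]; simp)
    rwa [BB_coeff_zero, zP0, zR0, zQ0, show (1 * 0 + 0 * 1 - 0 * 0 : F) = 0 by ring, C_0, sub_zero] at h1
  have e01 : X ^ p ∣ BB P0 Q0 R0 P1 Q1 R1 := by
    have h := tp_BB hP0 hQ0 hR0 hT0 hP1 hQ1 hR1 hT1
    rw [b0, neg_zero, zero_sub] at h
    have h1 := const_of_tp (p := p) (f := BB P0 Q0 R0 P1 Q1 R1) (by rw [h]; exact (dvd_neg).mpr e00)
    rwa [BB_coeff_zero, zP0, zR0, zQ0, zP1, zQ1, zR1, show (1 * 0 + 0 * 0 - 0 * 1 : F) = 0 by ring, C_0, sub_zero] at h1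
  have e11 : X ^ p ∣ BB P1 Q1 R1 P1 Q1 R1 + 1 := by
    have h := tp_BB hP1 hQ1 hR1 hT1 hP1 hQ1 hR1 hT1
    have h1 := const_of_tp (p := p) (f := BB P1 Q1 R1 P1 Q1 R1) (by
      rw [h, bs P1 Q1 R1 P0 Q0 R0]; exact dvd_sub ((dvd_neg).mpr e01) e01)
    rwa [BB_coeff_zero, zP1, zQ1, zR1, show (0 * 0 + 0 * 0 - 1 * 1 : F) = -1 by ring, C_neg, C_1, sub_neg_eq_add] at h1
  have e02 : X ^ p ∣ BB P0 Q0 R0 P2 Q2 R2 - 1 := by
    have h := tp_BB hP0 hQ0 hR0 hT0 hP2 hQ2 hR2 hT2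
    rw [b0, neg_zero, zero_sub] at h
    have h1 := const_of_tp (p := p) (f := BB P0 Q0 R0 P2 Q2 R2) (by rw [h]; exact (dvd_neg).mpr e01)
    rwa [BB_coeff_zero, zP0, zR0, zQ0, zP2, zQ2, zR2, show (1 * 1 + 0 * 0 - 0 * 0 : F) = 1 by ring, C_1] at h1
  have e12 : X ^ p ∣ BB P1 Q1 R1 P2 Q2 R2 := by
    have h := tp_BB hP1 hQ1 hR1 hT1 hP2 hQ2 hR2 hT2
    have h1 := const_of_tp (p := p) (f := BB P1 Q1 R1 P2 Q2 R2) (by
      rw [h]
      have := dvd_add e02 e11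
      rw [show -BB P0 Q0 R0 P2 Q2 R2 - BB P1 Q1 R1 P1 Q1 R1 =
        -(BB P0 Q0 R0 P2 Q2 R2 - 1 + (BB P1 Q1 R1 P1 Q1 R1 + 1)) by ring]
      exact (dvd_neg).mpr this)
    rwa [BB_coeff_zero, zP1, zQ1, zR1, zP2, zQ2, zR2, show (0 * 1 + 0 * 0 - 1 * 0 : F) = 0 by ring, C_0, sub_zero] at h1
  have e22 : X ^ p ∣ BB P2 Q2 R2 P2 Q2 R2 := by
    have h := tp_BB hP2 hQ2 hR2 hT2 hP2 hQ2 hR2 hT2
    have h1 := const_of_tp (p := p) (f := BB P2 Q2 R2 P2 Q2 R2) (by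
      rw [h, bs P2 Q2 R2 P1 Q1 R1]; exact dvd_sub ((dvd_neg).mpr e12) e12)
    rwa [BB_coeff_zero, zP2, zQ2, zR2, show (0 * 1 + 1 * 0 - 0 * 0 : F) = 0 by ring, C_0, sub_zero] at h1
  set d : F[X] := R0 * (P1 * Q2 - P2 * Q1) - R1 * (P0 * Q2 - P2 * Q0) + R2 * (P0 * Q1 - P1 * Q0) with hd
  have key : X ^ p ∣ (d * Apol) * (2 * P0 * P2 - P1 ^ 2) := by
    have h0 : X ^ p ∣ P2 * BB P0 Q0 R0 P0 Q0 R0 - P1 * BB P0 Q0 R0 P1 Q1 R1 + P0 * (BB P0 Q0 R0 P2 Q2 R2 - 1) :=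
      dvd_add (dvd_sub (dvd_mul_of_dvd_right e00 _) (dvd_mul_of_dvd_right e01 _)) (dvd_mul_of_dvd_right e02 _)
    have h1 : X ^ p ∣ P2 * BB P0 Q0 R0 P1 Q1 R1 - P1 * (BB P1 Q1 R1 P1 Q1 R1 + 1) + P0 * BB P1 Q1 R1 P2 Q2 R2 :=
      dvd_add (dvd_sub (dvd_mul_of_dvd_right e01 _) (dvd_mul_of_dvd_right e11 _)) (dvd_mul_of_dvd_right e12 _)
    have h2 : X ^ p ∣ P2 * (BB P0 Q0 R0 P2 Q2 R2 - 1) - P1 * BB P1 Q1 R1 P2 Q2 R2 + P0 * BB P2 Q2 R2 P2 Q2 R2 :=
      dvd_add (dvd_sub (dvd_mul_of_dvd_right e02 _) (dvd_mul_of_dvd_right e12 _)) (dvd_mul_of_dvd_right e22 _)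
    have h3 := dvd_add (dvd_sub (dvd_mul_of_dvd_right h0 (P1 * Q2 - P2 * Q1))
      (dvd_mul_of_dvd_right h1 (P0 * Q2 - P2 * Q0))) (dvd_mul_of_dvd_right h2 (P0 * Q1 - P1 * Q0))
    refine h3.trans (dvd_of_eq ?_)
    rw [hd]
    unfold BB
    ring
  have hX : ¬ (X ∣ d * Apol) := by
    rw [X_dvd_iff, mul_coeff_zero]
    have h1 : d.coeff 0 = 1 := by
      rw [hd]
      simp only [coeff_add, coeff_sub, mul_coeff_zero, zP0, zP1, zP2, zQ0, zQ1, zQ2, zR0, zR1, zR2]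
      ring
    have h2 : (Apol : F[X]).coeff 0 = 1 := by
      unfold Apol
      rw [coeff_sub, coeff_one_zero, mul_coeff_zero, coeff_X_zero, mul_zero, sub_zero]
    rw [h1, h2]; simp
  exact Prime.pow_dvd_of_dvd_mul_left prime_X p hX key

/-- polynomial with given coefficients -/
noncomputable def pol (n : ℕ) (c : ℕ → F) : F[X] := ∑ j ∈ range (n + 1), C (c j) * X ^ j

theorem pol_coeff {n : ℕ} (c : ℕ → F) {j : ℕ} (hj : j ≤ n) : (pol n c).coeff j = c j := by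
  unfold pol
  rw [finsetSum_coeff, sum_eq_single j]
  · rw [coeff_C_mul, coeff_X_pow_self, mul_one]
  · intro b _ hb
    rw [coeff_C_mul, coeff_X_pow, if_neg (Ne.symm hb), mul_zero]
  · intro h
    exact absurd (mem_range.mpr (by omega)) h

theorem pol_deg (n : ℕ) (c : ℕ → F) : (pol n c).natDegree ≤ n := by
  unfold pol
  refine natDegree_sum_le_of_forall_le _ _ fun j hj => ?_
  rw [mem_range] at hj
  exact (natDegree_C_mul_X_pow_le _ _).trans (by omega)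

theorem tp_pol (n : ℕ) (c : ℕ → F) : tp (pol n c) = pol n (fun j => j * c j) := by
  ext k
  rw [coeff_tp]
  by_cases hk : k ≤ n
  · rw [pol_coeff _ hk, pol_coeff _ hk]
  · rw [coeff_eq_zero_of_natDegree_lt (lt_of_le_of_lt (pol_deg n _) (by omega)),
      coeff_eq_zero_of_natDegree_lt (lt_of_le_of_lt (pol_deg n _) (by omega)), mul_zero]

theorem pol_ext {n : ℕ} {f : F[X]} {c : ℕ → F} (hd : f.natDegree ≤ n) (h : ∀ j ≤ n, f.coeff j = c j) : f = pol n c := by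
  ext k
  by_cases hk : k ≤ n
  · rw [pol_coeff _ hk, h k hk]
  · rw [coeff_eq_zero_of_natDegree_lt (lt_of_le_of_lt hd (by omega)),
      coeff_eq_zero_of_natDegree_lt (lt_of_le_of_lt (pol_deg n _) (by omega))]

theorem pol_sub (n : ℕ) (c d : ℕ → F) : pol n c - pol n d = pol n (fun j => c j - d j) := by
  refine pol_ext ((natDegree_sub_le _ _).trans (max_le (pol_deg _ _) (pol_deg _ _))) fun j hj => ?_
  rw [coeff_sub, pol_coeff _ hj, pol_coeff _ hj]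

theorem pol_tele {n : ℕ} {P Q R T : ℕ → F} (h0 : T 0 = 0)
    (h : ∀ j < n, T (j + 1) = 64 * T j + 96 * R j + 48 * Q j + 8 * P j)
    (hn : 64 * T n + 96 * R n + 48 * Q n + 8 * P n = 0) :
    Apol * pol n T = X * (96 * pol n R + 48 * pol n Q + 8 * pol n P) := by
  have key : pol n T = X * (C 64 * pol n T + C 96 * pol n R + C 48 * pol n Q + C 8 * pol n P) := by
    ext k
    rcases k with _ | k
    · rw [coeff_X_mul_zero, pol_coeff _ (by omega), h0]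
    · rw [coeff_X_mul, coeff_add, coeff_add, coeff_add, coeff_C_mul, coeff_C_mul, coeff_C_mul, coeff_C_mul]
      rcases lt_trichotomy k n with hk | hk | hk
      · rw [pol_coeff _ (by omega), pol_coeff _ hk.le, pol_coeff _ hk.le, pol_coeff _ hk.le, pol_coeff _ hk.le, h k hk]
      · rw [coeff_eq_zero_of_natDegree_lt (lt_of_le_of_lt (pol_deg n T) (by omega)), hk, pol_coeff _ le_rfl, pol_coeff _ le_rfl,
          pol_coeff _ le_rfl, pol_coeff _ le_rfl, hn]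
      · have hz : ∀ c : ℕ → F, (pol n c).coeff k = 0 := fun c => coeff_eq_zero_of_natDegree_lt (lt_of_le_of_lt (pol_deg n c) hk)
        have hz' : ∀ c : ℕ → F, (pol n c).coeff (k + 1) = 0 := fun c => coeff_eq_zero_of_natDegree_lt (lt_of_le_of_lt (pol_deg n c) (by omega))
        rw [hz', hz, hz, hz, hz]; ring
  simp only [map_ofNat] at key
  unfold Apol
  linear_combination key

end Pool.Agent.H547.P4
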