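import Pool.Agent.H547.P3.Star
import Pool.Agent.H547.P3.D7
import Pool.Agent.H547.P4.Q1

set_option autoImplicit false

/-!
# The quadratic relation for the components of `fS` modulo `p³`
-/

namespace Pool.Agent.H547.P4

open Finset Polynomial Pool.Agent.H547.P3

section seqs

variable {p : ℕ} [hp : Fact p.Prime] {n : ℕ} {h : ZMod (p ^ 3)}

/-- the three coefficient sequences -/
noncomputable def abc (p : ℕ) : ℕ → ZMod (p ^ 3) × ZMod (p ^ 3) × ZMod (p ^ 3)
  | 0 => (1, 0, 0)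
  | j + 1 =>
    let i : ZMod (p ^ 3) := ((j + 1 : ℕ) : ZMod (p ^ 3))⁻¹
    let m : ZMod (p ^ 3) := 2 * j + 1
    let a := (abc p j).1
    let b := (abc p j).2.1
    let c := (abc p j).2.2
    let a' := i ^ 3 * (8 * m ^ 3 * a)
    let b' := i ^ 3 * (8 * m ^ 3 * b + 48 * m ^ 2 * a) - 3 * i * a'
    let c' := i ^ 3 * (8 * m ^ 3 * c + 48 * m ^ 2 * b + 96 * m * a) - 3 * i * b' - 3 * i ^ 2 * a'
    (a', b', c')

noncomputable def sa (p j : ℕ) : ZMod (p ^ 3) := (abc p j).1
noncomputable def sb (p j : ℕ) : ZMod (p ^ 3) := (abc p j).2.1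
noncomputable def sc (p j : ℕ) : ZMod (p ^ 3) := (abc p j).2.2

theorem iv_mul {j : ℕ} (hj : j + 1 < p) : ((j + 1 : ℕ) : ZMod (p ^ 3))⁻¹ * ((j : ZMod (p ^ 3)) + 1) = 1 := by
  have hu : IsUnit (((j + 1 : ℕ) : ZMod (p ^ 3))) := unit_cast (by omega) hj
  have := ZMod.inv_mul_of_unit _ hu
  push_cast at this ⊢
  exact this

theorem sa_succ {j : ℕ} (hj : j + 1 < p) : ((j : ZMod (p ^ 3)) + 1) ^ 3 * sa p (j + 1) = 8 * (2 * j + 1) ^ 3 * sa p j := by
  have h1 := iv_mul hj
  have e : sa p (j + 1) = (((j + 1 : ℕ) : ZMod (p ^ 3))⁻¹) ^ 3 * (8 * (2 * j + 1) ^ 3 * sa p j) := rfl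
  have h2 : ((((j + 1 : ℕ) : ZMod (p ^ 3))⁻¹) * ((j : ZMod (p ^ 3)) + 1)) ^ 3 = 1 := by rw [h1, one_pow]
  rw [e]
  linear_combination (8 * (2 * j + 1) ^ 3 * sa p j) * h2

theorem sb_succ {j : ℕ} (hj : j + 1 < p) : ((j : ZMod (p ^ 3)) + 1) ^ 3 * sb p (j + 1) + 3 * ((j : ZMod (p ^ 3)) + 1) ^ 2 * sa p (j + 1) =
    8 * (2 * j + 1) ^ 3 * sb p j + 48 * (2 * j + 1) ^ 2 * sa p j := by
  have h1 := iv_mul hj
  set i := (((j + 1 : ℕ) : ZMod (p ^ 3))⁻¹)
  have e : sb p (j + 1) = i ^ 3 * (8 * (2 * j + 1) ^ 3 * sb p j + 48 * (2 * j + 1) ^ 2 * sa p j) - 3 * i * sa p (j + 1) := rfl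
  have h2 : (i * ((j : ZMod (p ^ 3)) + 1)) ^ 3 = 1 := by rw [h1, one_pow]
  rw [e]
  linear_combination (8 * (2 * j + 1) ^ 3 * sb p j + 48 * (2 * j + 1) ^ 2 * sa p j) * h2 - (3 * sa p (j + 1) * ((j : ZMod (p ^ 3)) + 1) ^ 2) * h1

theorem sc_succ {j : ℕ} (hj : j + 1 < p) : ((j : ZMod (p ^ 3)) + 1) ^ 3 * sc p (j + 1) + 3 * ((j : ZMod (p ^ 3)) + 1) ^ 2 * sb p (j + 1) +
    3 * ((j : ZMod (p ^ 3)) + 1) * sa p (j + 1) =
    8 * (2 * j + 1) ^ 3 * sc p j + 48 * (2 * j + 1) ^ 2 * sb p j + 96 * (2 * j + 1) * sa p j := by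
  have h1 := iv_mul hj
  set i := (((j + 1 : ℕ) : ZMod (p ^ 3))⁻¹)
  have e : sc p (j + 1) = i ^ 3 * (8 * (2 * j + 1) ^ 3 * sc p j + 48 * (2 * j + 1) ^ 2 * sb p j + 96 * (2 * j + 1) * sa p j) -
    3 * i * sb p (j + 1) - 3 * i ^ 2 * sa p (j + 1) := rfl
  have h2 : (i * ((j : ZMod (p ^ 3)) + 1)) ^ 3 = 1 := by rw [h1, one_pow]
  have h3 : (i * ((j : ZMod (p ^ 3)) + 1)) ^ 2 = 1 := by rw [h1, one_pow]
  rw [e]
  linear_combination (8 * (2 * j + 1) ^ 3 * sc p j + 48 * (2 * j + 1) ^ 2 * sb p j + 96 * (2 * j + 1) * sa p j) * h2 -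
    (3 * sb p (j + 1) * ((j : ZMod (p ^ 3)) + 1) ^ 2) * h1 - (3 * sa p (j + 1) * ((j : ZMod (p ^ 3)) + 1)) * h3

theorem gX_abc (hh : 2 * h = 1) (X : ZMod (p ^ 3)) : ∀ j < p, gX h X j = sa p j + (p * X) * sb p j + (p * X) ^ 2 * sc p j := by
  intro j
  induction j with
  | zero =>
    intro _
    rw [gX_zero hh]
    show (1 : ZMod (p ^ 3)) = 1 + (p * X) * 0 + (p * X) ^ 2 * 0
    ring
  | succ j ih =>
    intro hj
    have hP := p3_zero (p := p)
    have e1 := gX_succ hh X hj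
    rw [ih (by omega)] at e1
    have h1 := ex_inv (p := p) hh (i := j + 1) (by omega) hj X
    have hu : IsUnit ((p : ZMod (p ^ 3)) * X + (j + 1)) := by
      apply IsUnit.of_mul_eq_one_right (a := ex h (fun κ => ((p * κ + (j + 1) : ℕ) : ZMod (p ^ 3))⁻¹) X)
      push_cast at h1 ⊢
      exact h1
    have e2 := sa_succ (p := p) hj
    have e3 := sb_succ (p := p) hj
    have e4 := sc_succ (p := p) hj
    apply (hu.pow 3).mul_right_cancel
    rw [e1]
    linear_combination -e2 - p * X * e3 - (p * X) ^ 2 * e4 +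
      X ^ 3 * (48 * (2 * (j : ZMod (p ^ 3)) + 1) ^ 2 * sc p j + 96 * (2 * j + 1) * sb p j + 64 * sa p j +
        p * X * (96 * (2 * j + 1) * sc p j + 64 * sb p j) + 64 * (p * X) ^ 2 * sc p j -
        (3 * (j + 1) ^ 2 * sc p (j + 1) + 3 * (j + 1) * sb p (j + 1) + sa p (j + 1) + p * X * (3 * (j + 1) * sc p (j + 1) + sb p (j + 1)) +
          (p * X) ^ 2 * sc p (j + 1))) * hP

theorem fS_comps (hh : 2 * h = 1) {z ν : ZMod (p ^ 3)} (hz : z ^ (p - 1) = 1 + (p : ZMod (p ^ 3)) * ν) :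
    fS p z 0 = ∑ j ∈ range p, sa p j * z ^ j ∧
    c1 h (fS p z) = (p : ZMod (p ^ 3)) * (∑ j ∈ range p, sb p j * z ^ j) + ((p : ZMod (p ^ 3)) * ν - h * ((p : ZMod (p ^ 3)) * ν) ^ 2) * ∑ j ∈ range p, sa p j * z ^ j ∧
    c2 h (fS p z) = (p : ZMod (p ^ 3)) ^ 2 * (∑ j ∈ range p, sc p j * z ^ j) + ((p : ZMod (p ^ 3)) * ν) * (p : ZMod (p ^ 3)) * (∑ j ∈ range p, sb p j * z ^ j) +
      h * ((p : ZMod (p ^ 3)) * ν) ^ 2 * ∑ j ∈ range p, sa p j * z ^ j := by
  have hP := p3_zero (p := p)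
  have hE : ∀ X, fS p z 0 + X * c1 h (fS p z) + X ^ 2 * c2 h (fS p z) = pw h ((p : ZMod (p ^ 3)) * ν) X *
      (∑ j ∈ range p, sa p j * z ^ j + (p * X) * (∑ j ∈ range p, sb p j * z ^ j) + (p * X) ^ 2 * ∑ j ∈ range p, sc p j * z ^ j) := by
    intro X
    have := fS_ex hh hz X
    unfold ex at this
    rw [this]
    congr 1
    rw [mul_sum, mul_sum, ← sum_add_distrib, ← sum_add_distrib]
    refine sum_congr rfl fun j hj => ?_
    rw [gX_abc hh X j (mem_range.mp hj)]; ring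
  set P : ZMod (p ^ 3) := (p : ZMod (p ^ 3))
  set A := ∑ j ∈ range p, sa p j * z ^ j
  set B := ∑ j ∈ range p, sb p j * z ^ j
  set Cc := ∑ j ∈ range p, sc p j * z ^ j
  have e0 := hE 0
  have e1 := hE 1
  have e2 := hE (-1)
  unfold pw at e0 e1 e2
  refine ⟨by linear_combination e0, ?_, ?_⟩
  · linear_combination h * e1 - h * e2 - (c1 h (fS p z) - (P * B + (P * ν - h * (P * ν) ^ 2) * A)) * hh +
      (2 * h * ν * Cc + 2 * h ^ 2 * ν ^ 2 * B - 2 * h ^ 2 * ν ^ 2 * P * Cc) * hP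
  · linear_combination h * e1 + h * e2 - 2 * h * e0 - (c2 h (fS p z) - (P ^ 2 * Cc + (P * ν) * P * B + h * (P * ν) ^ 2 * A)) * hh +
      (-2 * h ^ 2 * ν ^ 2 * B + 2 * h ^ 2 * ν ^ 2 * P * Cc) * hP

theorem red_cast (k : ℕ) : red p ((k : ℕ) : ZMod (p ^ 3)) = (k : ZMod p) := map_natCast _ _

/-- the quadratic relation modulo `p` -/
theorem quad_modp (hn : p = 2 * n + 1) (z : ZMod (p ^ 3)) :
    red p ((∑ j ∈ range p, sb p j * z ^ j) ^ 2 - 2 * (∑ j ∈ range p, sa p j * z ^ j) * ∑ j ∈ range p, sc p j * z ^ j) = 0 := by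
  set a : ℕ → ZMod p := fun j => red p (sa p j) with ha
  set b : ℕ → ZMod p := fun j => red p (sb p j) with hb
  set c : ℕ → ZMod p := fun j => red p (sc p j) with hc
  have hn0 : (2 * (n : ZMod p) + 1) = 0 := by
    have := congrArg (Nat.cast : ℕ → ZMod p) hn
    rw [ZMod.natCast_self] at this
    push_cast at this
    exact this.symm
  have ra : ∀ j, j + 1 < p → ((j : ZMod p) + 1) ^ 3 * a (j + 1) = 8 * (2 * j + 1) ^ 3 * a j := by
    intro j hj
    have := congrArg (red p) (sa_succ (p := p) hj)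
    simpa only [map_mul, map_pow, map_add, map_one, map_natCast, map_ofNat] using this
  have rb : ∀ j, j + 1 < p → ((j : ZMod p) + 1) ^ 3 * b (j + 1) + 3 * ((j : ZMod p) + 1) ^ 2 * a (j + 1) =
      8 * (2 * j + 1) ^ 3 * b j + 48 * (2 * j + 1) ^ 2 * a j := by
    intro j hj
    have := congrArg (red p) (sb_succ (p := p) hj)
    simpa only [map_mul, map_pow, map_add, map_one, map_natCast, map_ofNat] using this
  have rc : ∀ j, j + 1 < p → ((j : ZMod p) + 1) ^ 3 * c (j + 1) + 3 * ((j : ZMod p) + 1) ^ 2 * b (j + 1) + 3 * ((j : ZMod p) + 1) * a (j + 1) =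
      8 * (2 * j + 1) ^ 3 * c j + 48 * (2 * j + 1) ^ 2 * b j + 96 * (2 * j + 1) * a j := by
    intro j hj
    have := congrArg (red p) (sc_succ (p := p) hj)
    simpa only [map_mul, map_pow, map_add, map_one, map_natCast, map_ofNat] using this
  have a0 : a 0 = 1 := by show red p 1 = 1; exact map_one _
  have b0 : b 0 = 0 := by show red p 0 = 0; exact map_zero _
  have c0 : c 0 = 0 := by show red p 0 = 0; exact map_zero _
  have hz : ∀ k, n + 1 + k < p → a (n + 1 + k) = 0 ∧ b (n + 1 + k) = 0 ∧ c (n + 1 + k) = 0 := by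
    have hu : ∀ j, j + 1 < p → ((j : ZMod p) + 1) ≠ 0 := by
      intro j hj h0
      have h1 : (((j + 1 : ℕ)) : ZMod p) = 0 := by push_cast; exact h0
      rw [ZMod.natCast_eq_zero_iff] at h1
      exact absurd (Nat.le_of_dvd (by omega) h1) (by omega)
    intro k
    induction k with
    | zero =>
      intro hk
      have h1 := ra n (by omega)
      have h2 := rb n (by omega)
      have h3 := rc n (by omega)
      have hun := hu n (by omega)
      rw [hn0] at h1 h2 h3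
      have e1 : a (n + 1) = 0 := by
        have : ((n : ZMod p) + 1) ^ 3 * a (n + 1) = 0 := by rw [h1]; ring
        exact (mul_eq_zero.mp this).resolve_left (pow_ne_zero _ hun)
      rw [e1] at h2 h3
      have e2 : b (n + 1) = 0 := by
        have : ((n : ZMod p) + 1) ^ 3 * b (n + 1) = 0 := by linear_combination h2
        exact (mul_eq_zero.mp this).resolve_left (pow_ne_zero _ hun)
      rw [e2] at h3
      have e3 : c (n + 1) = 0 := by
        have : ((n : ZMod p) + 1) ^ 3 * c (n + 1) = 0 := by linear_combination h3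
        exact (mul_eq_zero.mp this).resolve_left (pow_ne_zero _ hun)
      exact ⟨e1, e2, e3⟩
    | succ k ih =>
      intro hk
      obtain ⟨i1, i2, i3⟩ := ih (by omega)
      have h1 := ra (n + 1 + k) (by omega)
      have h2 := rb (n + 1 + k) (by omega)
      have h3 := rc (n + 1 + k) (by omega)
      have hun := hu (n + 1 + k) (by omega)
      rw [i1] at h1
      rw [i1, i2] at h2
      rw [i1, i2, i3] at h3
      have e1 : a (n + 1 + k + 1) = 0 := by
        have : (((n + 1 + k : ℕ) : ZMod p) + 1) ^ 3 * a (n + 1 + k + 1) = 0 := by rw [h1]; ring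
        exact (mul_eq_zero.mp this).resolve_left (pow_ne_zero _ hun)
      rw [e1] at h2 h3
      have e2 : b (n + 1 + k + 1) = 0 := by
        have : (((n + 1 + k : ℕ) : ZMod p) + 1) ^ 3 * b (n + 1 + k + 1) = 0 := by linear_combination h2
        exact (mul_eq_zero.mp this).resolve_left (pow_ne_zero _ hun)
      rw [e2] at h3
      have e3 : c (n + 1 + k + 1) = 0 := by
        have : (((n + 1 + k : ℕ) : ZMod p) + 1) ^ 3 * c (n + 1 + k + 1) = 0 := by linear_combination h3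
        exact (mul_eq_zero.mp this).resolve_left (pow_ne_zero _ hun)
      exact ⟨e1, e2, e3⟩
  have key : X ^ p ∣ 2 * pol n a * pol n c - pol n b ^ 2 := by
    refine quad_rel (p := p) (Q0 := pol n (fun j => j * a j)) (Q1 := pol n (fun j => j * b j + a j)) (Q2 := pol n (fun j => j * c j + b j))
      (R0 := pol n (fun j => j ^ 2 * a j)) (R1 := pol n (fun j => j ^ 2 * b j + 2 * j * a j)) (R2 := pol n (fun j => j ^ 2 * c j + 2 * j * b j + a j))
      (T0 := pol n (fun j => j ^ 3 * a j)) (T1 := pol n (fun j => j ^ 3 * b j + 3 * j ^ 2 * a j)) (T2 := pol n (fun j => j ^ 3 * c j + 3 * j ^ 2 * b j + 3 * j * a j))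
      ?_ ?_ ?_ ?_ ?_ ?_ ?_ ?_ ?_ ?_ ?_ ?_ ?_ ?_ ?_ ?_ ?_ ?_ ?_ ?_ ?_
    · rw [tp_pol, sub_zero]
    · rw [tp_pol, pol_sub]; congr 1; funext j; ring
    · rw [tp_pol, pol_sub]; congr 1; funext j; ring
    · rw [tp_pol, sub_zero]; congr 1; funext j; ring
    · rw [tp_pol, pol_sub]; congr 1; funext j; ring
    · rw [tp_pol, pol_sub]; congr 1; funext j; ring
    · rw [tp_pol, sub_zero]; congr 1; funext j; ring
    · rw [tp_pol, pol_sub]; congr 1; funext j; ring
    · rw [tp_pol, pol_sub]; congr 1; funext j; ring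
    · refine pol_tele ?_ ?_ ?_
      · push_cast; ring
      · intro j hj
        have := ra j (by omega)
        push_cast
        linear_combination this
      · linear_combination (8 * (2 * (n : ZMod p) + 1) ^ 2 * a n) * hn0
    · refine pol_tele ?_ ?_ ?_
      · push_cast; ring
      · intro j hj
        have := rb j (by omega)
        push_cast
        linear_combination this
      · linear_combination (8 * (2 * (n : ZMod p) + 1) ^ 2 * b n + 48 * (2 * (n : ZMod p) + 1) * a n) * hn0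
    · refine pol_tele ?_ ?_ ?_
      · push_cast; ring
      · intro j hj
        have := rc j (by omega)
        push_cast
        linear_combination this
      · linear_combination (8 * (2 * (n : ZMod p) + 1) ^ 2 * c n + 48 * (2 * (n : ZMod p) + 1) * b n + 96 * a n) * hn0
    all_goals (rw [pol_coeff _ (by omega)]; simp only [a0, b0, c0] <;> push_cast <;> try ring)
  have hdeg : (2 * pol n a * pol n c - pol n b ^ 2).natDegree < p := by
    have h2 : (2 * pol n a * pol n c).natDegree ≤ 2 * n := by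
      have e : (2 * pol n a * pol n c) = C (2 : ZMod p) * (pol n a * pol n c) := by rw [map_ofNat]; ring
      rw [e]
      exact (natDegree_C_mul_le _ _).trans ((natDegree_mul_le_of_le (pol_deg n a) (pol_deg n c)).trans (by omega))
    have h3 : (pol n b ^ 2).natDegree ≤ 2 * n := natDegree_pow_le.trans (Nat.mul_le_mul_left _ (pol_deg n b))
    exact lt_of_le_of_lt ((natDegree_sub_le _ _).trans (max_le h2 h3)) (by omega)
  have hW : 2 * pol n a * pol n c - pol n b ^ 2 = 0 := by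
    ext k
    rw [coeff_zero]
    by_cases hk : k < p
    · exact (X_pow_dvd_iff.mp key) k hk
    · exact coeff_eq_zero_of_natDegree_lt (by omega)
  have hev : ∀ (s : ℕ → ZMod (p ^ 3)), (∀ k, n + 1 + k < p → red p (s (n + 1 + k)) = 0) →
      red p (∑ j ∈ range p, s j * z ^ j) = (pol n (fun j => red p (s j))).eval (red p z) := by
    intro s hs
    have hr : range p = range ((n + 1) + n) := by congr 1; omega
    rw [map_sum, hr, Finset.sum_range_add]
    have : ∑ x ∈ range n, red p (s (n + 1 + x) * z ^ (n + 1 + x)) = 0 := by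
      refine sum_eq_zero fun x hx => ?_
      rw [mem_range] at hx
      rw [map_mul, hs x (by omega), zero_mul]
    rw [this, add_zero]
    unfold pol
    rw [eval_finsetSum]
    refine sum_congr rfl fun j _ => ?_
    rw [eval_mul, eval_C, eval_pow, eval_X, map_mul, map_pow]
  rw [map_sub, map_pow, map_mul, map_mul, map_ofNat, hev (sa p) (fun k hk => (hz k hk).1), hev (sb p) (fun k hk => (hz k hk).2.1),
    hev (sc p) (fun k hk => (hz k hk).2.2)]
  have := congrArg (eval (red p z)) hW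
  rw [eval_sub, eval_mul, eval_mul, eval_pow, eval_zero, show (2 : (ZMod p)[X]) = C 2 by rw [map_ofNat], eval_C] at this
  linear_combination -this

/-- **the quadratic relation modulo `p³`** -/
theorem quad3 (hn : p = 2 * n + 1) (hh : 2 * h = 1) {z ν : ZMod (p ^ 3)} (hz : z ^ (p - 1) = 1 + (p : ZMod (p ^ 3)) * ν) :
    c1 h (fS p z) ^ 2 = 2 * fS p z 0 * c2 h (fS p z) := by
  have hP := p3_zero (p := p)
  obtain ⟨e0, e1, e2⟩ := fS_comps (h := h) hh hz
  obtain ⟨t, ht⟩ := red_ker (quad_modp hn z)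
  rw [e0, e1, e2]
  set P : ZMod (p ^ 3) := (p : ZMod (p ^ 3))
  set A := ∑ j ∈ range p, sa p j * z ^ j
  set B := ∑ j ∈ range p, sb p j * z ^ j
  set Cc := ∑ j ∈ range p, sc p j * z ^ j
  linear_combination (P ^ 2) * ht - (P ^ 2 * ν ^ 2 * A ^ 2) * hh + (t - 2 * h * ν ^ 2 * A * B + (h ^ 2 * ν ^ 4 * P - 2 * h * ν ^ 3) * A ^ 2) * hP

end seqs

end Pool.Agent.H547.P4
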