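import Pool.Agent.H547.P4.T6

set_option autoImplicit false

/-!
# The points with discriminants `-4` and `-16`
-/

namespace Pool.Agent.H547.P4

open Finset Pool.Agent.H547.P3

variable {p : ℕ} [hp : Fact p.Prime] {n : ℕ} {h : ZMod (p ^ 3)}

theorem red_h_pow (hn : p = 2 * n + 1) (hh : 2 * h = 1) : (red p h) ^ (2 * n) = 1 := by
  rw [show 2 * n = p - 1 by omega]
  exact ZMod.pow_card_sub_one_eq_one (unit_red (IsUnit.of_mul_eq_one 2 (by linear_combination hh)))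

theorem D4_core (hp53 : 53 ≤ p) (hn : p = 2 * n + 1) (hne : Even n) (hh : 2 * h = 1) {i3 i33 : ZMod (p ^ 3)} (hi3 : 3 * i3 = 1)
    (hi33 : 33 * i33 = 1) :
    ∃ x y : ZMod (p ^ 3), x ^ 2 = 1 ∧ y ^ 2 = 1 ∧ red p x = 3 ^ n ∧ red p y = 33 ^ n ∧
      fS p (h ^ 6) 0 = x * fT1 p (h ^ 6 * i3 ^ 3) 0 ∧ fS p (h ^ 6) 0 = y * fT1 p (h ^ 3 * i33 ^ 3) 0 := by
  have u2 : IsUnit (2 : ZMod (p ^ 3)) := IsUnit.of_mul_eq_one h hh
  have uh : IsUnit h := IsUnit.of_mul_eq_one 2 (by linear_combination hh)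
  have u3 : IsUnit (3 : ZMod (p ^ 3)) := IsUnit.of_mul_eq_one i3 hi3
  have u33 : IsUnit (33 : ZMod (p ^ 3)) := IsUnit.of_mul_eq_one i33 hi33
  have k : ∀ m, (2 * h) ^ m = 1 := fun m => by rw [hh, one_pow]
  have kr := red_h_pow hn hh
  have hp2 : 2 < p := by omega
  -- the point 1/64
  have l1 : 3 * h ^ 2 = 1 - 16 * h ^ 6 := by linear_combination k 2 + h ^ 2 * k 4
  have l1i : (3 * h ^ 2) * (4 * i3) = 1 := by linear_combination (3 * i3) * k 2 + hi3
  obtain ⟨x, hx, ⟨y1, hy1⟩, f0, f1, f2⟩ := star1 hp53 hn hh (z := h ^ 6) (uh.pow 6) l1 l1i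
  have w1 : (h ^ 6) ^ 2 * (4 * i3) ^ 3 = h ^ 6 * i3 ^ 3 := by linear_combination (h ^ 6 * i3 ^ 3) * k 6
  rw [w1] at f0 f1 f2
  -- the point -1/8
  have l2 : (3 : ZMod (p ^ 3)) = 1 - 16 * (-h ^ 3) := by linear_combination (-2 : ZMod (p ^ 3)) * k 3
  obtain ⟨x', hx', ⟨y2, hy2⟩, g0, g1, g2⟩ := star1 hp53 hn hh (z := -h ^ 3) (uh.pow 3).neg l2 hi3
  have w2 : (-h ^ 3) ^ 2 * i3 ^ 3 = h ^ 6 * i3 ^ 3 := by ring
  rw [w2] at g0 g1 g2
  -- the point -1/512
  have l3 : 33 * h ^ 5 = 1 - 16 * (-h ^ 9) := by linear_combination k 5 - h ^ 5 * k 4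
  have l3i : (33 * h ^ 5) * (32 * i33) = 1 := by linear_combination (33 * i33) * k 5 + hi33
  obtain ⟨x'', hx'', ⟨y3, hy3⟩, t0, t1, t2⟩ := star1 hp53 hn hh (z := -h ^ 9) (uh.pow 9).neg l3 l3i
  have w3 : (-h ^ 9) ^ 2 * (32 * i33) ^ 3 = h ^ 3 * i33 ^ 3 := by linear_combination (h ^ 3 * i33 ^ 3) * k 15
  rw [w3] at t0 t1 t2
  -- Fricke
  obtain ⟨ν, hν⟩ := fermat_unit (uh.pow 6)
  obtain ⟨c, hc, ⟨yc, hyc⟩, hX⟩ := fricke (z := h ^ 6) (z' := h ^ 6) (by omega) hh hn (by linear_combination k 12) hν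
  obtain ⟨d2, d1, d0⟩ := fricke_comps hh hX
  obtain ⟨ν', hν'⟩ := fermat_unit (uh.pow 3).neg
  obtain ⟨c', hc', ⟨yc', hyc'⟩, hX'⟩ := fricke (z := -h ^ 3) (z' := -h ^ 9) (by omega) hh hn (by linear_combination k 12) hν'
  obtain ⟨b2, b1, b0⟩ := fricke_comps hh hX'
  have haut := aut_i hp53 hn hh (z := -h ^ 3) (by linear_combination (-1 : ZMod (p ^ 3)) * k 3)
  set T0 := fT1 p (h ^ 6 * i3 ^ 3) 0
  set T1 := c1 h (fT1 p (h ^ 6 * i3 ^ 3))
  set T2 := c2 h (fT1 p (h ^ 6 * i3 ^ 3))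
  set S0 := fS p (h ^ 6) 0
  set S1 := c1 h (fS p (h ^ 6))
  set S2 := c2 h (fS p (h ^ 6))
  set S0' := fS p (-h ^ 3) 0
  set S1' := c1 h (fS p (-h ^ 3))
  set S2' := c2 h (fS p (-h ^ 3))
  set S0'' := fS p (-h ^ 9) 0
  set S1'' := c1 h (fS p (-h ^ 9))
  set S2'' := c2 h (fS p (-h ^ 9))
  have ux' : IsUnit x' := IsUnit.of_mul_eq_one x' (by linear_combination hx')
  have hc1 : c = 1 := by
    apply sq_one_red hp2 hc (one_pow 2)
    rw [hyc, map_mul, map_mul, map_pow, map_pow, map_add, map_mul, red_p, map_one, map_neg, map_one, map_pow, hne.neg_one_pow, ← pow_mul,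
      show 6 * n = 2 * n * 3 by ring, pow_mul, kr]
    ring
  have hz1 : 2 + 16 * (-h ^ 3) = 0 := by linear_combination (-2 : ZMod (p ^ 3)) * k 3
  have hT2 : T2 = 0 := by
    apply ((u3.pow 2).mul ux').mul_left_cancel
    rw [mul_zero]
    linear_combination g2 + ((2 + 16 * (-h ^ 3)) * S2') * hz1
  have hS2 : S2 = 0 := by
    have hu : IsUnit ((3 * h) ^ 4) := (u3.mul uh).pow 4
    apply hu.mul_left_cancel
    rw [mul_zero]
    rw [hT2] at f2
    have e1 : 2 + 16 * h ^ 6 = 9 * h ^ 2 := by linear_combination (-2 : ZMod (p ^ 3)) * k 2 + h ^ 2 * k 4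
    rw [e1] at f2
    linear_combination -f2
  have hS1 : S1 = 0 := by
    apply u2.mul_left_cancel
    rw [hc1, hS2] at d1
    linear_combination d1
  have hT1 : T1 = 0 := by
    have ux : IsUnit x := IsUnit.of_mul_eq_one x (by linear_combination hx)
    apply (((u3.mul (uh.pow 2)).pow 2).mul ux).mul_left_cancel
    rw [hS1, hS2] at f1
    linear_combination f1
  have hT0 : S0 = x * T0 := by
    apply ((u3.mul (uh.pow 2)).pow 2).mul_left_cancel
    rw [hS1, hS2] at f0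
    linear_combination -f0
  have hS2' : S2' = 0 := by
    apply ((u3.mul uh).mul uh |>.mul uh |>.mul (u2.pow 4)).mul_left_cancel
    rw [hT1] at g1
    linear_combination g1 + (3 * S1' - 16 * h ^ 3 * S2') * hz1
  have hS1' : S1' = 0 := by
    have e : (162 : ZMod (p ^ 3)) = 2 * 3 ^ 4 := by norm_num
    rw [hS2', e] at haut
    apply (u2.mul (u3.pow 4)).mul_left_cancel
    linear_combination haut
  have hT0' : S0' = x' * T0 := by
    apply (u3.pow 2).mul_left_cancel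
    rw [hS1', hS2'] at g0
    linear_combination -g0
  have uc' : IsUnit c' := IsUnit.of_mul_eq_one c' (by linear_combination hc')
  have hS2'' : S2'' = 0 := by
    apply uc'.mul_left_cancel
    rw [hS2'] at b2
    linear_combination -b2
  have hS1'' : S1'' = 0 := by
    apply uc'.mul_left_cancel
    rw [hS1', hS2''] at b1
    linear_combination b1
  have hT0'' : S0'' = x'' * fT1 p (h ^ 3 * i33 ^ 3) 0 := by
    have hu : IsUnit ((33 * h ^ 5) ^ 2) := (u33.mul (uh.pow 5)).pow 2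
    apply hu.mul_left_cancel
    rw [hS1'', hS2''] at t0
    linear_combination -t0
  rw [hS1'', hS2''] at b0
  have rx : red p x = 3 ^ n := by
    rw [red_x hy1, map_mul, map_pow, mul_pow, ← pow_mul, kr, map_ofNat, mul_one]
  have rx' : red p x' = 3 ^ n := by
    rw [red_x hy2, map_ofNat]
  have hxx : x = x' := sq_one_red hp2 hx hx' (by rw [rx, rx'])
  refine ⟨x, c' * x'', hx, by rw [mul_pow, hc', hx'', one_mul], rx, ?_, hT0, ?_⟩
  · rw [map_mul, red_x hy3, hyc', map_mul, map_mul, map_pow, map_pow, map_add, map_mul, red_p, map_one, map_neg, map_one, map_neg, map_mul,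
      map_pow, map_pow, hne.neg_one_pow, hne.neg_pow, map_ofNat, mul_pow, ← pow_mul, ← pow_mul]
    have : (red p h) ^ (3 * n) * (red p h) ^ (5 * n) = 1 := by
      rw [← pow_add, show 3 * n + 5 * n = 2 * n * 4 by ring, pow_mul, kr, one_pow]
    linear_combination (33 ^ n) * this
  · rw [hT0, hxx, ← hT0']
    linear_combination b0 + c' * hT0''

end Pool.Agent.H547.P4
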