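import Pool.Agent.H547.P4.Q2
import Pool.Agent.H547.P4.T7

set_option autoImplicit false

/-!
# The point `z = -1/64` (discriminant `-8`)
-/

namespace Pool.Agent.H547.P4

open Finset Pool.Agent.H547.P3
open scoped Nat

theorem v2_succ (k : ℕ) : v2 (k + 1) * (k + 1) ^ 3 = 8 * (2 * k + 1) * (4 * k + 1) * (4 * k + 3) * v2 k := by
  have h : ((v2 (k + 1) * (k + 1) ^ 3 : ℕ) : ℚ) = ((8 * (2 * k + 1) * (4 * k + 1) * (4 * k + 3) * v2 k : ℕ) : ℚ) := by
    push_cast
    rw [v2_Q, v2_Q, show 4 * (k + 1) = 4 * k + 1 + 1 + 1 + 1 by ring, Nat.factorial_succ, Nat.factorial_succ, Nat.factorial_succ,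
      Nat.factorial_succ, Nat.factorial_succ]
    have h3 : ((k)! : ℚ) ≠ 0 := by positivity
    have h4 : ((k : ℚ) + 1) ≠ 0 := by positivity
    push_cast
    field_simp
    ring
  exact_mod_cast h

section modp

variable {p : ℕ} [hp : Fact p.Prime]

/-- `C(m,k) C(m+k,k) C(2k,k) q^k` -/
noncomputable def FF (q : ZMod p) (m k : ℕ) : ZMod p := (m.choose k : ZMod p) * ((m + k).choose k : ZMod p) * ((2 * k).choose k : ZMod p) * q ^ k
noncomputable def TT (q : ZMod p) (m k : ℕ) : ZMod p := ((m + k).choose k : ZMod p) * ((m + 2).choose k : ZMod p) * ((2 * k).choose k : ZMod p) * q ^ k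

theorem ch1 (m k : ℕ) : ((m + k + 1).choose (k + 1) : ZMod p) * (k + 1) = ((m + k).choose k : ZMod p) * (m + k + 1) := by
  have := Nat.add_one_mul_choose_eq (m + k) k
  have := congrArg (Nat.cast : ℕ → ZMod p) this
  push_cast at this
  linear_combination -this

theorem ch2 (m k : ℕ) : (m.choose (k + 1) : ZMod p) * (k + 1) = (m.choose k : ZMod p) * ((m : ZMod p) - k) := by
  rcases Nat.lt_or_ge m k with h | h
  · rw [Nat.choose_eq_zero_of_lt h, Nat.choose_eq_zero_of_lt (by omega)]; simp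
  · have := Nat.choose_succ_right_eq m k
    have := congrArg (Nat.cast : ℕ → ZMod p) this
    push_cast [Nat.cast_sub h] at this
    exact this

theorem ch3 (k : ℕ) : ((2 * (k + 1)).choose (k + 1) : ZMod p) * (k + 1) = 2 * (2 * k + 1) * ((2 * k).choose k : ZMod p) := by
  have := Nat.succ_mul_centralBinom_succ k
  rw [Nat.centralBinom_eq_two_mul_choose, Nat.centralBinom_eq_two_mul_choose] at this
  have := congrArg (Nat.cast : ℕ → ZMod p) this
  push_cast at this
  linear_combination this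

theorem ch4 (m k : ℕ) : ((m + 1).choose k : ZMod p) * ((m : ZMod p) + 1 - k) = (m.choose k : ZMod p) * (m + 1) := by
  rcases Nat.lt_or_ge (m + 1) k with h | h
  · rw [Nat.choose_eq_zero_of_lt h, Nat.choose_eq_zero_of_lt (by omega)]; simp
  · have := Nat.choose_mul_succ_eq m k
    have := congrArg (Nat.cast : ℕ → ZMod p) this
    push_cast [Nat.cast_sub h] at this
    linear_combination -this

theorem ch5 (m k : ℕ) : ((m + 1 + k).choose k : ZMod p) * (m + 1) = ((m + k).choose k : ZMod p) * (m + k + 1) := by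
  have e1 : (m + 1 + k).choose k * (m + 1) = (m + k).choose k * (m + k + 1) := by
    have h1 := Nat.choose_symm_add (a := m + 1) (b := k)
    have h2 := Nat.choose_symm_add (a := m) (b := k)
    rw [← h1, ← h2]
    have := Nat.add_one_mul_choose_eq (m + k) m
    rw [show m + 1 + k = m + k + 1 by ring]
    linarith
  have := congrArg (Nat.cast : ℕ → ZMod p) e1
  push_cast at this
  exact this

theorem FF_succ {q : ZMod p} (hq : 4 * q = -1) (m k : ℕ) : FF q m (k + 1) * (k + 1) ^ 3 * 2 = -(FF q m k * ((m : ZMod p) - k) * (m + k + 1) * (2 * k + 1)) := by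
  unfold FF
  have h1 := ch1 (p := p) m k
  have h2 := ch2 (p := p) m k
  have h3 := ch3 (p := p) k
  rw [show m + (k + 1) = m + k + 1 by ring, pow_succ]
  calc _ = (((m.choose (k + 1) : ZMod p)) * (k + 1)) * (((m + k + 1).choose (k + 1) : ZMod p) * (k + 1)) * (((2 * (k + 1)).choose (k + 1) : ZMod p) * (k + 1)) * (q ^ k * q) * 2 := by ring
    _ = _ := by
      rw [h1, h2, h3]
      linear_combination ((m.choose k : ZMod p) * ((m : ZMod p) - k) * ((m + k).choose k : ZMod p) * (m + k + 1) * (2 * k + 1) * ((2 * k).choose k : ZMod p) * q ^ k) * hq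

theorem TT_succ {q : ZMod p} (hq : 4 * q = -1) (m k : ℕ) : TT q m (k + 1) * (k + 1) ^ 3 * 2 = -(TT q m k * ((m : ZMod p) + 2 - k) * (m + k + 1) * (2 * k + 1)) := by
  unfold TT
  have h1 := ch1 (p := p) m k
  have h2 := ch2 (p := p) (m + 2) k
  have h3 := ch3 (p := p) k
  push_cast at h2
  rw [show m + (k + 1) = m + k + 1 by ring, pow_succ]
  calc _ = (((m + 2).choose (k + 1) : ZMod p) * (k + 1)) * (((m + k + 1).choose (k + 1) : ZMod p) * (k + 1)) * (((2 * (k + 1)).choose (k + 1) : ZMod p) * (k + 1)) * (q ^ k * q) * 2 := by ring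
    _ = _ := by
      rw [h1, h2, h3]
      linear_combination (((m + 2).choose k : ZMod p) * ((m : ZMod p) + 2 - k) * ((m + k).choose k : ZMod p) * (m + k + 1) * (2 * k + 1) * ((2 * k).choose k : ZMod p) * q ^ k) * hq

theorem FF_TT (q : ZMod p) (m k : ℕ) : ((m : ZMod p) + 1) * (m + 2) * FF q m k = TT q m k * ((m : ZMod p) + 2 - k) * (m + 1 - k) ∧
    ((m : ZMod p) + 1) * (m + 2) * FF q (m + 2) k = TT q m k * ((m : ZMod p) + k + 1) * (m + k + 2) := by
  have h1 := ch4 (p := p) m k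
  have h2 := ch4 (p := p) (m + 1) k
  have h3 := ch5 (p := p) m k
  have h4 := ch5 (p := p) (m + 1) k
  push_cast at h2 h4
  rw [show m + 1 + 1 = m + 2 by ring] at h2 h4
  unfold FF TT
  constructor
  · calc _ = ((m.choose k : ZMod p) * (m + 1)) * (m + 2) * ((m + k).choose k : ZMod p) * ((2 * k).choose k : ZMod p) * q ^ k := by ring
      _ = _ := by
        rw [← h1]
        linear_combination -(((m : ZMod p) + 1 - k) * ((m + k).choose k : ZMod p) * ((2 * k).choose k : ZMod p) * q ^ k) * h2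
  · linear_combination (((m : ZMod p) + 1) * ((m + 2).choose k : ZMod p) * ((2 * k).choose k : ZMod p) * q ^ k) * h4 +
      (((m : ZMod p) + k + 2) * ((m + 2).choose k : ZMod p) * ((2 * k).choose k : ZMod p) * q ^ k) * h3

theorem A_rec {q : ZMod p} (hq : 4 * q = -1) (m : ℕ) :
    ((m : ZMod p) + 1) * (m + 2) * ((m + 2) ^ 2 * ∑ k ∈ range p, FF q (m + 2) k - (m + 1) ^ 2 * ∑ k ∈ range p, FF q m k) = 0 := by
  have h : ∀ k : ℕ, ((m : ZMod p) + 1) * (m + 2) * ((m + 2) ^ 2 * FF q (m + 2) k - (m + 1) ^ 2 * FF q m k) =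
      (-2 * (2 * m + 3) * ((k + 1 : ℕ) : ZMod p) ^ 3 * TT q m (k + 1)) - (-2 * (2 * m + 3) * ((k : ℕ) : ZMod p) ^ 3 * TT q m k) := by
    intro k
    obtain ⟨a1, a2⟩ := FF_TT q m k
    have a3 := TT_succ hq m k
    push_cast
    linear_combination ((m : ZMod p) + 2) ^ 2 * a2 - ((m : ZMod p) + 1) ^ 2 * a1 + (2 * (m : ZMod p) + 3) * a3
  rw [mul_sum, mul_sum, ← sum_sub_distrib, mul_sum, sum_congr rfl fun k _ => h k,
    sum_range_sub (f := fun k => (-2 * (2 * (m : ZMod p) + 3) * ((k : ℕ) : ZMod p) ^ 3 * TT q m k)), ZMod.natCast_self]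
  push_cast
  ring

theorem A_ne {q : ZMod p} (hq : 4 * q = -1) : ∀ r : ℕ, 2 * r < p → ∑ k ∈ range p, FF q (2 * r) k ≠ 0 := by
  have hu : ∀ j : ℕ, 0 < j → j < p → (j : ZMod p) ≠ 0 := by
    intro j h0 hj h1
    rw [ZMod.natCast_eq_zero_iff] at h1
    exact absurd (Nat.le_of_dvd h0 h1) (by omega)
  intro r
  induction r with
  | zero =>
    intro _
    have hp0 := hp.out.pos
    rw [sum_eq_single 0]
    · unfold FF; simp
    · intro b _ hb
      unfold FF
      rw [show 2 * 0 = 0 by rfl, Nat.choose_eq_zero_of_lt (Nat.pos_of_ne_zero hb)]; simp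
    · intro h; exact absurd (mem_range.mpr hp0) h
  | succ r ih =>
    intro hr h0
    have h1 := A_rec hq (2 * r)
    rw [show 2 * (r + 1) = 2 * r + 2 by ring] at h0
    rw [h0, mul_zero, zero_sub] at h1
    have u1 := hu (2 * r + 1) (by omega) (by omega)
    have u2 := hu (2 * r + 2) (by omega) (by omega)
    push_cast at u1 u2 h1
    have h2 : ((2 * (r : ZMod p) + 1) * (2 * r + 2) * (2 * r + 1) ^ 2) * ∑ k ∈ range p, FF q (2 * r) k = 0 := by
      linear_combination -h1
    rcases mul_eq_zero.mp h2 with h3 | h3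
    · exact (mul_ne_zero (mul_ne_zero u1 u2) (pow_ne_zero _ u1)) h3
    · exact ih (by omega) h3

theorem M_ne (hp5 : 5 ≤ p) (h8 : p % 8 = 1 ∨ p % 8 = 3) {w : ZMod p} (hw : 256 * w = 1) :
    ∑ j ∈ range p, (v2 j : ZMod p) * w ^ j ≠ 0 := by
  have hu : ∀ j : ℕ, 0 < j → j < p → (j : ZMod p) ≠ 0 := by
    intro j h0 hj h1
    rw [ZMod.natCast_eq_zero_iff] at h1
    exact absurd (Nat.le_of_dvd h0 h1) (by omega)
  have hp0 : (p : ZMod p) = 0 := ZMod.natCast_self p
  set m := p / 4 with hm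
  have hm16 : 16 * ((m : ZMod p) ^ 2 + m) = -3 := by
    rcases h8 with h | h
    · have : p = 4 * m + 1 := by omega
      have := congrArg (Nat.cast : ℕ → ZMod p) this
      rw [hp0] at this
      push_cast at this
      linear_combination (-(4 * (m : ZMod p) + 3)) * this
    · have : p = 4 * m + 3 := by omega
      have := congrArg (Nat.cast : ℕ → ZMod p) this
      rw [hp0] at this
      push_cast at this
      linear_combination (-(4 * (m : ZMod p) + 1)) * this
  set q : ZMod p := -64 * w with hq0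
  have hq : 4 * q = -1 := by rw [hq0]; linear_combination -hw
  have key : ∀ j < p, (v2 j : ZMod p) * w ^ j = FF q m j := by
    intro j
    induction j with
    | zero => intro _; unfold FF v2; simp
    | succ j ih =>
      intro hj
      have i1 := ih (by omega)
      have h1 := congrArg (Nat.cast : ℕ → ZMod p) (v2_succ j)
      push_cast at h1
      have h2 := FF_succ hq m j
      rw [← i1] at h2
      have u1 := hu (j + 1) (by omega) hj
      have u2 := hu 2 (by norm_num) (by omega)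
      push_cast at u1 u2
      have u3 : 32 * w ≠ 0 := by
        intro h0
        have : (1 : ZMod p) = 0 := by linear_combination 8 * h0 - hw
        exact one_ne_zero this
      have : (((j : ZMod p) + 1) ^ 3 * 2) ≠ 0 := mul_ne_zero (pow_ne_zero _ u1) u2
      apply mul_right_cancel₀ this
      have hc : FF q m (j + 1) * (((j : ZMod p) + 1) ^ 3 * 2) = -((v2 j : ZMod p) * w ^ j * ((m : ZMod p) - j) * (m + j + 1) * (2 * j + 1)) := by
        linear_combination h2
      rw [hc, pow_succ]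
      linear_combination (2 * w ^ j * w) * h1 + (16 * ((v2 j : ZMod p)) * w ^ j * w * (2 * j + 1)) * hm16 +
        ((v2 j : ZMod p) * w ^ j * (2 * j + 1) * ((j : ZMod p) ^ 2 + j - (m : ZMod p) ^ 2 - m)) * hw
  rw [sum_congr rfl fun j hj => key j (mem_range.mp hj)]
  obtain ⟨r, hr⟩ : ∃ r, m = 2 * r := ⟨p / 8, by omega⟩
  rw [hr]
  exact A_ne hq r (by omega)

end modp

variable {p : ℕ} [hp : Fact p.Prime] {n : ℕ} {h : ZMod (p ^ 3)}

theorem D8_core (hp53 : 53 ≤ p) (hn : p = 2 * n + 1) (hh : 2 * h = 1) (h8 : p % 8 = 1 ∨ p % 8 = 3) {i5 : ZMod (p ^ 3)} (hi5 : 5 * i5 = 1) :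
    ∃ x : ZMod (p ^ 3), x ^ 2 = 1 ∧ red p x = 5 ^ n ∧ fS p (-h ^ 6) 0 = x * fT1 p (h ^ 6 * i5 ^ 3) 0 := by
  have hP := p3_zero (p := p)
  have uh : IsUnit h := IsUnit.of_mul_eq_one 2 (by linear_combination hh)
  have u5 : IsUnit (5 : ZMod (p ^ 3)) := IsUnit.of_mul_eq_one i5 hi5
  have k : ∀ m, (2 * h) ^ m = 1 := fun m => by rw [hh, one_pow]
  have kr := red_h_pow hn hh
  have uz : IsUnit (-h ^ 6) := (uh.pow 6).neg
  obtain ⟨ν, hν⟩ := fermat_unit uz
  -- Fricke
  obtain ⟨c, hc, ⟨y, hy⟩, hX⟩ := fricke (z := -h ^ 6) (z' := -h ^ 6) (by omega) hh hn (by linear_combination k 12) hν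
  have hc1 : c = 1 := by
    apply sq_one_red (by omega) hc (one_pow 2)
    have e : c = (h ^ 6) ^ n * (1 + (p : ZMod (p ^ 3)) * y) := by rw [hy, ← mul_pow]; congr 2; ring
    rw [red_x e, map_pow, ← pow_mul, show 6 * n = 2 * n * 3 by ring, pow_mul, kr, one_pow, map_one]
  obtain ⟨-, d1, -⟩ := fricke_comps hh hX
  rw [hc1, one_mul] at d1
  have hq := quad3 hn hh hν
  obtain ⟨e0, e1, e2⟩ := fS_comps (h := h) hh hν
  -- components are divisible by `p`
  have r1 : red p (c1 h (fS p (-h ^ 6))) = 0 := by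
    rw [e1, map_add, map_mul, red_p, zero_mul, map_mul, map_sub, map_mul, map_mul, map_pow, map_mul, red_p]; ring
  have r2 : red p (c2 h (fS p (-h ^ 6))) = 0 := by
    rw [e2, map_add, map_add, map_mul, map_pow, red_p, map_mul, map_mul, map_mul, red_p, map_mul, map_mul, map_pow, map_mul, red_p]; ring
  -- the value is a unit
  have uS : IsUnit (fS p (-h ^ 6) 0) := by
    apply red_unit
    have l2 : (2 : ZMod (p ^ 3)) = 1 - 64 * (-h ^ 6) := by linear_combination -k 6
    obtain ⟨x, hx, -, f0, -, -⟩ := star2 (by omega) hn hh (z := -h ^ 6) uz l2 hh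
    intro h0
    have f1 := congrArg (red p) f0
    simp only [map_add, map_mul, h0, r1, r2, mul_zero, add_zero] at f1
    have hx0 : red p x ≠ 0 := by
      intro hx0
      have := congrArg (red p) hx
      rw [map_pow, hx0, map_one] at this
      exact one_ne_zero (by rw [← this]; ring)
    have h20 : red p ((2 : ZMod (p ^ 3)) ^ 2) ≠ 0 := unit_red ((IsUnit.of_mul_eq_one h hh).pow 2)
    have f2 : red p (fT2 p (-h ^ 6 * h ^ 2) 0) = 0 := by
      have := (mul_eq_zero.mp f1).resolve_left h20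
      exact (mul_eq_zero.mp this).resolve_left hx0
    rw [fT2_zero (by omega), map_sum] at f2
    refine M_ne (p := p) (by omega) h8 (w := red p (h ^ 8)) ?_ ?_
    · have : (256 : ZMod (p ^ 3)) * h ^ 8 = 1 := by linear_combination k 8
      have := congrArg (red p) this
      rwa [map_mul, map_ofNat, map_one] at this
    · rw [← f2]
      refine sum_congr rfl fun j _ => ?_
      rw [map_mul, map_natCast, show -(-h ^ 6 * h ^ 2) = h ^ 8 by ring, map_pow (red p) (h ^ 8) j]
  have hc1z : c1 h (fS p (-h ^ 6)) = 0 := by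
    have hu : IsUnit (c1 h (fS p (-h ^ 6)) - 4 * fS p (-h ^ 6) 0) := by
      apply red_unit
      rw [map_sub, r1, zero_sub, map_mul, map_ofNat]
      have h4 : (4 : ZMod p) ≠ 0 := by
        have : IsUnit (4 : ZMod (p ^ 3)) := IsUnit.of_mul_eq_one (h ^ 2) (by linear_combination k 2)
        have := unit_red this
        rwa [map_ofNat] at this
      exact neg_ne_zero.mpr (mul_ne_zero h4 (unit_red uS))
    apply hu.mul_left_cancel
    rw [mul_zero]
    linear_combination hq - 2 * fS p (-h ^ 6) 0 * d1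
  have hc2z : c2 h (fS p (-h ^ 6)) = 0 := by rw [hc1z] at d1; linear_combination -d1
  have l1 : 5 * h ^ 2 = 1 - 16 * (-h ^ 6) := by linear_combination k 2 - h ^ 2 * k 4
  have l1i : (5 * h ^ 2) * (4 * i5) = 1 := by linear_combination (5 * i5) * k 2 + hi5
  obtain ⟨x, hx, ⟨y1, hy1⟩, f0, -, -⟩ := star1 hp53 hn hh (z := -h ^ 6) uz l1 l1i
  have w1 : (-h ^ 6) ^ 2 * (4 * i5) ^ 3 = h ^ 6 * i5 ^ 3 := by linear_combination (h ^ 6 * i5 ^ 3) * k 6
  rw [w1, hc1z, hc2z] at f0
  refine ⟨x, hx, ?_, ?_⟩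
  · rw [red_x hy1, map_mul, map_pow, map_ofNat, mul_pow, ← pow_mul, kr, mul_one]
  · apply ((u5.mul (uh.pow 2)).pow 2).mul_left_cancel
    linear_combination -f0

end Pool.Agent.H547.P4
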