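import Pool.Agent.H547.P4.Tr
import Pool.Agent.H547.P4.Q3

set_option autoImplicit false

namespace Pool.Agent.H547.P4.R125025

open Finset Pool.Agent.H547.P3 Pool.Agent.H547.P3.Rd1f0b8

section

variable {p : ℕ} [hp : Fact p.Prime]

theorem large (hp53 : 53 ≤ p) (h : p % 8 = 1 ∨ p % 8 = 3) : Cong p (Sb (-64) p) (legendreSym p 5 * T 20 p) := by
  obtain ⟨i2, hh⟩ := exists_half' (p := p) (by omega)
  obtain ⟨n, hn⟩ : ∃ n, p = 2 * n + 1 := by
    have := hp.out.odd_of_ne_two (by omega)
    obtain ⟨n, hn⟩ := this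
    exact ⟨n, hn⟩
  have n2 : ¬ p ∣ 2 := fun h => by have := Nat.le_of_dvd (by norm_num) h; omega
  have n5 : ¬ p ∣ 5 := fun h => by have := Nat.le_of_dvd (by norm_num) h; omega
  have n20 : ¬ (p : ℤ) ∣ 20 := by
    intro h1
    have h2 : p ∣ 2 * 2 * 5 := by exact_mod_cast h1
    rcases hp.out.dvd_mul.mp h2 with h3 | h3
    · rcases hp.out.dvd_mul.mp h3 with h3 | h3 <;> exact n2 h3
    · exact n5 h3
  have n64 : ¬ (p : ℤ) ∣ (-64) := by
    intro h1
    have h2 : (p : ℤ) ∣ ((2 ^ 6 : ℕ) : ℤ) := by rw [Int.dvd_neg] at h1; exact_mod_cast h1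
    have h3 : p ∣ 2 ^ 6 := by exact_mod_cast h2
    exact n2 (hp.out.dvd_of_dvd_pow h3)
  obtain ⟨w20, hw20⟩ := inv_exists n20
  push_cast at hw20
  obtain ⟨x, hx, rx, kx⟩ := D8_core (i5 := 4 * w20) hp53 hn hh h (by linear_combination hw20)
  have e5 : x = ((legendreSym p 5 : ℤ) : ZMod (p ^ 3)) := by
    apply leg_sq_one (by omega) hn hx
    push_cast; rw [rx, map_ofNat]
  have c1 : i2 ^ 6 * (4 * w20) ^ 3 = w20 ^ 3 := by
    have : (2 * i2) ^ 6 = 1 := by rw [hh, one_pow]
    linear_combination w20 ^ 3 * this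
  rw [c1, e5] at kx
  have hS : Rep p (Sb (-64) p) (fS p (-i2 ^ 6) 0) := Rep_Sb (by omega) n64 (by
    have : (2 * i2) ^ 6 = 1 := by rw [hh, one_pow]
    push_cast
    linear_combination this)
  exact Rep.congr hS ((Rep.int _).mul (Rep_T' (by omega) n20 (by push_cast; exact hw20))) kx

end

theorem main (p : ℕ) [hp : Fact p.Prime] (hp3 : 3 < p) (h : p % 8 = 1 ∨ p % 8 = 3) :
    Cong p (Sb (-64) p) (legendreSym p 5 * T 20 p) := by
  by_cases hp53 : 53 ≤ p
  · exact large hp53 h
  · have hcase : p = 11 ∨ p = 17 ∨ p = 19 ∨ p = 41 ∨ p = 43 := by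
      have h0 := hp.out
      clear hp
      have : p < 53 := by omega
      interval_cases p <;> first | omega | (exfalso; revert h0; norm_num)
    rcases hcase with rfl | rfl | rfl | rfl | rfl
    · have e1 : legendreSym 11 5 = 1 := by norm_num
      rw [e1]
      exact small_b 11 hp.out (-64) 20 (1) (by norm_num) (by norm_num) (by decide +kernel)
    · have e1 : legendreSym 17 5 = -1 := by norm_num
      rw [e1]
      exact small_b 17 hp.out (-64) 20 (-1) (by norm_num) (by norm_num) (by decide +kernel)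
    · have e1 : legendreSym 19 5 = 1 := by norm_num
      rw [e1]
      exact small_b 19 hp.out (-64) 20 (1) (by norm_num) (by norm_num) (by decide +kernel)
    · have e1 : legendreSym 41 5 = 1 := by norm_num
      rw [e1]
      exact small_b 41 hp.out (-64) 20 (1) (by norm_num) (by norm_num) (by decide +kernel)
    · have e1 : legendreSym 43 5 = -1 := by norm_num
      rw [e1]
      exact small_b 43 hp.out (-64) 20 (-1) (by norm_num) (by norm_num) (by decide +kernel)

end Pool.Agent.H547.P4.R125025
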