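import Pool.Agent.H547.P4.T9

set_option autoImplicit false

namespace Pool.Agent.H547.P4.R2d2b11

open Finset Pool.Agent.H547.P3 Pool.Agent.H547.P3.Rd1f0b8

/-- `∑_{k<p} a_k / m^k` -/
def Tm (m : ℤ) (p : ℕ) : ℚ := ∑ k ∈ range p, ((2 * k).choose k * (3 * k).choose k * (6 * k).choose (3 * k) : ℚ) / (m : ℚ) ^ k

section

variable {p : ℕ} [hp : Fact p.Prime]

theorem Rep_Tm (hp5 : 5 ≤ p) {m : ℤ} (hm : ¬ (p : ℤ) ∣ m) {w : ZMod (p ^ 3)} (hw : (m : ZMod (p ^ 3)) * w = 1) :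
    Rep p (Tm m p) (fT1 p w 0) := by
  rw [fT1_zero hp5]
  unfold Tm
  refine Rep.sum _ fun k _ => ?_
  have : ((2 * k).choose k * (3 * k).choose k * (6 * k).choose (3 * k) : ℚ) / (m : ℚ) ^ k = (v1 k : ℚ) * (1 / (m : ℚ) ^ k) := by
    unfold v1; push_cast; ring
  rw [this]
  exact (Rep.nat _).mul (Rep.inv hm hw _)

theorem large (hp53 : 53 ≤ p) (h : p % 3 = 1) :
    Cong p (Sb 256 p) (legendreSym p (-5) * Tm 54000 p) := by
  obtain ⟨i2, hh⟩ := exists_half' (p := p) (by omega)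
  obtain ⟨n, hn⟩ : ∃ n, p = 2 * n + 1 := by
    have := hp.out.odd_of_ne_two (by omega)
    obtain ⟨n, hn⟩ := this
    exact ⟨n, hn⟩
  have n2 : ¬ p ∣ 2 := fun h => by have := Nat.le_of_dvd (by norm_num) h; omega
  have n3 : ¬ p ∣ 3 := fun h => by have := Nat.le_of_dvd (by norm_num) h; omega
  have n5 : ¬ p ∣ 5 := fun h => by have := Nat.le_of_dvd (by norm_num) h; omega
  have n15 : ¬ (p : ℤ) ∣ 15 := by
    intro h1
    have h2 : p ∣ 3 * 5 := by exact_mod_cast h1
    rcases hp.out.dvd_mul.mp h2 with h3 | h3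
    · exact n3 h3
    · exact n5 h3
  have n256 : ¬ (p : ℤ) ∣ 256 := by
    intro h1
    have h2 : p ∣ 2 ^ 8 := by exact_mod_cast h1
    exact n2 (hp.out.dvd_of_dvd_pow h2)
  have n54000 : ¬ (p : ℤ) ∣ 54000 := by
    intro h1
    have h2 : p ∣ 2 ^ 4 * (3 ^ 3 * 5 ^ 3) := by exact_mod_cast h1
    rcases hp.out.dvd_mul.mp h2 with h3 | h3
    · exact n2 (hp.out.dvd_of_dvd_pow h3)
    · rcases hp.out.dvd_mul.mp h3 with h3 | h3
      · exact n3 (hp.out.dvd_of_dvd_pow h3)
      · exact n5 (hp.out.dvd_of_dvd_pow h3)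
  obtain ⟨w15, hw15⟩ := inv_exists n15
  push_cast at hw15
  obtain ⟨m, hm⟩ := exists_omega (p := p) (by omega) h
  obtain ⟨x, hx, rx, kx⟩ := D3_core hp53 hn hh hm hw15
  have e5 : x = ((legendreSym p (-5) : ℤ) : ZMod (p ^ 3)) := by
    apply leg_sq_one (by omega) hn hx
    push_cast; rw [rx, map_neg, map_ofNat]
  rw [e5] at kx
  have hS : Rep p (Sb 256 p) (fS p (i2 ^ 8) 0) := Rep_Sb (by omega) n256 (by
    have : (2 * i2) ^ 8 = 1 := by rw [hh, one_pow]
    push_cast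
    linear_combination this)
  refine Rep.congr hS ((Rep.int _).mul (Rep_Tm (by omega) n54000 (w := i2 ^ 4 * w15 ^ 3) ?_)) kx
  push_cast
  have e1 : (2 * i2) ^ 4 = 1 := by rw [hh, one_pow]
  have e2 : (15 * w15) ^ 3 = 1 := by rw [hw15, one_pow]
  linear_combination (15 * w15) ^ 3 * e1 + e2

end

/-- the running sums -/
def sam (m : ℤ) : ℕ → ℕ × ℤ
  | 0 => (1, 0)
  | k + 1 => (24 * (6 * k + 1) * (2 * k + 1) * (6 * k + 5) * (sam m k).1 / (k + 1) ^ 3, (sam m k).2 * m + (sam m k).1)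

theorem sam_eq (m : ℤ) (k : ℕ) : sam m k = (v1 k, ∑ j ∈ range k, (v1 j : ℤ) * m ^ (k - 1 - j)) := by
  induction k with
  | zero => simp [sam, v1]
  | succ k ih =>
    rw [sam, ih]
    simp only [Prod.mk.injEq]
    refine ⟨v1_div k, ?_⟩
    rw [sum_range_succ, sum_mul, show k + 1 - 1 - k = 0 by omega, pow_zero, mul_one]
    congr 1
    refine sum_congr rfl fun j hj => ?_
    rw [mem_range] at hj
    rw [show (k + 1 - 1 - j) = (k - 1 - j) + 1 by omega, pow_add]
    ring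

theorem small_m (p : ℕ) (hp : p.Prime) (b m e : ℤ) (hb : ¬ (p : ℤ) ∣ b) (hm : ¬ (p : ℤ) ∣ m)
    (h : (p : ℤ) ^ 3 ∣ (sub b ((p - 1) / 2 + 1)).2 * m ^ (p - 1) - e * (sam m p).2 * b ^ ((p - 1) / 2)) :
    Cong p (Sb b p) (e * Tm m p) := by
  have : Fact p.Prime := ⟨hp⟩
  have hm0 : (m : ℚ) ≠ 0 := by
    intro h
    have : m = 0 := by exact_mod_cast h
    exact hm (this ▸ dvd_zero _)
  have hb0 : (b : ℚ) ≠ 0 := by
    intro h
    have : b = 0 := by exact_mod_cast h
    exact hb (this ▸ dvd_zero _)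
  apply Rep.cong
  refine ⟨(sub b ((p - 1) / 2 + 1)).2 * m ^ (p - 1) - e * (sam m p).2 * b ^ ((p - 1) / 2), m ^ (p - 1) * b ^ ((p - 1) / 2), ?_, ?_, ?_⟩
  · intro h
    rcases (Nat.prime_iff_prime_int.mp hp).dvd_mul.mp h with h | h
    · exact hm ((Nat.prime_iff_prime_int.mp hp).dvd_of_dvd_pow h)
    · exact hb ((Nat.prime_iff_prime_int.mp hp).dvd_of_dvd_pow h)
  · rw [sub_eq, sam_eq, Sb, Tm, sub_mul]
    push_cast
    have e1 : (∑ k ∈ range ((p - 1) / 2 + 1), ((2 * k).choose k : ℚ) ^ 3 / (b : ℚ) ^ k) * (b : ℚ) ^ ((p - 1) / 2) =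
        ∑ j ∈ range ((p - 1) / 2 + 1), (uc j : ℚ) * (b : ℚ) ^ ((p - 1) / 2 - j) := by
      rw [sum_mul]
      refine sum_congr rfl fun k hk => ?_
      rw [mem_range] at hk
      have e3 : (b : ℚ) ^ ((p - 1) / 2) = (b : ℚ) ^ ((p - 1) / 2 - k) * (b : ℚ) ^ k := by
        rw [← pow_add]; congr 1; omega
      rw [e3]
      unfold uc
      push_cast
      field_simp
    have e2 : (∑ k ∈ range p, ((2 * k).choose k * (3 * k).choose k * (6 * k).choose (3 * k) : ℚ) / (m : ℚ) ^ k) * (m : ℚ) ^ (p - 1) =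
        ∑ j ∈ range p, (v1 j : ℚ) * (m : ℚ) ^ (p - 1 - j) := by
      rw [sum_mul]
      refine sum_congr rfl fun k hk => ?_
      rw [mem_range] at hk
      have e3 : (m : ℚ) ^ (p - 1) = (m : ℚ) ^ (p - 1 - k) * (m : ℚ) ^ k := by
        rw [← pow_add]; congr 1; omega
      rw [e3]
      unfold v1
      push_cast
      field_simp
    rw [← e2, ← e1]
    ring
  · rw [mul_zero]
    apply (ZMod.intCast_zmod_eq_zero_iff_dvd _ _).mpr
    exact_mod_cast h

theorem main (p : ℕ) [hp : Fact p.Prime] (h : p % 3 = 1) :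
    Cong p (Sb 256 p) (legendreSym p (-5) * Tm 54000 p) := by
  by_cases hp53 : 53 ≤ p
  · exact large hp53 h
  · have hcase : p = 7 ∨ p = 13 ∨ p = 19 ∨ p = 31 ∨ p = 37 ∨ p = 43 := by
      have h0 := hp.out
      clear hp
      have : p < 53 := by omega
      interval_cases p <;> first | omega | (exfalso; revert h0; norm_num)
    rcases hcase with rfl | rfl | rfl | rfl | rfl | rfl
    · have e1 : legendreSym 7 (-5) = 1 := by norm_num
      rw [e1]
      exact small_m 7 hp.out 256 54000 1 (by norm_num) (by norm_num) (by decide +kernel)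
    · have e1 : legendreSym 13 (-5) = -1 := by norm_num
      rw [e1]
      exact small_m 13 hp.out 256 54000 (-1) (by norm_num) (by norm_num) (by decide +kernel)
    · have e1 : legendreSym 19 (-5) = -1 := by norm_num
      rw [e1]
      exact small_m 19 hp.out 256 54000 (-1) (by norm_num) (by norm_num) (by decide +kernel)
    · have e1 : legendreSym 31 (-5) = -1 := by norm_num
      rw [e1]
      exact small_m 31 hp.out 256 54000 (-1) (by norm_num) (by norm_num) (by decide +kernel)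
    · have e1 : legendreSym 37 (-5) = -1 := by norm_num
      rw [e1]
      exact small_m 37 hp.out 256 54000 (-1) (by norm_num) (by norm_num) (by decide +kernel)
    · have e1 : legendreSym 43 (-5) = 1 := by norm_num
      rw [e1]
      exact small_m 43 hp.out 256 54000 1 (by norm_num) (by norm_num) (by decide +kernel)

end Pool.Agent.H547.P4.R2d2b11
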