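import Pool.Agent.H547.P4.Tr
import Pool.Agent.H547.P4.T7

set_option autoImplicit false

namespace Pool.Agent.H547.P4.R9f27ff

open Finset Pool.Agent.H547.P3 Pool.Agent.H547.P3.Rd1f0b8

section

variable {p : ℕ} [hp : Fact p.Prime]

theorem not_dvd_of_lt {m : ℕ} (hm : ∀ q, q.Prime → q ∣ m → q < 53) (hp53 : 53 ≤ p) : ¬ (p : ℤ) ∣ (m : ℤ) := by
  intro h
  have h1 : p ∣ m := by exact_mod_cast h
  have := hm p hp.out h1
  omega

theorem large (hp53 : 53 ≤ p) (h : p % 4 = 1) :
    Cong p (Sb 64 p) (legendreSym p 3 * T 12 p) ∧ Cong p (Sb 64 p) (legendreSym p 33 * T 66 p) := by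
  obtain ⟨i2, hh⟩ := exists_half' (p := p) (by omega)
  obtain ⟨n, hn⟩ : ∃ n, p = 2 * n + 1 := by
    have := hp.out.odd_of_ne_two (by omega)
    obtain ⟨n, hn⟩ := this
    exact ⟨n, hn⟩
  have n2 : ¬ p ∣ 2 := fun h => by have := Nat.le_of_dvd (by norm_num) h; omega
  have n3 : ¬ p ∣ 3 := fun h => by have := Nat.le_of_dvd (by norm_num) h; omega
  have n11 : ¬ p ∣ 11 := fun h => by have := Nat.le_of_dvd (by norm_num) h; omega
  have n12 : ¬ (p : ℤ) ∣ 12 := by
    intro h1
    have h2 : p ∣ 2 * 2 * 3 := by exact_mod_cast h1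
    rcases hp.out.dvd_mul.mp h2 with h3 | h3
    · rcases hp.out.dvd_mul.mp h3 with h3 | h3 <;> exact n2 h3
    · exact n3 h3
  have n66 : ¬ (p : ℤ) ∣ 66 := by
    intro h1
    have h2 : p ∣ 2 * 3 * 11 := by exact_mod_cast h1
    rcases hp.out.dvd_mul.mp h2 with h3 | h3
    · rcases hp.out.dvd_mul.mp h3 with h3 | h3
      · exact n2 h3
      · exact n3 h3
    · exact n11 h3
  have n64 : ¬ (p : ℤ) ∣ 64 := by
    intro h1
    have h2 : p ∣ 2 ^ 6 := by exact_mod_cast h1
    exact n2 (hp.out.dvd_of_dvd_pow h2)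
  obtain ⟨w12, hw12⟩ := inv_exists n12
  obtain ⟨w66, hw66⟩ := inv_exists n66
  push_cast at hw12 hw66
  obtain ⟨x, y, hx, hy, rx, ry, kx, ky⟩ := D4_core (i3 := 4 * w12) (i33 := 2 * w66) hp53 hn (Nat.even_iff.mpr (by omega)) hh
    (by linear_combination hw12) (by linear_combination hw66)
  have e3 : x = ((legendreSym p 3 : ℤ) : ZMod (p ^ 3)) := by
    apply leg_sq_one (by omega) hn hx
    push_cast; rw [rx, map_ofNat]
  have e33 : y = ((legendreSym p 33 : ℤ) : ZMod (p ^ 3)) := by
    apply leg_sq_one (by omega) hn hy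
    push_cast; rw [ry, map_ofNat]
  have c1 : i2 ^ 6 * (4 * w12) ^ 3 = w12 ^ 3 := by
    have : (2 * i2) ^ 6 = 1 := by rw [hh, one_pow]
    linear_combination w12 ^ 3 * this
  have c2 : i2 ^ 3 * (2 * w66) ^ 3 = w66 ^ 3 := by
    have : (2 * i2) ^ 3 = 1 := by rw [hh, one_pow]
    linear_combination w66 ^ 3 * this
  rw [c1, e3] at kx
  rw [c2, e33] at ky
  have hS : Rep p (Sb 64 p) (fS p (i2 ^ 6) 0) := Rep_Sb (by omega) n64 (by
    have : (2 * i2) ^ 6 = 1 := by rw [hh, one_pow]
    push_cast
    linear_combination this)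
  constructor
  · exact Rep.congr hS ((Rep.int _).mul (Rep_T' (by omega) n12 (by push_cast; exact hw12))) kx
  · exact Rep.congr hS ((Rep.int _).mul (Rep_T' (by omega) n66 (by push_cast; exact hw66))) ky

end

theorem main (p : ℕ) [hp : Fact p.Prime] (hp3 : 3 < p) (h : p % 4 = 1) :
    Cong p (Sb 64 p) (legendreSym p 3 * T 12 p) ∧
    Cong p (legendreSym p 3 * T 12 p) (legendreSym p 33 * T 66 p) := by
  have key : Cong p (Sb 64 p) (legendreSym p 3 * T 12 p) ∧ Cong p (Sb 64 p) (legendreSym p 33 * T 66 p) := by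
    by_cases hp53 : 53 ≤ p
    · exact large hp53 h
    · have hcase : p = 5 ∨ p = 13 ∨ p = 17 ∨ p = 29 ∨ p = 37 ∨ p = 41 := by
        have h0 := hp.out
        clear hp
        have : p < 53 := by omega
        interval_cases p <;> first | omega | (exfalso; revert h0; norm_num)
      rcases hcase with rfl | rfl | rfl | rfl | rfl | rfl
      · have e1 : legendreSym 5 3 = -1 := by norm_num
        have e2 : legendreSym 5 33 = -1 := by norm_num
        rw [e1, e2]
        exact ⟨small_b 5 hp.out 64 12 (-1) (by norm_num) (by norm_num) (by decide +kernel), small_b 5 hp.out 64 66 (-1) (by norm_num) (by norm_num) (by decide +kernel)⟩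
      · have e1 : legendreSym 13 3 = 1 := by norm_num
        have e2 : legendreSym 13 33 = -1 := by norm_num
        rw [e1, e2]
        exact ⟨small_b 13 hp.out 64 12 (1) (by norm_num) (by norm_num) (by decide +kernel), small_b 13 hp.out 64 66 (-1) (by norm_num) (by norm_num) (by decide +kernel)⟩
      · have e1 : legendreSym 17 3 = -1 := by norm_num
        have e2 : legendreSym 17 33 = 1 := by norm_num
        rw [e1, e2]
        exact ⟨small_b 17 hp.out 64 12 (-1) (by norm_num) (by norm_num) (by decide +kernel), small_b 17 hp.out 64 66 (1) (by norm_num) (by norm_num) (by decide +kernel)⟩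
      · have e1 : legendreSym 29 3 = -1 := by norm_num
        have e2 : legendreSym 29 33 = 1 := by norm_num
        rw [e1, e2]
        exact ⟨small_b 29 hp.out 64 12 (-1) (by norm_num) (by norm_num) (by decide +kernel), small_b 29 hp.out 64 66 (1) (by norm_num) (by norm_num) (by decide +kernel)⟩
      · have e1 : legendreSym 37 3 = 1 := by norm_num
        have e2 : legendreSym 37 33 = 1 := by norm_num
        rw [e1, e2]
        exact ⟨small_b 37 hp.out 64 12 (1) (by norm_num) (by norm_num) (by decide +kernel), small_b 37 hp.out 64 66 (1) (by norm_num) (by norm_num) (by decide +kernel)⟩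
      · have e1 : legendreSym 41 3 = -1 := by norm_num
        have e2 : legendreSym 41 33 = 1 := by norm_num
        rw [e1, e2]
        exact ⟨small_b 41 hp.out 64 12 (-1) (by norm_num) (by norm_num) (by decide +kernel), small_b 41 hp.out 64 66 (1) (by norm_num) (by norm_num) (by decide +kernel)⟩
  exact ⟨key.1, key.1.symm_trans key.2⟩

end Pool.Agent.H547.P4.R9f27ff
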