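import Pool.Agent.H547.P3.S7

set_option autoImplicit false

/-!
# The star theorem for a pair `(z0, z1)` with `z0^p = z1 e`, `e ≡ 1 mod p`
-/

namespace Pool.Agent.H547.P4

open Finset Polynomial Pool.Agent.H547.P3

variable {A : Type*} [CommRing A] {p : ℕ} [hp : Fact p.Prime]

/-- `1 - b z₁ X^p - (1 - b z₀ X)^p` is divisible by `p` -/
theorem exists_N1 (hodd : Odd p) {z0 z1 ν : A} (hz : z0 ^ p = z1 * (1 + p * ν)) (b : ℕ) {S : Type*} [CommRing S] (ι : A →+* S) (x : S) :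
    ∃ N1 : S, (1 - ι (b * z1) * x ^ p) - (1 - ι (b * z0) * x) ^ p = p * N1 := by
  obtain ⟨r, hr⟩ := exists_add_pow_prime_eq hp.out (1 : S) (-(ι (b * z0) * x))
  obtain ⟨t, ht⟩ := cast_pow_p (A := A) (p := p) b
  have hb : ((b : A) * z0) ^ p = b * z1 + p * (b * ν * z1 + t * z1 + p * t * ν * z1) := by
    rw [mul_pow, ht, hz]; ring
  have hb' := congrArg ι hb
  rw [map_pow, map_add, map_mul ι (p : A), map_natCast] at hb'
  refine ⟨x ^ p * ι (b * ν * z1 + t * z1 + p * t * ν * z1) + (ι (b * z0) * x) * r, ?_⟩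
  have e1 : (1 - ι (b * z0) * x) = 1 + -(ι (b * z0) * x) := by ring
  rw [e1, hr, hodd.neg_pow, mul_pow, one_pow, hb']
  ring

noncomputable def ehat (p d b : ℕ) (z0 z1 h : A) (κ : ℕ) : A[X] :=
  lp b z0 ^ (2 * p) + C ((d : A) * κ + h) * (Lp p b z1 - lp b z0 ^ p) * lp b z0 ^ p +
    C (h * ((d : A) * κ) ^ 2 - h ^ 3) * (Lp p b z1 - lp b z0 ^ p) ^ 2

/-- the `T`-side polynomial -/
noncomputable def Tp (p q m d b : ℕ) (e z0 z1 h : A) (H : ℕ → ℕ → A) (κ : ℕ) : A[X] :=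
  ∑ j ∈ range p, C (e ^ (m * κ) * H j κ * z0 ^ (m * j)) *
    (X ^ (m * j) * lp b z0 ^ q * ehat p d b z0 z1 h κ * lp b z0 ^ (d * (p - 1 - j)))

/-- the `S`-side polynomial -/
noncomputable def Sp (p : ℕ) (e z0 : A) (G : ℕ → ℕ → A) (κ : ℕ) : A[X] :=
  ∑ j ∈ range p, C (e ^ κ * G j κ * z0 ^ j) * X ^ j

variable {q m d b : ℕ} {z0 z1 e ν h : A} {σ : PowerSeries A} {u v : ℕ → A} {G H : ℕ → ℕ → A}

theorem fZ_Ff (hz : z0 ^ p = z1 * e) (hu : ∀ κ j, j < p → u (p * κ + j) = u κ * G j κ) (K : ℕ) : fZ z0 (Ff u 0 (p * K)) =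
    ∑ κ ∈ range K, PowerSeries.C (u κ) * (PowerSeries.C z1 * PowerSeries.X ^ p) ^ κ * (Sp p e z0 G κ : PowerSeries A) := by
  unfold Ff
  rw [map_sum, sum_blocks]
  refine sum_congr rfl fun κ _ => ?_
  unfold Sp
  rw [coe_sum', mul_sum]
  refine sum_congr rfl fun j hj => ?_
  rw [mem_range] at hj
  rw [map_mul (fZ z0) (PowerSeries.C _) _, fZ_C, map_pow (fZ z0), fZ_X, hu κ j hj, pow_zero, one_mul]
  rw [Polynomial.coe_mul, Polynomial.coe_C, Polynomial.coe_pow, Polynomial.coe_X]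
  rw [mul_pow, mul_pow, ← pow_mul, pow_add, pow_add, pow_mul (PowerSeries.C z0 : PowerSeries A) p κ]
  simp only [map_mul, map_pow]
  rw [← map_pow PowerSeries.C z0 p, hz, map_mul, mul_pow]
  ring

theorem fZ_Ph (hq : p = 2 * q + 1) (hp3 : (p : A) ^ 3 = 0) (hh : 2 * h = 1) (hz : z0 ^ p = z1 * e) (he : e = 1 + p * ν)
    (hs : σ ^ 2 * (1 - PowerSeries.C (b : A) * PowerSeries.X) = 1) (hsc : PowerSeries.constantCoeff σ = 1)
    (hv : ∀ κ j, j < p → v (p * κ + j) = v κ * H j κ) (K : ℕ) :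
    ((lp b z0 : A[X]) : PowerSeries A) ^ (d * (p - 1) + 2 * p) * fZ z0 (Ph m d σ v 0 (p * K)) =
    ∑ κ ∈ range K, PowerSeries.C (v κ) * ((PowerSeries.C z1 * PowerSeries.X ^ p) ^ (m * κ) *
      (fT p z1 σ) ^ (2 * d * κ + 1)) * (Tp p q m d b e z0 z1 h H κ : PowerSeries A) := by
  obtain ⟨N1, hN1⟩ := exists_N1 (p := p) ⟨q, hq⟩ (by rw [hz, he]) b PowerSeries.C (PowerSeries.X : PowerSeries A)
  have el : ((lp b z0 : A[X]) : PowerSeries A) = 1 - PowerSeries.C ((b : A) * z0) * PowerSeries.X := by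
    unfold P3.lp
    rw [Polynomial.coe_sub, Polynomial.coe_one, Polynomial.coe_mul, Polynomial.coe_C, Polynomial.coe_X]
  have eL : ((Lp p b z1 : A[X]) : PowerSeries A) = 1 - PowerSeries.C ((b : A) * z1) * PowerSeries.X ^ p := by
    unfold Lp
    rw [Polynomial.coe_sub, Polynomial.coe_one, Polynomial.coe_mul, Polynomial.coe_C, Polynomial.coe_pow, Polynomial.coe_X]
  set s := fZ z0 σ with hsdef
  set S := fT p z1 σ with hSdef
  set l : PowerSeries A := ((lp b z0 : A[X]) : PowerSeries A) with hl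
  set L : PowerSeries A := ((Lp p b z1 : A[X]) : PowerSeries A) with hL
  have hsl : s ^ 2 * l = 1 := by
    have := congrArg (fZ z0) hs
    rw [map_mul, map_pow, map_sub, map_one, map_mul, fZ_C, fZ_X, ← mul_assoc, ← map_mul] at this
    rw [el]; exact this
  have hSL : S ^ 2 * L = 1 := by
    have := congrArg (fT p z1) hs
    rw [map_mul, map_pow, map_sub, map_one, map_mul, fT_C, fT_X, ← mul_assoc, ← map_mul] at this
    rw [eL]; exact this
  have hN : L - l ^ p = (p : PowerSeries A) * N1 := by rw [eL, el]; exact hN1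
  have hP3 : ((p : PowerSeries A)) ^ 3 = 0 := by
    have := congrArg (PowerSeries.C (R := A)) hp3
    rwa [map_pow, map_natCast, map_zero] at this
  have hN3 : (L - l ^ p) ^ 3 = 0 := by rw [hN, mul_pow, hP3, zero_mul]
  have hNc : PowerSeries.constantCoeff (L - l ^ p) = 0 := by
    rw [eL, el]
    simp [hp.out.ne_zero]
  obtain ⟨h1, h2, h3⟩ := root_pow (p := p) hh hsl hSL (by rw [hsdef, fZ_cc, hsc]) (by rw [hSdef, fT_cc, hsc]) rfl hN3 hNc rfl
  set g := (L - l ^ p) * s ^ (2 * p) with hg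
  set ee := 1 + PowerSeries.C h * g - PowerSeries.C h ^ 3 * g ^ 2 with hee
  have hC : (2 : PowerSeries A) * PowerSeries.C h = 1 := by
    have := congrArg (PowerSeries.C (R := A)) hh
    rwa [map_mul, map_one, map_ofNat] at this
  have hehat : ∀ κ : ℕ, ee ^ (2 * (d * κ) + 1) * l ^ (2 * p) = ((ehat p d b z0 z1 h κ : A[X]) : PowerSeries A) := by
    intro κ
    rw [hee, sqrt_pow h3 hC]
    unfold ehat
    rw [Polynomial.coe_add, Polynomial.coe_add, Polynomial.coe_mul, Polynomial.coe_mul, Polynomial.coe_mul,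
      Polynomial.coe_pow, Polynomial.coe_pow, Polynomial.coe_pow, Polynomial.coe_sub, Polynomial.coe_pow,
      Polynomial.coe_C, Polynomial.coe_C, ← hl, ← hL]
    simp only [map_add, map_sub, map_mul, map_pow, map_natCast]
    push_cast
    rw [show 2 * p = p + p by ring, pow_add]
    linear_combination (((d : PowerSeries A) * κ + PowerSeries.C h) * l ^ p +
      (PowerSeries.C h * ((d : PowerSeries A) * κ) ^ 2 - PowerSeries.C h ^ 3) * (g * l ^ p + (L - l ^ p))) * h2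
  have hzp : (PowerSeries.C z0 * PowerSeries.X : PowerSeries A) ^ p =
      PowerSeries.C e * (PowerSeries.C z1 * PowerSeries.X ^ p) := by
    rw [mul_pow, ← map_pow, hz, map_mul]
    ring
  unfold Ph
  rw [map_sum, sum_blocks, mul_sum]
  refine sum_congr rfl fun κ _ => ?_
  rw [mul_sum]
  unfold Tp
  rw [coe_sum', mul_sum]
  refine sum_congr rfl fun j hj => ?_
  rw [mem_range] at hj
  have ht := term_eq (R := PowerSeries A) hq hsl h1 hzp m d κ j hj
  rw [map_mul (fZ z0) (PowerSeries.C _) _, fZ_C, hv κ j hj, pow_zero, one_mul, map_mul (fZ z0) _ _, map_pow (fZ z0),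
    map_pow (fZ z0), fZ_X, ← hsdef]
  rw [Polynomial.coe_mul, Polynomial.coe_mul, Polynomial.coe_mul,
    Polynomial.coe_mul, Polynomial.coe_C, Polynomial.coe_pow, Polynomial.coe_pow, Polynomial.coe_pow, Polynomial.coe_X,
    ← hl, ← hehat κ]
  simp only [map_mul, map_pow] at ht ⊢
  rw [mul_pow (PowerSeries.C z0) PowerSeries.X (m * j)] at ht
  linear_combination (PowerSeries.C (v κ) * PowerSeries.C (H j κ)) * ht

end Pool.Agent.H547.P4
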