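import Pool.Agent.H547.P4.T1

set_option autoImplicit false

/-!
# Elimination (pair version)
-/

namespace Pool.Agent.H547.P4

open Finset Polynomial Pool.Agent.H547.P3

variable {A : Type*} [CommRing A] {p : ℕ} [hp : Fact p.Prime] {q m d b β : ℕ} {z0 z1 e ν h : A} {σ : PowerSeries A} {u v : ℕ → A}
  {G H : ℕ → ℕ → A}

noncomputable def R2 (p q m d β : ℕ) (e z0 z1 h : A) (G H : ℕ → ℕ → A) : A[X] :=
  wp p m d β z1 * Lp p (2 * β) z1 ^ 2 * c2 (C h) (Tp p q m d (2 * β) e z0 z1 h H) -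
    wp p m d β z1 ^ 3 * lam p d (2 * β) z0 * c2 (C h) (Sp p e z0 G)

noncomputable def R1 (p q m d β : ℕ) (e z0 z1 h : A) (G H : ℕ → ℕ → A) : A[X] :=
  wp p m d β z1 ^ 2 * Lp p (2 * β) z1 * c1 (C h) (Tp p q m d (2 * β) e z0 z1 h H) -
    B1p p m d β z1 * Lp p (2 * β) z1 * c2 (C h) (Tp p q m d (2 * β) e z0 z1 h H) -
    wp p m d β z1 ^ 3 * lam p d (2 * β) z0 * c1 (C h) (Sp p e z0 G)

noncomputable def R0 (p q m d β : ℕ) (e z0 z1 h : A) (G H : ℕ → ℕ → A) : A[X] :=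
  wp p m d β z1 ^ 3 * Tp p q m d (2 * β) e z0 z1 h H 0 -
    wp p m d β z1 ^ 2 * (C (β : A) * Tz p z1) * c1 (C h) (Tp p q m d (2 * β) e z0 z1 h H) +
    (B1p p m d β z1 * (C (β : A) * Tz p z1) - wp p m d β z1 * B0p p β z1) * c2 (C h) (Tp p q m d (2 * β) e z0 z1 h H) -
    wp p m d β z1 ^ 3 * lam p d (2 * β) z0 * Sp p e z0 G 0

/-- the relation `Σ R_i F_i^T ≡ 0 mod X^{pK}` -/
theorem R_rel (hq : p = 2 * q + 1) (hp3 : (p : A) ^ 3 = 0) (hh : 2 * h = 1) (hz : z0 ^ p = z1 * e) (he : e = 1 + p * ν)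
    (hs : σ ^ 2 * (1 - PowerSeries.C (2 * (β : A)) * PowerSeries.X) = 1) (hsc : PowerSeries.constantCoeff σ = 1)
    (hu : ∀ κ j, j < p → u (p * κ + j) = u κ * G j κ)
    (hv : ∀ κ j, j < p → v (p * κ + j) = v κ * H j κ)
    (hG : QP (C (p : A)) (Sp p e z0 G)) (hH : QP (C (p : A)) (Tp p q m d (2 * β) e z0 z1 h H))
    (hb : ∀ K, PowerSeries.X ^ K ∣ Ff u 0 K - Ph m d σ v 0 K) (K : ℕ) :
    PowerSeries.X ^ (p * K) ∣ (R2 p q m d β e z0 z1 h G H : PowerSeries A) * fT p z1 (Ff u 2 K) +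
      (R1 p q m d β e z0 z1 h G H : PowerSeries A) * fT p z1 (Ff u 1 K) +
      (R0 p q m d β e z0 z1 h G H : PowerSeries A) * fT p z1 (Ff u 0 K) := by
  have h1 := fZ_dvd z0 (hb (p * K))
  rw [map_sub] at h1
  have h2 : PowerSeries.X ^ (p * K) ∣ ((P3.lp (2 * β) z0 : A[X]) : PowerSeries A) ^ (d * (p - 1) + 2 * p) * fZ z0 (Ff u 0 (p * K)) -
      ((P3.lp (2 * β) z0 : A[X]) : PowerSeries A) ^ (d * (p - 1) + 2 * p) * fZ z0 (Ph m d σ v 0 (p * K)) := by
    rw [← mul_sub]; exact dvd_mul_of_dvd_right h1 _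
  have hs' : σ ^ 2 * (1 - PowerSeries.C (((2 * β : ℕ)) : A) * PowerSeries.X) = 1 := by push_cast; exact hs
  rw [fZ_Ph hq hp3 hh hz he hs' hsc hv K, fZ_Ff hz hu K, Ph_comp hh K _ hH, Ff_comp hh K _ hG] at h2
  obtain ⟨h3, h4⟩ := base_der hh hs m d v u K (hb K)
  have e0 := fT_dvd (p := p) z1 (hb K)
  have e1 := fT_dvd (p := p) z1 h3
  have e2 := fT_dvd (p := p) z1 h4
  simp only [map_sub, map_add, map_mul (fT p z1), map_pow (fT p z1), map_one, fT_C, fT_X, map_ofNat] at e0 e1 e2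
  have eT : ((Tz p z1 : A[X]) : PowerSeries A) = PowerSeries.C z1 * PowerSeries.X ^ p := by
    unfold Tz
    rw [Polynomial.coe_mul, Polynomial.coe_C, Polynomial.coe_pow, Polynomial.coe_X]
  have eW : ((wp p m d β z1 : A[X]) : PowerSeries A) = PowerSeries.C (m : A) +
      PowerSeries.C (2 * ((d : A) - m) * β) * (PowerSeries.C z1 * PowerSeries.X ^ p) := by
    unfold wp
    rw [Polynomial.coe_add, Polynomial.coe_mul, Polynomial.coe_C, Polynomial.coe_C, eT]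
  have eL : ((Lp p (2 * β) z1 : A[X]) : PowerSeries A) = 1 - PowerSeries.C (2 * (β : A)) * (PowerSeries.C z1 * PowerSeries.X ^ p) := by
    unfold Lp
    rw [Polynomial.coe_sub, Polynomial.coe_one, Polynomial.coe_mul, Polynomial.coe_C, Polynomial.coe_pow, Polynomial.coe_X]
    push_cast
    rw [map_mul]
    ring
  have eB1 : ((B1p p m d β z1 : A[X]) : PowerSeries A) = PowerSeries.C (2 * (d : A) * β) * (PowerSeries.C z1 * PowerSeries.X ^ p) +
      2 * (PowerSeries.C (β : A) * (PowerSeries.C z1 * PowerSeries.X ^ p)) * ((wp p m d β z1 : A[X]) : PowerSeries A) := by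
    unfold B1p
    have h2 : ((2 : A[X]) : PowerSeries A) = 2 := by
      have : (2 : A[X]) = C 2 := by rw [map_ofNat]
      rw [this, Polynomial.coe_C, map_ofNat]
    rw [Polynomial.coe_add, Polynomial.coe_mul, Polynomial.coe_C, Polynomial.coe_mul, Polynomial.coe_mul, Polynomial.coe_mul,
      Polynomial.coe_C, eT, h2]
  have eB0 : ((B0p p β z1 : A[X]) : PowerSeries A) = PowerSeries.C (β : A) * (PowerSeries.C z1 * PowerSeries.X ^ p) +
      PowerSeries.C ((β : A) ^ 2) * (PowerSeries.C z1 * PowerSeries.X ^ p) ^ 2 := by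
    unfold B0p
    rw [Polynomial.coe_add, Polynomial.coe_mul, Polynomial.coe_C, Polynomial.coe_mul, Polynomial.coe_C, Polynomial.coe_pow, eT]
  have elam : ((lam p d (2 * β) z0 : A[X]) : PowerSeries A) = ((P3.lp (2 * β) z0 : A[X]) : PowerSeries A) ^ (d * (p - 1) + 2 * p) := by
    unfold lam
    rw [Polynomial.coe_pow]
  rw [← elam] at h2
  unfold R2 R1 R0
  simp only [Polynomial.coe_sub, Polynomial.coe_add, Polynomial.coe_mul, Polynomial.coe_pow, Polynomial.coe_C]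
  rw [← eL, ← eW] at e1
  rw [← eL] at e2
  rw [eT]
  rw [← eW] at e2
  have e2' : PowerSeries.X ^ (p * K) ∣ ((Lp p (2 * β) z1 : A[X]) : PowerSeries A) ^ 2 * fT p z1 (Ff u 2 K) -
      (((wp p m d β z1 : A[X]) : PowerSeries A) ^ 2 * fT p z1 (Ph m d σ v 2 K) +
       ((B1p p m d β z1 : A[X]) : PowerSeries A) * fT p z1 (Ph m d σ v 1 K) +
       ((B0p p β z1 : A[X]) : PowerSeries A) * fT p z1 (Ph m d σ v 0 K)) := by
    rw [eB1, eB0]
    exact e2
  clear e2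
  set TT : PowerSeries A := PowerSeries.C z1 * PowerSeries.X ^ p
  set W : PowerSeries A := ((wp p m d β z1 : A[X]) : PowerSeries A)
  set L : PowerSeries A := ((Lp p (2 * β) z1 : A[X]) : PowerSeries A)
  set Λ : PowerSeries A := ((lam p d (2 * β) z0 : A[X]) : PowerSeries A)
  set B1 : PowerSeries A := ((B1p p m d β z1 : A[X]) : PowerSeries A)
  set B0 : PowerSeries A := ((B0p p β z1 : A[X]) : PowerSeries A)
  set t0 : PowerSeries A := ((Tp p q m d (2 * β) e z0 z1 h H 0 : A[X]) : PowerSeries A)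
  set t1 : PowerSeries A := ((c1 (C h) (Tp p q m d (2 * β) e z0 z1 h H) : A[X]) : PowerSeries A)
  set t2 : PowerSeries A := ((c2 (C h) (Tp p q m d (2 * β) e z0 z1 h H) : A[X]) : PowerSeries A)
  set s0 : PowerSeries A := ((Sp p e z0 G 0 : A[X]) : PowerSeries A)
  set s1 : PowerSeries A := ((c1 (C h) (Sp p e z0 G) : A[X]) : PowerSeries A)
  set s2 : PowerSeries A := ((c2 (C h) (Sp p e z0 G) : A[X]) : PowerSeries A)
  set F0 := fT p z1 (Ff u 0 K)
  set F1 := fT p z1 (Ff u 1 K)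
  set F2 := fT p z1 (Ff u 2 K)
  set P0 := fT p z1 (Ph m d σ v 0 K)
  set P1 := fT p z1 (Ph m d σ v 1 K)
  set P2 := fT p z1 (Ph m d σ v 2 K)
  obtain ⟨q0, hq0⟩ := e0
  obtain ⟨q1, hq1⟩ := e1
  obtain ⟨q2, hq2⟩ := e2'
  obtain ⟨q3, hq3⟩ := h2
  refine ⟨W * t2 * q2 + (W ^ 2 * t1 - B1 * t2) * q1 + (W ^ 3 * t0 - W ^ 2 * (PowerSeries.C (β : A) * TT) * t1 +
    (B1 * (PowerSeries.C (β : A) * TT) - W * B0) * t2) * q0 - W ^ 3 * q3, ?_⟩
  linear_combination W * t2 * hq2 + (W ^ 2 * t1 - B1 * t2) * hq1 + (W ^ 3 * t0 - W ^ 2 * (PowerSeries.C (β : A) * TT) * t1 +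
    (B1 * (PowerSeries.C (β : A) * TT) - W * B0) * t2) * hq0 - W ^ 3 * hq3

/-! degree bounds -/

theorem ehat_deg (κ : ℕ) : (ehat p d b z0 z1 h κ : A[X]).natDegree ≤ 2 * p := by
  unfold ehat
  have hlp : ((P3.lp b z0 : A[X]) ^ p).natDegree ≤ p := by simpa using nd_pow (lp_deg (b := b) (z0 := z0)) p
  have hd : (Lp p b z1 - P3.lp b z0 ^ p : A[X]).natDegree ≤ p := nd_sub Lp_deg hlp
  refine nd_add (nd_add ?_ ?_) ?_
  · simpa using nd_pow (lp_deg (b := b) (z0 := z0)) (2 * p)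
  · exact (nd_mul (nd_mul (nd_C _ 0) hd) hlp).trans (by omega)
  · exact (nd_mul (nd_C _ 0) (nd_pow hd 2)).trans (by omega)

theorem Tp_deg (hmd : m ≤ d) (κ : ℕ) : (Tp p q m d b e z0 z1 h H κ : A[X]).natDegree ≤ d * (p - 1) + q + 2 * p := by
  unfold Tp
  refine natDegree_sum_le_of_forall_le _ _ fun j hj => ?_
  rw [mem_range] at hj
  have h1 := nd_mul (nd_C (e ^ (m * κ) * H j κ * z0 ^ (m * j)) 0) (nd_mul (nd_mul (nd_mul (nd_X (A := A) (m * j))
    (nd_pow (lp_deg (b := b) (z0 := z0)) q)) (ehat_deg (p := p) (d := d) (b := b) (z0 := z0) (z1 := z1) (h := h) κ))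
    (nd_pow (lp_deg (b := b) (z0 := z0)) (d * (p - 1 - j))))
  refine h1.trans ?_
  have h2 : m * j ≤ d * j := Nat.mul_le_mul_right j hmd
  have h3 : d * j + d * (p - 1 - j) = d * (p - 1) := by rw [← mul_add]; congr 1; omega
  omega

theorem Sp_deg (κ : ℕ) : (Sp p e z0 G κ : A[X]).natDegree ≤ p - 1 := by
  unfold Sp
  refine natDegree_sum_le_of_forall_le _ _ fun j hj => ?_
  rw [mem_range] at hj
  exact (nd_mul (nd_C _ 0) (nd_X j)).trans (by omega)

theorem R2_deg (hq : p = 2 * q + 1) (hmd : m ≤ d) : (R2 p q m d β e z0 z1 h G H).natDegree < (d + 6) * p := by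
  have e' : (d + 6) * p = d * (p - 1) + d + 6 * p := by
    have : d * p = d * (p - 1) + d := by rw [← Nat.mul_succ]; congr 1; omega
    rw [add_mul, this]
  have h1 : (R2 p q m d β e z0 z1 h G H).natDegree ≤ d * (p - 1) + 6 * p - 1 := by
    unfold R2
    refine nd_sub ?_ ?_
    · exact (nd_mul (nd_mul wp_deg (nd_pow Lp_deg 2)) (c2_deg (Tp_deg hmd))).trans (by omega)
    · exact (nd_mul (nd_mul (nd_pow wp_deg 3) lam_deg) (c2_deg Sp_deg)).trans (by omega)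
  omega

theorem R1_deg (hq : p = 2 * q + 1) (hmd : m ≤ d) : (R1 p q m d β e z0 z1 h G H).natDegree < (d + 6) * p := by
  have e' : (d + 6) * p = d * (p - 1) + d + 6 * p := by
    have : d * p = d * (p - 1) + d := by rw [← Nat.mul_succ]; congr 1; omega
    rw [add_mul, this]
  have h1 : (R1 p q m d β e z0 z1 h G H).natDegree ≤ d * (p - 1) + 6 * p - 1 := by
    unfold R1
    refine nd_sub (nd_sub ?_ ?_) ?_
    · exact (nd_mul (nd_mul (nd_pow wp_deg 2) Lp_deg) (c1_deg (Tp_deg hmd))).trans (by omega)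
    · exact (nd_mul (nd_mul B1p_deg Lp_deg) (c2_deg (Tp_deg hmd))).trans (by omega)
    · exact (nd_mul (nd_mul (nd_pow wp_deg 3) lam_deg) (c1_deg Sp_deg)).trans (by omega)
  omega

theorem R0_deg (hq : p = 2 * q + 1) (hmd : m ≤ d) : (R0 p q m d β e z0 z1 h G H).natDegree < (d + 6) * p := by
  have e' : (d + 6) * p = d * (p - 1) + d + 6 * p := by
    have : d * p = d * (p - 1) + d := by rw [← Nat.mul_succ]; congr 1; omega
    rw [add_mul, this]
  have hb : (C (β : A) * Tz p z1 : A[X]).natDegree ≤ p := by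
    have := nd_mul (nd_C (β : A) 0) (Tz_deg (p := p) (z0 := z1))
    simpa using this
  have h1 : (R0 p q m d β e z0 z1 h G H).natDegree ≤ d * (p - 1) + 6 * p - 1 := by
    unfold R0
    refine nd_sub (nd_add (nd_sub ?_ ?_) ?_) ?_
    · exact (nd_mul (nd_pow wp_deg 3) (Tp_deg hmd 0)).trans (by omega)
    · exact (nd_mul (nd_mul (nd_pow wp_deg 2) hb) (c1_deg (Tp_deg hmd))).trans (by omega)
    · refine (nd_mul (nd_sub (a := 3 * p) ?_ ?_) (c2_deg (Tp_deg hmd))).trans (by omega)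
      · exact (nd_mul B1p_deg hb).trans (by omega)
      · exact (nd_mul wp_deg B0p_deg).trans (by omega)
    · exact (nd_mul (nd_mul (nd_pow wp_deg 3) lam_deg) (Sp_deg 0)).trans (by omega)
  omega

end Pool.Agent.H547.P4
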