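import Pool.Agent.H547.P4.T2

set_option autoImplicit false

/-!
# The star theorem, pair version
-/

namespace Pool.Agent.H547.P4

open Finset Polynomial Pool.Agent.H547.P3

variable {A : Type*} [CommRing A] {p : ℕ} [hp : Fact p.Prime] {q m d β : ℕ} {z0 z1 e ν h : A} {σ : PowerSeries A}
  {G H : ℕ → ℕ → A} {v : ℕ → A}

/-- the family `κ ↦ e^κ Σ_j G_j(κ) z^j` -/
noncomputable def fam (p : ℕ) (G : ℕ → ℕ → A) (e z : A) (κ : ℕ) : A := e ^ κ * ∑ j ∈ range p, G j κ * z ^ j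

theorem QP_epow (hp3 : (p : A) ^ 3 = 0) (hh : 2 * h = 1) (he : e = 1 + p * ν) (n : ℕ) :
    QP (p : A) (fun κ => e ^ (n * κ)) := by
  rw [he]
  exact QP.exp hp3 hh ν n

theorem QP_Sp (hp3 : (p : A) ^ 3 = 0) (hh : 2 * h = 1) (he : e = 1 + p * ν)
    (hG : ∀ j < p, QP (p : A) (fun κ => G j κ)) : QP (C (p : A)) (Sp p e z0 G) := by
  unfold Sp
  refine QP.sum _ fun j hj => ?_
  refine QP.mul (Cp3 hp3) ?_ (QP.const _ _)
  refine QP.map (C : A →+* A[X]) (f := fun κ => e ^ κ * G j κ * z0 ^ j) ?_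
  refine QP.mul hp3 (QP.mul hp3 ?_ (hG j (mem_range.mp hj))) (QP.const _ _)
  have := QP_epow hp3 hh he 1
  simpa only [one_mul] using this

theorem QP_Tp (hodd : Odd p) (hp3 : (p : A) ^ 3 = 0) (hh : 2 * h = 1) (hz : z0 ^ p = z1 * e) (he : e = 1 + p * ν)
    (hH : ∀ j < p, QP (p : A) (fun κ => H j κ)) (b : ℕ) : QP (C (p : A)) (Tp p q m d b e z0 z1 h H) := by
  unfold Tp
  refine QP.sum _ fun j hj => ?_
  refine QP.mul (Cp3 hp3) ?_ ?_
  · refine QP.map (C : A →+* A[X]) (f := fun κ => e ^ (m * κ) * H j κ * z0 ^ (m * j)) ?_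
    exact QP.mul hp3 (QP.mul hp3 (QP_epow hp3 hh he m) (hH j (mem_range.mp hj))) (QP.const _ _)
  · refine QP.mul (Cp3 hp3) (QP.mul (Cp3 hp3) (QP.const _ _) ?_) (QP.const _ _)
    obtain ⟨N1, hN1⟩ := exists_N1 (p := p) hodd (by rw [hz, he]) b (C : A →+* A[X]) X
    have hN : Lp p b z1 - P3.lp b z0 ^ p = C (p : A) * N1 := by
      unfold Lp P3.lp
      rw [hN1, map_natCast]
    refine ⟨P3.lp b z0 ^ (2 * p) + C h * (C (p : A) * N1) * P3.lp b z0 ^ p - C (h ^ 3) * (C (p : A) * N1) ^ 2,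
      C (d : A) * N1 * P3.lp b z0 ^ p, C (h * (d : A) ^ 2) * N1 ^ 2, fun κ => ?_⟩
    unfold ehat
    rw [hN]
    simp only [map_add, map_sub, map_mul, map_pow, map_natCast]
    ring

/-- **star theorem** -/
theorem star (hq : p = 2 * q + 1) (hp3 : (p : A) ^ 3 = 0) (hh : 2 * h = 1) (hz : z0 ^ p = z1 * e) (he : e = 1 + p * ν)
    (hunit : ∀ k : ℕ, 0 < k → k < p → IsUnit (k : A)) (hzu : IsUnit z1) (hmd : m ≤ d) (hm : IsUnit (m : A))
    (hd : 6 * (d + 5) + 5 ≤ p)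
    (hs : σ ^ 2 * (1 - PowerSeries.C (2 * (β : A)) * PowerSeries.X) = 1) (hsc : PowerSeries.constantCoeff σ = 1)
    (hu : ∀ κ j, j < p → (uc (p * κ + j) : A) = (uc κ : A) * G j κ)
    (hv : ∀ κ j, j < p → v (p * κ + j) = v κ * H j κ)
    (hG : ∀ j < p, QP (p : A) (fun κ => G j κ)) (hH : ∀ j < p, QP (p : A) (fun κ => H j κ))
    (hb : ∀ K, PowerSeries.X ^ K ∣ Ff (fun k => (uc k : A)) 0 K - Ph m d σ v 0 K)
    {l0 l1 li : A} (hl0 : l0 = 1 - 2 * β * z0) (hl1 : l1 = 1 - 2 * β * z1) (hli : l0 * li = 1) :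
    ∃ x : A, x ^ 2 * l0 = l1 ∧ (∃ y : A, x = l0 ^ q * (1 + p * y)) ∧ (∃ y : A, l1 * li ^ p = 1 + p * y) ∧
      l1 ^ 2 * (x * fam p H (e ^ m * (l1 * li ^ p) ^ d) (z0 ^ m * li ^ d) 0) =
        l1 ^ 2 * fam p G e z0 0 + β * z1 * l1 * c1 h (fam p G e z0) + (β * z1 + β ^ 2 * z1 ^ 2) * c2 h (fam p G e z0) ∧
      l1 ^ 2 * (x * c1 h (fam p H (e ^ m * (l1 * li ^ p) ^ d) (z0 ^ m * li ^ d))) =
        (m + 2 * ((d : A) - m) * β * z1) * l1 * c1 h (fam p G e z0) +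
        (2 * d * β * z1 + 2 * (β * z1) * (m + 2 * ((d : A) - m) * β * z1)) * c2 h (fam p G e z0) ∧
      l1 ^ 2 * (x * c2 h (fam p H (e ^ m * (l1 * li ^ p) ^ d) (z0 ^ m * li ^ d))) =
        (m + 2 * ((d : A) - m) * β * z1) ^ 2 * c2 h (fam p G e z0) := by
  have hodd : Odd p := ⟨q, hq⟩
  have hQS := QP_Sp (z0 := z0) hp3 hh he hG
  have hQT := QP_Tp (q := q) (m := m) (d := d) hodd hp3 hh hz he hH (2 * β)
  have hrel := R_rel (G := G) hq hp3 hh hz he hs hsc (u := fun k => (uc k : A)) hu hv hQS hQT hb (3 * (d + 5) + 3)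
  obtain ⟨h0, h1, h2⟩ := R_zero hunit hzu (d + 5) hd (R0_deg hq hmd) (R1_deg hq hmd) (R2_deg hq hmd) hrel
  have hwu : IsUnit ((wp p m d β z1 : A[X]).coeff 0) := by
    unfold wp Tz
    rw [coeff_add, coeff_C_zero, coeff_C_mul, coeff_C_mul, coeff_X_pow, if_neg (by have := hp.out.pos; omega), mul_zero,
      mul_zero, add_zero]
    exact hm
  unfold R2 at h2
  unfold R1 at h1
  unfold R0 at h0
  set W := wp p m d β z1 with hW
  set L := Lp p (2 * β) z1 with hL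
  set Λ := lam p d (2 * β) z0 with hΛ
  set B1 := B1p p m d β z1 with hB1
  set B0 := B0p p β z1 with hB0
  set T0 := Tp p q m d (2 * β) e z0 z1 h H 0 with hT0
  set T1 := c1 (C h) (Tp p q m d (2 * β) e z0 z1 h H) with hT1
  set T2 := c2 (C h) (Tp p q m d (2 * β) e z0 z1 h H) with hT2
  set S0 := Sp p e z0 G 0 with hS0
  set S1 := c1 (C h) (Sp p e z0 G) with hS1
  set S2 := c2 (C h) (Sp p e z0 G) with hS2
  have E2 : L ^ 2 * T2 = W ^ 2 * Λ * S2 := by
    have := nzd hwu (Y := L ^ 2 * T2 - W ^ 2 * Λ * S2) (by linear_combination h2)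
    linear_combination this
  have hcp : ∀ n, IsUnit ((W ^ n).coeff 0) := fun n => by
    rw [coeff_zero_eq_eval_zero, eval_pow, ← coeff_zero_eq_eval_zero]
    exact hwu.pow n
  have E1 : L ^ 2 * T1 = Λ * (B1 * S2 + W * L * S1) := by
    have := nzd (hcp 2) (Y := L ^ 2 * T1 - Λ * (B1 * S2 + W * L * S1)) (by linear_combination L * h1 + B1 * E2)
    linear_combination this
  have E0 : L ^ 2 * T0 = Λ * (C (β : A) * Tz p z1 * L * S1 + B0 * S2 + L ^ 2 * S0) := by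
    have := nzd (hcp 3) (Y := L ^ 2 * T0 - Λ * (C (β : A) * Tz p z1 * L * S1 + B0 * S2 + L ^ 2 * S0)) (by
      linear_combination L ^ 2 * h0 + W ^ 2 * (C (β : A) * Tz p z1) * E1 - (B1 * (C (β : A) * Tz p z1) - W * B0) * E2)
    linear_combination this
  -- evaluation at 1
  have e0 := congrArg (eval 1) E0
  have e1 := congrArg (eval 1) E1
  have e2 := congrArg (eval 1) E2
  have vL : eval 1 L = l1 := by
    rw [hL, hl1]; unfold Lp
    simp only [eval_sub, eval_one, eval_mul, eval_C, eval_pow, eval_X, one_pow, mul_one]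
    push_cast; ring
  have vT : eval 1 (Tz p z1) = z1 := by
    unfold Tz
    simp
  have vW : eval 1 W = m + 2 * ((d : A) - m) * β * z1 := by
    rw [hW]; unfold wp
    rw [eval_add, eval_mul, eval_C, eval_C, vT]
  have vB1 : eval 1 B1 = 2 * d * β * z1 + 2 * (β * z1) * (m + 2 * ((d : A) - m) * β * z1) := by
    rw [hB1]; unfold B1p
    rw [← hW]
    simp only [eval_add, eval_mul, eval_C, vT, vW, eval_ofNat]
  have vB0 : eval 1 B0 = β * z1 + β ^ 2 * z1 ^ 2 := by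
    rw [hB0]; unfold B0p
    simp only [eval_add, eval_mul, eval_C, eval_pow, vT]
  have vl : eval 1 (P3.lp (2 * β) z0) = l0 := by
    rw [hl0]; unfold P3.lp
    simp only [eval_sub, eval_one, eval_mul, eval_C, eval_X, mul_one]
    push_cast; ring
  have vΛ : eval 1 Λ = l0 ^ (d * (p - 1) + 2 * p) := by
    rw [hΛ]; unfold lam
    rw [eval_pow, vl]
  obtain ⟨N1, hN1⟩ := exists_N1 (p := p) hodd (by rw [hz, he]) (2 * β) (RingHom.id A) (1 : A)
  have hN1' : l1 - l0 ^ p = p * N1 := by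
    rw [← hN1, hl0, hl1]
    simp only [RingHom.id_apply, one_pow, mul_one]
    push_cast
    ring
  have hlp : l0 ^ p * li ^ p = 1 := by rw [← mul_pow, hli, one_pow]
  set g1 := l1 * li ^ p - 1 with hg1
  have hg1p : g1 = p * (N1 * li ^ p) := by
    rw [hg1]; linear_combination li ^ p * hN1' + hlp
  have hg3 : g1 ^ 3 = 0 := by rw [hg1p, mul_pow, hp3, zero_mul]
  have hlg : l0 ^ p * g1 = l1 - l0 ^ p := by
    rw [hg1]; linear_combination l1 * hlp
  set ε := 1 + h * g1 - h ^ 3 * g1 ^ 2 with hε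
  have hε2 : ε ^ 2 = 1 + g1 := sqrt_sq hg3 hh
  set x := l0 ^ q * ε with hx
  have hx2 : x ^ 2 * l0 = l1 := by
    rw [hx, mul_pow, hε2, hg1, ← pow_mul]
    have : l0 ^ (q * 2) * l0 = l0 ^ p := by rw [← pow_succ]; congr 1; omega
    linear_combination (1 + (l1 * li ^ p - 1)) * this + l1 * hlp
  have vS : ∀ κ, eval 1 (Sp p e z0 G κ) = fam p G e z0 κ := by
    intro κ
    unfold Sp fam
    rw [eval_finset_sum, mul_sum]
    refine sum_congr rfl fun j _ => ?_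
    simp only [eval_mul, eval_C, eval_pow, eval_X, one_pow, mul_one]
    ring
  have vE : ∀ κ : ℕ, eval 1 (ehat p d (2 * β) z0 z1 h κ) = l0 ^ (2 * p) * (ε * (l1 * li ^ p) ^ (d * κ)) := by
    intro κ
    have hsp := sqrt_pow hg3 hh (d * κ)
    rw [← hε, pow_succ, pow_mul, hε2] at hsp
    have h1g : (1 : A) + g1 = l1 * li ^ p := by rw [hg1]; ring
    rw [h1g] at hsp
    unfold ehat
    simp only [eval_add, eval_mul, eval_C, eval_pow, eval_sub, vl]
    rw [← hL, vL, mul_comm ε, hsp, ← hlg]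
    push_cast
    ring
  have vTp : ∀ κ, eval 1 (Tp p q m d (2 * β) e z0 z1 h H κ) = l0 ^ (d * (p - 1) + 2 * p) *
      (x * fam p H (e ^ m * (l1 * li ^ p) ^ d) (z0 ^ m * li ^ d) κ) := by
    intro κ
    unfold Tp fam
    rw [eval_finset_sum, mul_sum, mul_sum, mul_sum]
    refine sum_congr rfl fun j hj => ?_
    rw [mem_range] at hj
    simp only [eval_mul, eval_C, eval_pow, eval_X, one_pow, vl, vE κ, one_mul]
    have h3 : l0 ^ (d * (p - 1 - j)) = l0 ^ (d * (p - 1)) * li ^ (d * j) := by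
      have : d * (p - 1) = d * (p - 1 - j) + d * j := by rw [← mul_add]; congr 1; omega
      rw [this, pow_add, mul_assoc, ← mul_pow, hli, one_pow, mul_one]
    rw [h3, hx, pow_add]
    rw [mul_pow (z0 ^ m) (li ^ d) j, mul_pow (e ^ m) ((l1 * li ^ p) ^ d) κ]
    have e1 : (e ^ m) ^ κ = e ^ (m * κ) := by rw [← pow_mul]
    have e2 : ((l1 * li ^ p) ^ d) ^ κ = (l1 * li ^ p) ^ (d * κ) := by rw [← pow_mul]
    have e3 : (z0 ^ m) ^ j = z0 ^ (m * j) := by rw [← pow_mul]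
    have e4 : (li ^ d) ^ j = li ^ (d * j) := by rw [← pow_mul]
    rw [e1, e2, e3, e4]
    ring
  have hΛu : IsUnit (l0 ^ (d * (p - 1) + 2 * p)) := (IsUnit.of_mul_eq_one li hli).pow _
  have cS1 : eval 1 S1 = c1 h (fam p G e z0) := by
    have := c1_map (evalRingHom (1 : A)) (C h) (Sp p e z0 G)
    simp only [coe_evalRingHom, eval_C, vS] at this
    rw [hS1, this]
  have cS2 : eval 1 S2 = c2 h (fam p G e z0) := by
    have := c2_map (evalRingHom (1 : A)) (C h) (Sp p e z0 G)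
    simp only [coe_evalRingHom, eval_C, vS] at this
    rw [hS2, this]
  have cS0 : eval 1 S0 = fam p G e z0 0 := by
    rw [hS0, vS]
  have cT0 : eval 1 T0 = l0 ^ (d * (p - 1) + 2 * p) * (x * fam p H (e ^ m * (l1 * li ^ p) ^ d) (z0 ^ m * li ^ d) 0) := by
    rw [hT0, vTp]
  have cT1 : eval 1 T1 = l0 ^ (d * (p - 1) + 2 * p) * (x * c1 h (fam p H (e ^ m * (l1 * li ^ p) ^ d) (z0 ^ m * li ^ d))) := by
    have := c1_map (evalRingHom (1 : A)) (C h) (Tp p q m d (2 * β) e z0 z1 h H)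
    simp only [coe_evalRingHom, eval_C, vTp] at this
    rw [hT1, this]
    unfold c1 c2
    ring
  have cT2 : eval 1 T2 = l0 ^ (d * (p - 1) + 2 * p) * (x * c2 h (fam p H (e ^ m * (l1 * li ^ p) ^ d) (z0 ^ m * li ^ d))) := by
    have := c2_map (evalRingHom (1 : A)) (C h) (Tp p q m d (2 * β) e z0 z1 h H)
    simp only [coe_evalRingHom, eval_C, vTp] at this
    rw [hT2, this]
    unfold c2
    ring
  simp only [eval_mul, eval_add, eval_pow, eval_C, vL, vT, vW, vB1, vB0, vΛ, cS0, cS1, cS2, cT0, cT1, cT2] at e0 e1 e2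
  refine ⟨x, hx2, ⟨h * (N1 * li ^ p) - h ^ 3 * (p * (N1 * li ^ p) ^ 2), ?_⟩, ⟨N1 * li ^ p, ?_⟩, ?_, ?_, ?_⟩
  · rw [hx, hε, hg1p]; ring
  · rw [← hg1p, hg1]; ring
  · apply hΛu.mul_left_cancel
    linear_combination e0
  · apply hΛu.mul_left_cancel
    linear_combination e1
  · apply hΛu.mul_left_cancel
    linear_combination e2

end Pool.Agent.H547.P4
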