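import Pool.Agent.H547.P4.T3
import Pool.Agent.H547.P3.Star

set_option autoImplicit false

/-!
# The star theorem over an algebra over `ZMod (p^3)`
-/

namespace Pool.Agent.H547.P4

open Finset Pool.Agent.H547.P3

variable {p : ℕ} [hp : Fact p.Prime] {n : ℕ} {A : Type*} [CommRing A] (φ : ZMod (p ^ 3) →+* A)

theorem phi_cast (k : ℕ) : (k : A) = φ (k : ZMod (p ^ 3)) := by rw [map_natCast]

include φ in
theorem A_p3 : (p : A) ^ 3 = 0 := by
  have := congrArg φ (p3_zero (p := p))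
  rwa [map_pow, map_natCast, map_zero] at this

include φ in
theorem A_unit (k : ℕ) (h0 : 0 < k) (hk : k < p) : IsUnit (k : A) := by
  rw [phi_cast φ k]
  exact (unit_cast (p := p) h0 hk).map φ

/-- the `S`-family over `A` -/
noncomputable def gS (φ : ZMod (p ^ 3) →+* A) (e z : A) : ℕ → A := fam p (fun j κ => φ (Gu p j κ)) e z
noncomputable def gT1 (φ : ZMod (p ^ 3) →+* A) (e w : A) : ℕ → A := fam p (fun j κ => φ (H1 p j κ)) e w
noncomputable def gT2 (φ : ZMod (p ^ 3) →+* A) (e w : A) : ℕ → A := fam p (fun j κ => φ (H2 p j κ)) e w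

theorem star1A (hp53 : 53 ≤ p) (hn : p = 2 * n + 1) {h z0 z1 e ν l0 l1 li : A} (hh : 2 * h = 1)
    (hz : z0 ^ p = z1 * e) (he : e = 1 + p * ν) (hzu : IsUnit z1)
    (hl0 : l0 = 1 - 16 * z0) (hl1 : l1 = 1 - 16 * z1) (hli : l0 * li = 1) :
    ∃ x : A, x ^ 2 * l0 = l1 ∧ (∃ y, x = l0 ^ n * (1 + (p : A) * y)) ∧ (∃ y : A, l1 * li ^ p = 1 + p * y) ∧
      l1 ^ 2 * (x * gT1 φ (e ^ 2 * (l1 * li ^ p) ^ 3) (z0 ^ 2 * li ^ 3) 0) =
        l1 ^ 2 * gS φ e z0 0 + 8 * z1 * l1 * c1 h (gS φ e z0) + (8 * z1 + 64 * z1 ^ 2) * c2 h (gS φ e z0) ∧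
      l1 ^ 2 * (x * c1 h (gT1 φ (e ^ 2 * (l1 * li ^ p) ^ 3) (z0 ^ 2 * li ^ 3))) = (2 + 16 * z1) * l1 * c1 h (gS φ e z0) +
        (48 * z1 + 16 * z1 * (2 + 16 * z1)) * c2 h (gS φ e z0) ∧
      l1 ^ 2 * (x * c2 h (gT1 φ (e ^ 2 * (l1 * li ^ p) ^ 3) (z0 ^ 2 * li ^ 3))) = (2 + 16 * z1) ^ 2 * c2 h (gS φ e z0) := by
  obtain ⟨x, h1, h2, hy, h3, h4, h5⟩ := star (A := A) (q := n) (m := 2) (d := 3) (β := 8) (z0 := z0) (z1 := z1) (e := e) (ν := ν) (h := h)
    (σ := PowerSeries.map (Int.castRingHom A) (sgZ 4)) (G := fun j κ => φ (Gu p j κ)) (H := fun j κ => φ (H1 p j κ))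
    (v := fun k => (v1 k : A)) (l0 := l0) (l1 := l1) (li := li) hn (A_p3 φ) hh hz he (A_unit φ) hzu (by norm_num)
    (A_unit φ 2 (by norm_num) (by omega)) (by omega) (sg_sq A 4) (sg_cc A 4)
    (fun κ j hj => by rw [phi_cast φ, Gu_spec (by omega) κ j hj, map_mul, ← phi_cast φ])
    (fun κ j hj => by
      show ((v1 (p * κ + j) : ℕ) : A) = (v1 κ : A) * _
      rw [phi_cast φ, H1_spec (by omega) κ j hj, map_mul, ← phi_cast φ])
    (fun j hj => by
      have := (Gu_QP j hj).map φ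
      rwa [map_natCast] at this)
    (fun j hj => by
      have := (H1_QP j hj).map φ
      rwa [map_natCast] at this)
    (fun K => base1 A K) (by rw [hl0]; push_cast; ring) (by rw [hl1]; push_cast; ring) hli
  refine ⟨x, h1, h2, hy, ?_, ?_, ?_⟩
  · unfold gT1 gS
    rw [h3]
    push_cast
    ring
  · unfold gT1 gS
    rw [h4]
    push_cast
    ring
  · unfold gT1 gS
    rw [h5]
    push_cast
    ring

theorem star2A (hp47 : 47 ≤ p) (hn : p = 2 * n + 1) {h z0 z1 e ν l0 l1 li : A} (hh : 2 * h = 1)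
    (hz : z0 ^ p = z1 * e) (he : e = 1 + p * ν) (hzu : IsUnit z1)
    (hl0 : l0 = 1 - 64 * z0) (hl1 : l1 = 1 - 64 * z1) (hli : l0 * li = 1) :
    ∃ x : A, x ^ 2 * l0 = l1 ∧ (∃ y, x = l0 ^ n * (1 + (p : A) * y)) ∧ (∃ y : A, l1 * li ^ p = 1 + p * y) ∧
      l1 ^ 2 * (x * gT2 φ (e * (l1 * li ^ p) ^ 2) (z0 * li ^ 2) 0) =
        l1 ^ 2 * gS φ e z0 0 + 32 * z1 * l1 * c1 h (gS φ e z0) + (32 * z1 + 1024 * z1 ^ 2) * c2 h (gS φ e z0) ∧
      l1 ^ 2 * (x * c1 h (gT2 φ (e * (l1 * li ^ p) ^ 2) (z0 * li ^ 2))) = (1 + 64 * z1) * l1 * c1 h (gS φ e z0) +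
        (128 * z1 + 64 * z1 * (1 + 64 * z1)) * c2 h (gS φ e z0) ∧
      l1 ^ 2 * (x * c2 h (gT2 φ (e * (l1 * li ^ p) ^ 2) (z0 * li ^ 2))) = (1 + 64 * z1) ^ 2 * c2 h (gS φ e z0) := by
  obtain ⟨x, h1, h2, hy, h3, h4, h5⟩ := star (A := A) (q := n) (m := 1) (d := 2) (β := 32) (z0 := z0) (z1 := z1) (e := e) (ν := ν) (h := h)
    (σ := PowerSeries.map (Int.castRingHom A) (sgZ 16)) (G := fun j κ => φ (Gu p j κ)) (H := fun j κ => φ (H2 p j κ))
    (v := fun k => ((-1) ^ k * v2 k : A)) (l0 := l0) (l1 := l1) (li := li) hn (A_p3 φ) hh hz he (A_unit φ) hzu (by norm_num)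
    (by rw [Nat.cast_one]; exact isUnit_one) (by omega) (sg_sq A 16) (sg_cc A 16)
    (fun κ j hj => by rw [phi_cast φ, Gu_spec (by omega) κ j hj, map_mul, ← phi_cast φ])
    (fun κ j hj => by
      have := congrArg φ (H2_spec (p := p) (by omega) κ j hj)
      simp only [map_mul, map_pow, map_neg, map_one, map_natCast] at this
      exact this)
    (fun j hj => by
      have := (Gu_QP j hj).map φ
      rwa [map_natCast] at this)
    (fun j hj => by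
      have := (H2_QP j hj).map φ
      rwa [map_natCast] at this)
    (fun K => base2 A K) (by rw [hl0]; push_cast; ring) (by rw [hl1]; push_cast; ring) hli
  refine ⟨x, h1, h2, hy, ?_, ?_, ?_⟩
  · unfold gT2 gS
    rw [pow_one, pow_one] at h3
    rw [h3]
    push_cast
    ring
  · unfold gT2 gS
    rw [pow_one, pow_one] at h4
    rw [h4]
    push_cast
    ring
  · unfold gT2 gS
    rw [pow_one, pow_one] at h5
    rw [h5]
    push_cast
    ring

end Pool.Agent.H547.P4
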