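import Pool.Agent.H547.P4.T4

set_option autoImplicit false

/-!
# The symmetry `λ ↦ 1/λ` of the Legendre parameter
-/

namespace Pool.Agent.H547.P4

open Finset Pool.Agent.H547.P3

variable {p : ℕ} [hp : Fact p.Prime] {n : ℕ} {A : Type*} [CommRing A]

theorem sq_unique {h P : A} (hP : P ^ 3 = 0) (hh : 2 * h = 1) {u v w α γ : A} (hw : IsUnit w) (hu : u = w * (1 + P * α))
    (hv : v = w * (1 + P * γ)) (huv : u ^ 2 = v ^ 2) : u = v := by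
  have h1 : w ^ 2 * ((P * (α - γ)) * (2 + P * (α + γ))) = 0 := by
    rw [hu, hv] at huv
    linear_combination huv
  have h2 := (hw.pow 2).mul_right_eq_zero.mp h1
  have h3 : P * (α - γ) = 0 := by
    set t := P * (α + γ) with ht
    have ht3 : t ^ 3 = 0 := by rw [ht, mul_pow, hP, zero_mul]
    have hinv : (2 + t) * (h - h ^ 2 * t + h ^ 3 * t ^ 2) = 1 := by
      linear_combination (1 - h * t + h ^ 2 * t ^ 2) * hh + h ^ 3 * ht3
    linear_combination (h - h ^ 2 * t + h ^ 3 * t ^ 2) * h2 - (P * (α - γ)) * hinv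
  rw [hu, hv]
  linear_combination w * h3

theorem lam_rel (φ : ZMod (p ^ 3) →+* A) (hp53 : 53 ≤ p) (hn : p = 2 * n + 1) {h a ai a1 a1i u ui η z0 z1 e ν l0 l1 li zb0 zb1 : A}
    (hh : 2 * h = 1) (ha : a * ai = 1) (ha1 : a1 * a1i = 1) (hap : a ^ p = a1 * u) (huη : u = 1 + p * η) (hui : u * ui = 1)
    (hz0 : 16 * z0 = a * (1 - a)) (hz1 : 16 * z1 = a1 * (1 - a1))
    (hz : z0 ^ p = z1 * e) (he : e = 1 + p * ν) (hzu : IsUnit z1)
    (hl0 : l0 = 1 - a + a ^ 2) (hl1 : l1 = 1 - a1 + a1 ^ 2) (hli : l0 * li = 1)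
    (hzb0 : zb0 = -z0 * ai ^ 3) (hzb1 : zb1 = -z1 * a1i ^ 3) :
    a * (l1 ^ 2 * gS φ e z0 0 + 8 * z1 * l1 * c1 h (gS φ e z0) + (8 * z1 + 64 * z1 ^ 2) * c2 h (gS φ e z0)) =
      a1 ^ 5 * ((l1 * a1i ^ 2) ^ 2 * gS φ (e * ui ^ 3) zb0 0 + 8 * zb1 * (l1 * a1i ^ 2) * c1 h (gS φ (e * ui ^ 3) zb0) +
        (8 * zb1 + 64 * zb1 ^ 2) * c2 h (gS φ (e * ui ^ 3) zb0)) ∧
    a * ((2 + 16 * z1) * l1 * c1 h (gS φ e z0) + (48 * z1 + 16 * z1 * (2 + 16 * z1)) * c2 h (gS φ e z0)) =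
      a1 ^ 5 * ((2 + 16 * zb1) * (l1 * a1i ^ 2) * c1 h (gS φ (e * ui ^ 3) zb0) +
        (48 * zb1 + 16 * zb1 * (2 + 16 * zb1)) * c2 h (gS φ (e * ui ^ 3) zb0)) ∧
    a * ((2 + 16 * z1) ^ 2 * c2 h (gS φ e z0)) = a1 ^ 5 * ((2 + 16 * zb1) ^ 2 * c2 h (gS φ (e * ui ^ 3) zb0)) := by
  have hP := A_p3 (p := p) φ
  have hodd : Odd p := ⟨n, hn⟩
  have haip : ai ^ p = a1i * ui := by
    have h1 : a ^ p * ai ^ p = 1 := by rw [← mul_pow, ha, one_pow]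
    rw [hap] at h1
    linear_combination (a1i * ui) * h1 - (ai ^ p * u * ui) * ha1 - ai ^ p * hui
  obtain ⟨x, hx, ⟨y, hy⟩, hy', f0, f1, f2⟩ := star1A φ hp53 hn (h := h) (l0 := l0) (l1 := l1) (li := li) hh hz he hzu
    (by rw [hl0]; linear_combination hz0) (by rw [hl1]; linear_combination hz1) hli
  -- the second point
  have hui' : ui = 1 + p * (-η * ui) := by
    linear_combination hui - ui * huη
  have heb : e * ui ^ 3 = 1 + p * (ν * ui ^ 3 + (-η * ui) * (3 + 3 * (p * (-η * ui)) + (p * (-η * ui)) ^ 2)) := by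
    have h3 : ui ^ 3 = 1 + p * ((-η * ui) * (3 + 3 * (p * (-η * ui)) + (p * (-η * ui)) ^ 2)) := by
      have h4 : ui ^ 3 = (1 + p * (-η * ui)) ^ 3 := by rw [← hui']
      rw [h4]; ring
    rw [he]
    linear_combination h3
  have hzbp : zb0 ^ p = zb1 * (e * ui ^ 3) := by
    rw [hzb0, hzb1, mul_pow, hodd.neg_pow, hz, ← pow_mul, mul_comm 3 p, pow_mul, haip]
    ring
  have hub : IsUnit zb1 := by
    rw [hzb1]
    exact hzu.neg.mul ((IsUnit.of_mul_eq_one a1 (by linear_combination ha1)).pow 3)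
  have hlb0 : l0 * ai ^ 2 = 1 - 16 * zb0 := by
    rw [hzb0, hl0]
    linear_combination (-(ai ^ 3)) * hz0 + (1 + a * ai - ai ^ 2 + a * ai ^ 2) * ha
  have hlb1 : l1 * a1i ^ 2 = 1 - 16 * zb1 := by
    rw [hzb1, hl1]
    linear_combination (-(a1i ^ 3)) * hz1 + (1 + a1 * a1i - a1i ^ 2 + a1 * a1i ^ 2) * ha1
  have hlbi : (l0 * ai ^ 2) * (li * a ^ 2) = 1 := by
    linear_combination (a * ai + 1) * ha + (a ^ 2 * ai ^ 2) * hli
  obtain ⟨xb, hxb, ⟨yb, hyb⟩, hyb', g0, g1, g2⟩ := star1A φ hp53 hn (h := h) (l0 := l0 * ai ^ 2) (l1 := l1 * a1i ^ 2)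
    (li := li * a ^ 2) hh hzbp heb hub hlb0 hlb1 hlbi
  have eE : (e * ui ^ 3) ^ 2 * (l1 * a1i ^ 2 * (li * a ^ 2) ^ p) ^ 3 = e ^ 2 * (l1 * li ^ p) ^ 3 := by
    have h1 : (li * a ^ 2) ^ p = li ^ p * (a1 * u) ^ 2 := by
      rw [mul_pow, ← pow_mul, mul_comm 2 p, pow_mul, hap]
    rw [h1]
    have h2 : a1 * a1i * (u * ui) = 1 := by rw [ha1, hui, one_mul]
    have h3 : (a1 * a1i * (u * ui)) ^ 6 = 1 := by rw [h2, one_pow]
    linear_combination (e ^ 2 * (l1 * li ^ p) ^ 3) * h3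
  have eW : zb0 ^ 2 * (li * a ^ 2) ^ 3 = z0 ^ 2 * li ^ 3 := by
    rw [hzb0]
    have h3 : (a * ai) ^ 6 = 1 := by rw [ha, one_pow]
    linear_combination (z0 ^ 2 * li ^ 3) * h3
  rw [eE, eW] at g0 g1 g2
  have hl0u : IsUnit l0 := IsUnit.of_mul_eq_one li hli
  have hau : IsUnit a := IsUnit.of_mul_eq_one ai ha
  -- comparison of the roots
  have hxx : x * a = xb * a1 := by
    refine sq_unique hP hh (w := l0 ^ n * a) ((hl0u.pow n).mul hau) (α := y) (γ := yb + (-η * ui) + p * (-η * ui) * yb) ?_ ?_ ?_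
    · rw [hy]; ring
    · have h1 : ai ^ (2 * n) * a1 = a * ui := by
        have h2 : ai ^ (2 * n) = ai ^ p * a := by
          have : ai ^ p = ai ^ (2 * n) * ai := by rw [← pow_succ]; congr 1
          rw [this]; linear_combination (-(ai ^ (2 * n))) * ha
        rw [h2, haip]; linear_combination (ui * a) * ha1
      have h3 : ui = 1 + p * (-η * ui) := hui'
      rw [hyb, mul_pow, ← pow_mul]
      linear_combination (l0 ^ n * (1 + p * yb)) * h1 + (l0 ^ n * a * (1 + p * yb)) * h3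
    · apply hl0u.mul_left_cancel
      have h1 : xb ^ 2 * l0 = l1 * a1i ^ 2 * a ^ 2 := by
        linear_combination (a ^ 2) * hxb - (xb ^ 2 * l0 * (a * ai + 1)) * ha
      linear_combination (a ^ 2) * hx - a1 ^ 2 * h1 - (l1 * a ^ 2 * (a1 * a1i + 1)) * ha1
  have k4 : (a1 * a1i) ^ 4 = 1 := by rw [ha1, one_pow]
  set T0 := gT1 φ (e ^ 2 * (l1 * li ^ p) ^ 3) (z0 ^ 2 * li ^ 3) 0
  set T1 := c1 h (gT1 φ (e ^ 2 * (l1 * li ^ p) ^ 3) (z0 ^ 2 * li ^ 3))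
  set T2 := c2 h (gT1 φ (e ^ 2 * (l1 * li ^ p) ^ 3) (z0 ^ 2 * li ^ 3))
  refine ⟨?_, ?_, ?_⟩
  · linear_combination (-a) * f0 + a1 ^ 5 * g0 + (l1 ^ 2 * T0) * hxx - (a1 * l1 ^ 2 * xb * T0) * k4
  · linear_combination (-a) * f1 + a1 ^ 5 * g1 + (l1 ^ 2 * T1) * hxx - (a1 * l1 ^ 2 * xb * T1) * k4
  · linear_combination (-a) * f2 + a1 ^ 5 * g2 + (l1 ^ 2 * T2) * hxx - (a1 * l1 ^ 2 * xb * T2) * k4

end Pool.Agent.H547.P4
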