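import Pool.Agent.H547.P4.T5
import Pool.Agent.H547.P3.D7

set_option autoImplicit false

/-!
# The automorphism of the curve with `j = 1728`
-/

namespace Pool.Agent.H547.P4

open Finset Pool.Agent.H547.P3

section Fr

variable {p : ℕ} [hp : Fact p.Prime] {A : Type*} [CommRing A]

/-- Frobenius lift relation -/
def Fr (p : ℕ) (f g : A) : Prop := ∃ r : A, f ^ p = g + p * r

theorem Fr.mul {f f1 g g1 : A} (hf : Fr p f f1) (hg : Fr p g g1) : Fr p (f * g) (f1 * g1) := by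
  obtain ⟨r, hr⟩ := hf
  obtain ⟨s, hs⟩ := hg
  exact ⟨r * g1 + f1 * s + p * r * s, by rw [mul_pow, hr, hs]; ring⟩

theorem Fr.add {f f1 g g1 : A} (hf : Fr p f f1) (hg : Fr p g g1) : Fr p (f + g) (f1 + g1) := by
  obtain ⟨r, hr⟩ := hf
  obtain ⟨s, hs⟩ := hg
  obtain ⟨q, hq⟩ := exists_add_pow_prime_eq hp.out f g
  exact ⟨r + s + f * g * q, by rw [hq, hr, hs]; ring⟩

theorem Fr.neg (hodd : Odd p) {f f1 : A} (hf : Fr p f f1) : Fr p (-f) (-f1) := by
  obtain ⟨r, hr⟩ := hf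
  exact ⟨-r, by rw [hodd.neg_pow, hr]; ring⟩

theorem Fr.sub (hodd : Odd p) {f f1 g g1 : A} (hf : Fr p f f1) (hg : Fr p g g1) : Fr p (f - g) (f1 - g1) := by
  rw [sub_eq_add_neg, sub_eq_add_neg]
  exact hf.add (hg.neg hodd)

theorem Fr.nat (k : ℕ) : Fr p (k : A) (k : A) := cast_pow_p k

theorem Fr.self (f : A) : Fr p f (f ^ p) := ⟨0, by ring⟩

theorem Fr.map {B : Type*} [CommRing B] (φ : A →+* B) {f f1 : A} (hf : Fr p f f1) : Fr p (φ f) (φ f1) := by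
  obtain ⟨r, hr⟩ := hf
  exact ⟨φ r, by rw [← map_pow, hr, map_add, map_mul, map_natCast]⟩

theorem Fr.zmod (f : ZMod (p ^ 3)) : Fr p f f := by
  have : NeZero (p ^ 3) := ⟨pow_ne_zero _ hp.out.ne_zero⟩
  have h1 : f = ((f.val : ℕ) : ZMod (p ^ 3)) := (ZMod.natCast_zmod_val f).symm
  rw [h1]
  exact Fr.nat _

theorem Fr.unit {f g : A} (hf : Fr p f g) (hg : IsUnit g) : ∃ u η : A, f ^ p = g * u ∧ u = 1 + p * η := by
  obtain ⟨r, hr⟩ := hf
  obtain ⟨g', hg'⟩ := hg.exists_right_inv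
  exact ⟨1 + p * (g' * r), g' * r, by rw [hr]; linear_combination (-(p : A) * r) * hg', rfl⟩

end Fr

variable {p : ℕ} [hp : Fact p.Prime] {n : ℕ}

theorem one_unit {A : Type*} [CommRing A] (h3 : (p : A) ^ 3 = 0) {u η : A} (hu : u = 1 + p * η) : ∃ ui, u * ui = 1 :=
  ⟨1 - p * η + (p * η) ^ 2, by rw [hu]; linear_combination η ^ 3 * h3⟩

theorem gS_map {A B : Type*} [CommRing A] [CommRing B] (φ : ZMod (p ^ 3) →+* A) (ψ : A →+* B) (e z : A) (κ : ℕ) :
    ψ (gS φ e z κ) = gS (ψ.comp φ) (ψ e) (ψ z) κ := by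
  unfold gS fam
  rw [map_mul, map_pow, map_sum]
  congr 1
  refine sum_congr rfl fun j _ => ?_
  rw [map_mul, map_pow]
  rfl

theorem c1_gS_map {A B : Type*} [CommRing A] [CommRing B] (φ : ZMod (p ^ 3) →+* A) (ψ : A →+* B) (h e z : A) :
    ψ (c1 h (gS φ e z)) = c1 (ψ h) (gS (ψ.comp φ) (ψ e) (ψ z)) := by
  rw [c1_map]
  congr 1
  funext κ
  exact gS_map φ ψ e z κ

theorem c2_gS_map {A B : Type*} [CommRing A] [CommRing B] (φ : ZMod (p ^ 3) →+* A) (ψ : A →+* B) (h e z : A) :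
    ψ (c2 h (gS φ e z)) = c2 (ψ h) (gS (ψ.comp φ) (ψ e) (ψ z)) := by
  rw [c2_map]
  congr 1
  funext κ
  exact gS_map φ ψ e z κ

theorem gS_id {φ : ZMod (p ^ 3) →+* ZMod (p ^ 3)} {e z : ZMod (p ^ 3)} (he : e = z ^ (p - 1)) :
    gS φ e z = fS p z := by
  have hφ : φ = RingHom.id _ := Subsingleton.elim _ _
  funext κ
  unfold gS fam fS
  rw [hφ, he]
  rfl

open PowerSeries

theorem Xpow_cancel {R : Type*} [CommRing R] (m : ℕ) {f : PowerSeries R} (hf : X ^ m * f = 0) : f = 0 := by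
  ext k
  have := congrArg (coeff (k + m)) hf
  rwa [coeff_X_pow_mul, map_zero] at this

theorem aut_i (hp53 : 53 ≤ p) (hn : p = 2 * n + 1) {h z : ZMod (p ^ 3)} (hh : 2 * h = 1) (hz : 8 * z = -1) :
    162 * c1 h (fS p z) = 126 * c2 h (fS p z) := by
  have hodd : Odd p := ⟨n, hn⟩
  have hp0 : p ≠ 0 := hp.out.ne_zero
  have hX0 : constantCoeff ((X : PowerSeries (ZMod (p ^ 3))) ^ p) = 0 := by
    rw [map_pow, constantCoeff_X, zero_pow hp0]
  have unit_of : ∀ f : PowerSeries (ZMod (p ^ 3)), IsUnit (constantCoeff f) → IsUnit f := fun f hf =>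
    isUnit_iff_constantCoeff.mpr hf
  have u2 : IsUnit (2 : ZMod (p ^ 3)) := by have := unit_cast (p := p) (k := 2) (by norm_num) (by omega); simpa using this
  have u3 : IsUnit (3 : ZMod (p ^ 3)) := by have := unit_cast (p := p) (k := 3) (by norm_num) (by omega); simpa using this
  obtain ⟨i16, h16⟩ : ∃ i16 : ZMod (p ^ 3), 16 * i16 = 1 := by
    obtain ⟨i, hi⟩ := u2.exists_right_inv
    exact ⟨i ^ 4, by linear_combination (8 * i ^ 3 + 4 * i ^ 2 + 2 * i + 1) * hi⟩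
  have H16 : (16 : PowerSeries (ZMod (p ^ 3))) * C i16 = 1 := by
    have := congrArg (C (R := ZMod (p ^ 3))) h16
    rwa [map_mul, map_one, map_ofNat] at this
  have HH : (2 : PowerSeries (ZMod (p ^ 3))) * C h = 1 := by
    have := congrArg (C (R := ZMod (p ^ 3))) hh
    rwa [map_mul, map_one, map_ofNat] at this
  have hz' : z = -(2 * i16) := by
    linear_combination (-z) * h16 + (2 * i16) * hz
  have uz : IsUnit z := by
    rw [hz']
    exact (u2.mul (IsUnit.of_mul_eq_one 16 (by linear_combination h16))).neg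
  set t : PowerSeries (ZMod (p ^ 3)) := X ^ p with ht
  obtain ⟨a, ha⟩ : ∃ a : PowerSeries (ZMod (p ^ 3)), a = -(1 + X) := ⟨_, rfl⟩
  obtain ⟨a1, ha1⟩ : ∃ a1 : PowerSeries (ZMod (p ^ 3)), a1 = -(1 + t) := ⟨_, rfl⟩
  obtain ⟨z0, hz0⟩ : ∃ z0 : PowerSeries (ZMod (p ^ 3)), z0 = C i16 * (a * (1 - a)) := ⟨_, rfl⟩
  obtain ⟨z1, hz1⟩ : ∃ z1 : PowerSeries (ZMod (p ^ 3)), z1 = C i16 * (a1 * (1 - a1)) := ⟨_, rfl⟩
  have f1 : Fr p (1 : PowerSeries (ZMod (p ^ 3))) 1 := by simpa using Fr.nat (A := PowerSeries (ZMod (p ^ 3))) (p := p) 1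
  have fa : Fr p a a1 := by rw [ha, ha1]; exact (f1.add (Fr.self X)).neg hodd
  have fz : Fr p z0 z1 := by
    rw [hz0, hz1]
    exact ((Fr.zmod i16).map C).mul (fa.mul (f1.sub hodd fa))
  have ca : constantCoeff a = -1 := by rw [ha]; simp
  have ca1 : constantCoeff a1 = -1 := by rw [ha1, map_neg, map_add, hX0]; simp
  have cz0 : constantCoeff z0 = z := by
    rw [hz0, map_mul, map_mul, map_sub, ca, constantCoeff_C, map_one, hz']; ring
  have cz1 : constantCoeff z1 = z := by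
    rw [hz1, map_mul, map_mul, map_sub, ca1, constantCoeff_C, map_one, hz']; ring
  have ua : IsUnit a := unit_of _ (by rw [ca]; exact isUnit_one.neg)
  have ua1 : IsUnit a1 := unit_of _ (by rw [ca1]; exact isUnit_one.neg)
  have uz1 : IsUnit z1 := unit_of _ (by rw [cz1]; exact uz)
  obtain ⟨ai, hai⟩ := ua.exists_right_inv
  obtain ⟨a1i, ha1i⟩ := ua1.exists_right_inv
  obtain ⟨u, η, hu, huη⟩ := fa.unit ua1
  obtain ⟨e, ν, he, heν⟩ := fz.unit uz1
  obtain ⟨l0, hl0⟩ : ∃ l0, l0 = 1 - a + a ^ 2 := ⟨_, rfl⟩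
  obtain ⟨l1, hl1⟩ : ∃ l1, l1 = 1 - a1 + a1 ^ 2 := ⟨_, rfl⟩
  have ul0 : IsUnit l0 := unit_of _ (by
    have : constantCoeff l0 = 3 := by rw [hl0, map_add, map_sub, map_pow, ca, map_one]; norm_num
    rw [this]; exact u3)
  obtain ⟨li, hli⟩ := ul0.exists_right_inv
  have hp3 : ((p : PowerSeries (ZMod (p ^ 3)))) ^ 3 = 0 := A_p3 (p := p) (C (R := ZMod (p ^ 3)))
  obtain ⟨ui, hui⟩ := one_unit hp3 huη
  obtain ⟨r0, r1, r2⟩ := lam_rel (C (R := ZMod (p ^ 3))) hp53 hn (h := C h) (z0 := z0) (z1 := z1) (zb0 := -z0 * ai ^ 3) (zb1 := -z1 * a1i ^ 3) HH hai ha1i hu huη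
    hui (by rw [hz0]; linear_combination (a * (1 - a)) * H16) (by rw [hz1]; linear_combination (a1 * (1 - a1)) * H16) he heν uz1 hl0 hl1 hli rfl rfl
  have z16 : 16 * z1 = a1 * (1 - a1) := by rw [hz1]; linear_combination (a1 * (1 - a1)) * H16
  -- constant coefficients
  have cc_ai : constantCoeff ai = -1 := by
    have := congrArg constantCoeff hai
    rw [map_mul, ca, map_one] at this
    linear_combination -this
  have cc_zb : constantCoeff (-z0 * ai ^ 3) = z := by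
    rw [map_mul, map_neg, map_pow, cz0, cc_ai]; ring
  have cc_u : constantCoeff u = 1 := by
    have := congrArg constantCoeff hu
    rw [map_mul, map_pow, ca, ca1, hodd.neg_one_pow] at this
    linear_combination this
  have cc_ui : constantCoeff ui = 1 := by
    have := congrArg constantCoeff hui
    rw [map_mul, cc_u, map_one, one_mul] at this
    exact this
  have cc_e : constantCoeff e = z ^ (p - 1) := by
    have := congrArg constantCoeff he
    rw [map_mul, map_pow, cz0, cz1] at this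
    have h2 : z ^ p = z * z ^ (p - 1) := by rw [← pow_succ', Nat.sub_add_cancel hp.out.one_le]
    apply uz.mul_left_cancel
    rw [← this, h2]
  have cc_eb : constantCoeff (e * ui ^ 3) = z ^ (p - 1) := by
    rw [map_mul, map_pow, cc_e, cc_ui]; ring
  have s1a := c1_gS_map (C (R := ZMod (p ^ 3))) (constantCoeff (R := ZMod (p ^ 3))) (C h) e z0
  have s2a := c2_gS_map (C (R := ZMod (p ^ 3))) (constantCoeff (R := ZMod (p ^ 3))) (C h) e z0
  have s1b := c1_gS_map (C (R := ZMod (p ^ 3))) (constantCoeff (R := ZMod (p ^ 3))) (C h) (e * ui ^ 3) (-z0 * ai ^ 3)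
  have s2b := c2_gS_map (C (R := ZMod (p ^ 3))) (constantCoeff (R := ZMod (p ^ 3))) (C h) (e * ui ^ 3) (-z0 * ai ^ 3)
  rw [constantCoeff_C, gS_id (by rw [cc_e, cz0]), cz0] at s1a s2a
  rw [constantCoeff_C, gS_id (by rw [cc_eb, cc_zb]), cc_zb] at s1b s2b
  set S1a := c1 (C h) (gS (C (R := ZMod (p ^ 3))) e z0)
  set S2a := c2 (C h) (gS (C (R := ZMod (p ^ 3))) e z0)
  set S1b := c1 (C h) (gS (C (R := ZMod (p ^ 3))) (e * ui ^ 3) (-z0 * ai ^ 3))
  set S2b := c2 (C h) (gS (C (R := ZMod (p ^ 3))) (e * ui ^ 3) (-z0 * ai ^ 3))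
  -- elimination
  clear_value S1a S2a S1b S2b
  have hW : 2 + 16 * z1 = -t * (3 + t) := by
    linear_combination z16 + (1 - a1 + (1 + t)) * ha1
  have hWb : a1 ^ 2 * (2 + 16 * (-z1 * a1i ^ 3)) = t * (3 + 2 * t) := by
    linear_combination (-(a1i * (a1 * a1i) ^ 2)) * z16 - ((1 - a1) * ((a1 * a1i) ^ 2 + a1 * a1i + 1)) * ha1i +
      (2 * (a1 - (1 + t)) + 1) * ha1
  have q2 : t ^ 2 * ((1 + X) * (3 + t) ^ 2 * S2a - (1 + t) * (3 + 2 * t) ^ 2 * S2b) = 0 := by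
    linear_combination (-1 : PowerSeries (ZMod (p ^ 3))) * r2 + (a * S2a * (2 + 16 * z1 - t * (3 + t))) * hW -
      (a1 * S2b * (a1 ^ 2 * (2 + 16 * (-z1 * a1i ^ 3)) + t * (3 + 2 * t))) * hWb +
      (t ^ 2 * (3 + t) ^ 2 * S2a) * ha - (t ^ 2 * (3 + 2 * t) ^ 2 * S2b) * ha1
  rw [ht, ← pow_mul] at q2
  have q2' := Xpow_cancel _ q2
  rw [← ht] at q2'
  have r1' : a * ((2 + 16 * z1) * l1 * S1a + (2 + 16 * z1 - 2) * (3 + (2 + 16 * z1)) * S2a) =
      a1 * (a1 ^ 2 * (2 + 16 * (-z1 * a1i ^ 3)) * l1 * S1b + (a1 ^ 2 * (2 + 16 * (-z1 * a1i ^ 3)) - 2 * a1 ^ 2) *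
        (3 * a1 ^ 2 + a1 ^ 2 * (2 + 16 * (-z1 * a1i ^ 3))) * S2b) := by
    linear_combination r1 + (a1 ^ 3 * (2 + 16 * (-z1 * a1i ^ 3)) * l1 * S1b * (a1 * a1i + 1)) * ha1i
  rw [hW, hWb, hl1, ha, ha1] at r1'
  have q1 : t * ((3 + 2 * t) ^ 2 * (1 + X) * (3 + t) * (3 + 3 * t + t ^ 2) * S1a + (1 + t) * (3 + 2 * t) ^ 3 * (3 + 3 * t + t ^ 2) * S1b -
      (1 + X) * (2 + t) * (63 + 126 * t + 96 * t ^ 2 + 33 * t ^ 3 + 4 * t ^ 4) * S2a) = 0 := by
    linear_combination (3 + 2 * t) ^ 2 * r1' - ((2 + t) * (3 + 9 * t + 5 * t ^ 2)) * q2'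
  rw [ht] at q1
  have q1' := Xpow_cancel _ q1
  rw [← ht] at q1'
  have fin := congrArg constantCoeff q1'
  simp only [map_sub, map_add, map_mul, map_pow, hX0, constantCoeff_X, map_one, map_ofNat, s1a, s2a, s1b, map_zero] at fin
  linear_combination fin

end Pool.Agent.H547.P4
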