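import Pool.Agent.H547.P4.T6

set_option autoImplicit false

/-!
# The automorphism of the curve with `j = 0`
-/

namespace Pool.Agent.H547.P4

open Finset Pool.Agent.H547.P3 PowerSeries

variable {p : ℕ} [hp : Fact p.Prime] {n : ℕ}

theorem aut_omega (hp53 : 53 ≤ p) (hn : p = 2 * n + 1) {h z m : ZMod (p ^ 3)} (hh : 2 * h = 1) (hz : 16 * z = 1)
    (hm : m ^ 2 - m + 1 = 0) : c1 h (fS p z) = 0 ∧ c2 h (fS p z) = 0 := by
  have hodd : Odd p := ⟨n, hn⟩
  have hp0 : p ≠ 0 := hp.out.ne_zero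
  have hX0 : constantCoeff ((X : PowerSeries (ZMod (p ^ 3))) ^ p) = 0 := by
    rw [map_pow, constantCoeff_X, zero_pow hp0]
  have unit_of : ∀ f : PowerSeries (ZMod (p ^ 3)), IsUnit (constantCoeff f) → IsUnit f := fun f hf =>
    isUnit_iff_constantCoeff.mpr hf
  have u2 : IsUnit (2 : ZMod (p ^ 3)) := by have := unit_cast (p := p) (k := 2) (by norm_num) (by omega); simpa using this
  have u3 : IsUnit (3 : ZMod (p ^ 3)) := by have := unit_cast (p := p) (k := 3) (by norm_num) (by omega); simpa using this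
  have um : IsUnit m := IsUnit.of_mul_eq_one (1 - m) (by linear_combination -hm)
  have um1 : IsUnit (1 - m) := IsUnit.of_mul_eq_one m (by linear_combination -hm)
  have u2m : IsUnit (2 * m - 1) := by
    have : IsUnit ((2 * m - 1) * (2 * m - 1)) := by
      have e : (2 * m - 1) * (2 * m - 1) = -3 := by linear_combination 4 * hm
      rw [e]; exact u3.neg
    exact isUnit_of_mul_isUnit_left this
  have u1m : IsUnit (1 + m) := by
    have : IsUnit ((1 + m) * (2 - m)) := by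
      have e : (1 + m) * (2 - m) = 3 := by linear_combination -hm
      rw [e]; exact u3
    exact isUnit_of_mul_isUnit_left this
  have uz : IsUnit z := IsUnit.of_mul_eq_one 16 (by linear_combination hz)
  have H16 : (16 : PowerSeries (ZMod (p ^ 3))) * C z = 1 := by
    have := congrArg (C (R := ZMod (p ^ 3))) hz
    rwa [map_mul, map_one, map_ofNat] at this
  have HH : (2 : PowerSeries (ZMod (p ^ 3))) * C h = 1 := by
    have := congrArg (C (R := ZMod (p ^ 3))) hh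
    rwa [map_mul, map_one, map_ofNat] at this
  have HM : (C m : PowerSeries (ZMod (p ^ 3))) ^ 2 - C m + 1 = 0 := by
    have := congrArg (C (R := ZMod (p ^ 3))) hm
    rwa [map_add, map_sub, map_pow, map_one, map_zero] at this
  obtain ⟨M, hM⟩ : ∃ M : PowerSeries (ZMod (p ^ 3)), M = C m := ⟨_, rfl⟩
  rw [← hM] at HM
  have cM : constantCoeff M = m := by rw [hM, constantCoeff_C]
  set t : PowerSeries (ZMod (p ^ 3)) := X ^ p with ht
  obtain ⟨a, ha⟩ : ∃ a : PowerSeries (ZMod (p ^ 3)), a = M + X := ⟨_, rfl⟩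
  obtain ⟨a1, ha1⟩ : ∃ a1 : PowerSeries (ZMod (p ^ 3)), a1 = M + t := ⟨_, rfl⟩
  obtain ⟨z0, hz0⟩ : ∃ z0 : PowerSeries (ZMod (p ^ 3)), z0 = C z * (a * (1 - a)) := ⟨_, rfl⟩
  obtain ⟨z1, hz1⟩ : ∃ z1 : PowerSeries (ZMod (p ^ 3)), z1 = C z * (a1 * (1 - a1)) := ⟨_, rfl⟩
  have f1 : Fr p (1 : PowerSeries (ZMod (p ^ 3))) 1 := by simpa using Fr.nat (A := PowerSeries (ZMod (p ^ 3))) (p := p) 1
  have fa : Fr p a a1 := by rw [ha, ha1, hM]; exact ((Fr.zmod m).map C).add (Fr.self X)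
  have fz : Fr p z0 z1 := by
    rw [hz0, hz1]
    exact ((Fr.zmod z).map C).mul (fa.mul (f1.sub hodd fa))
  have ca : constantCoeff a = m := by rw [ha, map_add, cM, constantCoeff_X, add_zero]
  have ca1 : constantCoeff a1 = m := by rw [ha1, map_add, hX0, cM, add_zero]
  have cz0 : constantCoeff z0 = z := by
    rw [hz0, map_mul, map_mul, map_sub, ca, constantCoeff_C, map_one]; linear_combination (-z) * hm
  have cz1 : constantCoeff z1 = z := by
    rw [hz1, map_mul, map_mul, map_sub, ca1, constantCoeff_C, map_one]; linear_combination (-z) * hm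
  have ua : IsUnit a := unit_of _ (by rw [ca]; exact um)
  have ua1 : IsUnit a1 := unit_of _ (by rw [ca1]; exact um)
  have uz1 : IsUnit z1 := unit_of _ (by rw [cz1]; exact uz)
  obtain ⟨ai, hai⟩ := ua.exists_right_inv
  obtain ⟨a1i, ha1i⟩ := ua1.exists_right_inv
  obtain ⟨u, η, hu, huη⟩ := fa.unit ua1
  obtain ⟨e, ν, he, heν⟩ := fz.unit uz1
  obtain ⟨v0, hv0⟩ : ∃ v0, v0 = 2 * M - 1 + X := ⟨_, rfl⟩
  obtain ⟨v1, hv1⟩ : ∃ v1, v1 = 2 * M - 1 + t := ⟨_, rfl⟩
  have uv0 : IsUnit v0 := unit_of _ (by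
    rw [hv0, map_add, map_sub, map_mul, cM, map_one, map_ofNat, constantCoeff_X, add_zero]; exact u2m)
  have uv1 : IsUnit v1 := unit_of _ (by
    rw [hv1, map_add, map_sub, map_mul, cM, map_one, map_ofNat, hX0, add_zero]; exact u2m)
  obtain ⟨v0i, hv0i⟩ := uv0.exists_right_inv
  have hp3 : ((p : PowerSeries (ZMod (p ^ 3)))) ^ 3 = 0 := A_p3 (p := p) (C (R := ZMod (p ^ 3)))
  obtain ⟨ui, hui⟩ := one_unit hp3 huη
  have hl0 : X * v0 = 1 - a + a ^ 2 := by rw [hv0, ha]; linear_combination -HM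
  have hl1 : t * v1 = 1 - a1 + a1 ^ 2 := by rw [hv1, ha1]; linear_combination -HM
  have z16 : 16 * z1 = a1 * (1 - a1) := by rw [hz1]; linear_combination (a1 * (1 - a1)) * H16
  -- the Laurent series
  let ι : PowerSeries (ZMod (p ^ 3)) →+* LaurentSeries (ZMod (p ^ 3)) := HahnSeries.ofPowerSeries ℤ (ZMod (p ^ 3))
  have ιinj : Function.Injective ι := HahnSeries.ofPowerSeries_injective
  obtain ⟨Xi, hXi⟩ : ∃ Xi : LaurentSeries (ZMod (p ^ 3)), ι X * Xi = 1 := by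
    refine ⟨HahnSeries.single (-1 : ℤ) 1, ?_⟩
    show HahnSeries.ofPowerSeries ℤ (ZMod (p ^ 3)) X * _ = 1
    rw [HahnSeries.ofPowerSeries_X, HahnSeries.single_mul_single]
    simp
  have I : ∀ {f g : PowerSeries (ZMod (p ^ 3))}, f = g → ι f = ι g := fun h => by rw [h]
  obtain ⟨r0, r1, r2⟩ := lam_rel (ι.comp (C (R := ZMod (p ^ 3)))) hp53 hn (h := ι (C h)) (a := ι a) (ai := ι ai) (a1 := ι a1) (a1i := ι a1i)
    (u := ι u) (ui := ι ui) (η := ι η) (e := ι e) (ν := ι ν) (l0 := ι (X * v0)) (l1 := ι (t * v1)) (li := Xi * ι v0i)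
    (z0 := ι z0) (z1 := ι z1) (zb0 := ι (-z0 * ai ^ 3)) (zb1 := ι (-z1 * a1i ^ 3))
    (by rw [← map_ofNat ι 2, ← map_mul, HH, map_one])
    (by rw [← map_mul, hai, map_one]) (by rw [← map_mul, ha1i, map_one]) (by rw [← map_pow, hu, map_mul])
    (by rw [huη, map_add, map_mul, map_one, map_natCast]) (by rw [← map_mul, hui, map_one])
    (by rw [← map_ofNat ι 16, ← map_mul, ← map_one ι, ← map_sub, ← map_mul]; exact I (by rw [hz0]; linear_combination (a * (1 - a)) * H16))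
    (by rw [← map_ofNat ι 16, ← map_mul, ← map_one ι, ← map_sub, ← map_mul]; exact I (by rw [hz1]; linear_combination (a1 * (1 - a1)) * H16))
    (by rw [← map_pow, he, map_mul]) (by rw [heν, map_add, map_mul, map_one, map_natCast]) (uz1.map ι)
    (by rw [← map_one ι, ← map_sub, ← map_pow, ← map_add]; exact I hl0)
    (by rw [← map_one ι, ← map_sub, ← map_pow, ← map_add]; exact I hl1)
    (by
      have e1 := congrArg ι hv0i
      rw [map_mul, map_one] at e1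
      rw [map_mul]
      linear_combination (ι v0 * ι v0i) * hXi + e1)
    (by rw [map_mul, map_neg, map_pow]) (by rw [map_mul, map_neg, map_pow])
  have g1 : ∀ e z : PowerSeries (ZMod (p ^ 3)), c1 (ι (C h)) (gS (ι.comp (C (R := ZMod (p ^ 3)))) (ι e) (ι z)) = ι (c1 (C h) (gS (C (R := ZMod (p ^ 3))) e z)) :=
    fun e z => (c1_gS_map (C (R := ZMod (p ^ 3))) ι (C h) e z).symm
  have g2 : ∀ e z : PowerSeries (ZMod (p ^ 3)), c2 (ι (C h)) (gS (ι.comp (C (R := ZMod (p ^ 3)))) (ι e) (ι z)) = ι (c2 (C h) (gS (C (R := ZMod (p ^ 3))) e z)) :=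
    fun e z => (c2_gS_map (C (R := ZMod (p ^ 3))) ι (C h) e z).symm
  rw [← map_pow ι ui, ← map_mul ι e, g1, g1, g2, g2] at r1
  rw [← map_pow ι ui, ← map_mul ι e, g2, g2] at r2
  have r1' : a * ((2 + 16 * z1) * (t * v1) * c1 (C h) (gS (C (R := ZMod (p ^ 3))) e z0) + (48 * z1 + 16 * z1 * (2 + 16 * z1)) *
      c2 (C h) (gS (C (R := ZMod (p ^ 3))) e z0)) =
      a1 ^ 5 * ((2 + 16 * (-z1 * a1i ^ 3)) * ((t * v1) * a1i ^ 2) * c1 (C h) (gS (C (R := ZMod (p ^ 3))) (e * ui ^ 3) (-z0 * ai ^ 3)) +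
        (48 * (-z1 * a1i ^ 3) + 16 * (-z1 * a1i ^ 3) * (2 + 16 * (-z1 * a1i ^ 3))) *
          c2 (C h) (gS (C (R := ZMod (p ^ 3))) (e * ui ^ 3) (-z0 * ai ^ 3))) := by
    apply ιinj
    simp only [map_mul ι, map_add ι, map_pow ι, map_ofNat ι, map_neg ι] at r1 ⊢
    exact r1
  have r2' : a * ((2 + 16 * z1) ^ 2 * c2 (C h) (gS (C (R := ZMod (p ^ 3))) e z0)) =
      a1 ^ 5 * ((2 + 16 * (-z1 * a1i ^ 3)) ^ 2 * c2 (C h) (gS (C (R := ZMod (p ^ 3))) (e * ui ^ 3) (-z0 * ai ^ 3))) := by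
    apply ιinj
    simp only [map_mul ι, map_add ι, map_pow ι, map_ofNat ι, map_neg ι] at r2 ⊢
    exact r2
  clear r0 r1 r2 g1 g2
  -- constant coefficients
  have cc_ai : constantCoeff ai * m = 1 := by
    have := congrArg constantCoeff hai
    rw [map_mul, ca, map_one] at this
    linear_combination this
  have hm3 : m ^ 3 = -1 := by linear_combination (m + 1) * hm
  have cc_ai3 : (constantCoeff ai) ^ 3 = -1 := by
    have e : (constantCoeff ai * m) ^ 3 = 1 := by rw [cc_ai, one_pow]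
    linear_combination (-1 : ZMod (p ^ 3)) * e + (constantCoeff ai) ^ 3 * hm3
  have cc_zb : constantCoeff (-z0 * ai ^ 3) = z := by
    rw [map_mul, map_neg, map_pow, cz0, cc_ai3]; ring
  have hmp : (m ^ (p - 1)) ^ 3 = 1 := by
    rw [← pow_mul, mul_comm, pow_mul, hm3]
    exact Even.neg_one_pow ⟨n, by omega⟩
  have cc_u : constantCoeff u = m ^ (p - 1) := by
    have := congrArg constantCoeff hu
    rw [map_mul, map_pow, ca, ca1] at this
    apply um.mul_left_cancel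
    rw [← this, ← pow_succ', Nat.sub_add_cancel hp.out.one_le]
  have cc_ui : (constantCoeff ui) ^ 3 = 1 := by
    have h1 := congrArg constantCoeff hui
    rw [map_mul, cc_u, map_one] at h1
    have h2 : (m ^ (p - 1) * constantCoeff ui) ^ 3 = 1 := by rw [h1, one_pow]
    rw [mul_pow, hmp, one_mul] at h2
    exact h2
  have cc_e : constantCoeff e = z ^ (p - 1) := by
    have := congrArg constantCoeff he
    rw [map_mul, map_pow, cz0, cz1] at this
    have h2 : z ^ p = z * z ^ (p - 1) := by rw [← pow_succ', Nat.sub_add_cancel hp.out.one_le]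
    apply uz.mul_left_cancel
    rw [← this, h2]
  have cc_eb : constantCoeff (e * ui ^ 3) = z ^ (p - 1) := by
    rw [map_mul, map_pow, cc_e, cc_ui, mul_one]
  have s1a := c1_gS_map (C (R := ZMod (p ^ 3))) (constantCoeff (R := ZMod (p ^ 3))) (C h) e z0
  have s2a := c2_gS_map (C (R := ZMod (p ^ 3))) (constantCoeff (R := ZMod (p ^ 3))) (C h) e z0
  have s1b := c1_gS_map (C (R := ZMod (p ^ 3))) (constantCoeff (R := ZMod (p ^ 3))) (C h) (e * ui ^ 3) (-z0 * ai ^ 3)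
  have s2b := c2_gS_map (C (R := ZMod (p ^ 3))) (constantCoeff (R := ZMod (p ^ 3))) (C h) (e * ui ^ 3) (-z0 * ai ^ 3)
  rw [constantCoeff_C, gS_id (by rw [cc_e, cz0]), cz0] at s1a s2a
  rw [constantCoeff_C, gS_id (by rw [cc_eb, cc_zb]), cc_zb] at s1b s2b
  generalize c1 (C h) (gS (C (R := ZMod (p ^ 3))) e z0) = S1a at s1a r1'
  generalize c2 (C h) (gS (C (R := ZMod (p ^ 3))) e z0) = S2a at s2a r1' r2'
  generalize c1 (C h) (gS (C (R := ZMod (p ^ 3))) (e * ui ^ 3) (-z0 * ai ^ 3)) = S1b at s1b r1'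
  generalize c2 (C h) (gS (C (R := ZMod (p ^ 3))) (e * ui ^ 3) (-z0 * ai ^ 3)) = S2b at s2b r1' r2'
  have hW : 2 + 16 * z1 = (2 - a1) * (1 + a1) := by linear_combination z16
  have hWb : a1 ^ 2 * (2 + 16 * (-z1 * a1i ^ 3)) = (2 * a1 - 1) * (a1 + 1) := by
    linear_combination (-(a1i * (a1 * a1i) ^ 2)) * z16 - ((1 - a1) * ((a1 * a1i) ^ 2 + a1 * a1i + 1)) * ha1i
  have hZb : a1 ^ 3 * (16 * (-z1 * a1i ^ 3)) = -(a1 * (1 - a1)) := by
    linear_combination (-16 * z1) * ((a1 * a1i) ^ 2 + (a1 * a1i) + 1) * ha1i - z16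
  have ua1p : IsUnit (1 + a1) := unit_of _ (by rw [map_add, map_one, ca1]; exact u1m)
  have q2 : a * (2 - a1) ^ 2 * S2a - a1 * (2 * a1 - 1) ^ 2 * S2b = 0 := by
    apply (ua1p.pow 2).mul_left_cancel
    rw [mul_zero]
    linear_combination r2' - (a * S2a * (2 + 16 * z1 + (2 - a1) * (1 + a1))) * hW +
      (a1 * S2b * (a1 ^ 2 * (2 + 16 * (-z1 * a1i ^ 3)) + (2 * a1 - 1) * (a1 + 1))) * hWb
  have r1'' : a * ((2 - a1) * (1 + a1) * (t * v1) * S1a + a1 * (1 - a1) * (5 + a1 - a1 ^ 2) * S2a) =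
      a1 * (2 * a1 - 1) * (a1 + 1) * (t * v1) * S1b - a1 * (1 - a1) * (5 * a1 ^ 2 + a1 - 1) * S2b := by
    have k1 : a1 ^ 5 * ((2 + 16 * (-z1 * a1i ^ 3)) * ((t * v1) * a1i ^ 2)) = a1 * (2 * a1 - 1) * (a1 + 1) * (t * v1) := by
      linear_combination (a1 ^ 3 * (2 + 16 * (-z1 * a1i ^ 3)) * (t * v1) * (a1 * a1i + 1)) * ha1i + (a1 * (t * v1)) * hWb
    have k2 : a1 ^ 5 * (48 * (-z1 * a1i ^ 3) + 16 * (-z1 * a1i ^ 3) * (2 + 16 * (-z1 * a1i ^ 3))) =
        -(a1 * (1 - a1) * (5 * a1 ^ 2 + a1 - 1)) := by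
      linear_combination (3 * a1 ^ 2 + a1 ^ 2 * (2 + 16 * (-z1 * a1i ^ 3))) * hZb - (a1 * (1 - a1)) * hWb
    linear_combination r1' - (a * (t * v1) * S1a + a * S2a * (16 * z1) + 0) * hW - (a * S2a * (3 + (2 - a1) * (1 + a1))) * z16 + S1b * k1 + S2b * k2
  have q1 : t * (v1 * (1 + a1) * (a * (2 * a1 - 1) ^ 2 * (2 - a1) * S1a - a1 * (2 * a1 - 1) ^ 3 * S1b +
      a * (1 - a1) * (-4 * a1 ^ 2 + 13 * a1 - 4) * S2a)) = 0 := by
    linear_combination (2 * a1 - 1) ^ 2 * r1'' + ((1 - a1) * (5 * a1 ^ 2 + a1 - 1)) * q2 +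
      (a * (1 - a1) * (1 + a1) * (-4 * a1 ^ 2 + 13 * a1 - 4) * S2a) * hl1
  rw [ht] at q1
  have q1' := Xpow_cancel _ q1
  have q1'' := (uv1.mul ua1p).mul_right_eq_zero.mp q1'
  have F2 := congrArg constantCoeff q2
  have F1 := congrArg constantCoeff q1''
  simp only [map_sub, map_add, map_mul, map_pow, map_neg, map_one, map_ofNat, s1a, s2a, s1b, s2b, map_zero, ca, ca1] at F1 F2
  have h2 : c2 h (fS p z) = 0 := by
    apply (((um.mul u3).mul um1).mul u1m).mul_left_cancel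
    rw [mul_zero]
    linear_combination F2
  refine ⟨?_, h2⟩
  rw [h2] at F1
  apply (((um.mul (u2m.pow 2)).mul u3).mul um1).mul_left_cancel
  rw [mul_zero]
  linear_combination F1

end Pool.Agent.H547.P4
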