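import Pool.Agent.H547.P3.Rd1f0b8

set_option autoImplicit false

/-!
# Transfer for the sums `∑ C(2k,k)³ / b^k`
-/

namespace Pool.Agent.H547.P4

open Finset Pool.Agent.H547.P3 Pool.Agent.H547.P3.Rd1f0b8

/-- `∑_{k ≤ (p-1)/2} C(2k,k)³ / b^k` -/
def Sb (b : ℤ) (p : ℕ) : ℚ := ∑ k ∈ range ((p - 1) / 2 + 1), ((2 * k).choose k : ℚ) ^ 3 / (b : ℚ) ^ k

section

variable {p : ℕ} [hp : Fact p.Prime]

theorem half_sum_b (hp5 : 5 ≤ p) (z : ZMod (p ^ 3)) :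
    ∑ k ∈ range ((p - 1) / 2 + 1), (uc k : ZMod (p ^ 3)) * z ^ k = ∑ k ∈ range p, (uc k : ZMod (p ^ 3)) * z ^ k := by
  obtain ⟨n, hn⟩ : ∃ n, p = 2 * n + 1 := by
    have := hp.out.odd_of_ne_two (by omega)
    obtain ⟨n, hn⟩ := this
    exact ⟨n, hn⟩
  obtain ⟨h, hh⟩ := exists_half' (p := p) (by omega)
  have hr : range p = range ((n + 1) + n) := by congr 1; omega
  rw [hr, Finset.sum_range_add _ (n + 1) n, show (p - 1) / 2 = n by omega]
  have : ∑ x ∈ range n, (uc (n + 1 + x) : ZMod (p ^ 3)) * z ^ (n + 1 + x) = 0 := by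
    refine sum_eq_zero fun x hx => ?_
    rw [mem_range] at hx
    rw [← gX_at_zero (h := h) hp5 (by omega), gX_top hh hn (by omega) 0 x (by omega), zero_mul]
  rw [this, add_zero]

theorem Rep_Sb (hp5 : 5 ≤ p) {b : ℤ} (hb : ¬ (p : ℤ) ∣ b) {z : ZMod (p ^ 3)} (hz : (b : ZMod (p ^ 3)) * z = 1) :
    Rep p (Sb b p) (fS p z 0) := by
  rw [fS_zero hp5, ← half_sum_b hp5]
  unfold Sb
  refine Rep.sum _ fun k _ => ?_
  have : ((2 * k).choose k : ℚ) ^ 3 / (b : ℚ) ^ k = (uc k : ℚ) * (1 / (b : ℚ) ^ k) := by unfold uc; push_cast; ring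
  rw [this]
  exact (Rep.nat _).mul (Rep.inv hb hz _)

theorem Rep_T' (hp5 : 5 ≤ p) {m : ℤ} (hm : ¬ (p : ℤ) ∣ m) {w : ZMod (p ^ 3)} (hw : (m : ZMod (p ^ 3)) * w = 1) :
    Rep p (T m p) (fT1 p (w ^ 3) 0) := by
  rw [fT1_zero hp5]
  exact Rep_T hm hw

end

/-- the running sums -/
def sub (b : ℤ) : ℕ → ℕ × ℤ
  | 0 => (1, 0)
  | k + 1 => (8 * (2 * k + 1) ^ 3 * (sub b k).1 / (k + 1) ^ 3, (sub b k).2 * b + (sub b k).1)

theorem sub_eq (b : ℤ) (k : ℕ) : sub b k = (uc k, ∑ j ∈ range k, (uc j : ℤ) * b ^ (k - 1 - j)) := by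
  induction k with
  | zero => simp [sub, uc]
  | succ k ih =>
    rw [sub, ih]
    simp only [Prod.mk.injEq]
    refine ⟨R90323e.uc_div k, ?_⟩
    rw [sum_range_succ, sum_mul, show k + 1 - 1 - k = 0 by omega, pow_zero, mul_one]
    congr 1
    refine sum_congr rfl fun j hj => ?_
    rw [mem_range] at hj
    rw [show (k + 1 - 1 - j) = (k - 1 - j) + 1 by omega, pow_add]
    ring

theorem small_b (p : ℕ) (hp : p.Prime) (b m e : ℤ) (hb : ¬ (p : ℤ) ∣ b) (hm : ¬ (p : ℤ) ∣ m)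
    (h : (p : ℤ) ^ 3 ∣ (sub b ((p - 1) / 2 + 1)).2 * m ^ (3 * (p - 1)) - e * (sa m p).2 * b ^ ((p - 1) / 2)) :
    Cong p (Sb b p) (e * T m p) := by
  have : Fact p.Prime := ⟨hp⟩
  have hm0 : (m : ℚ) ≠ 0 := by
    intro h
    have : m = 0 := by exact_mod_cast h
    exact hm (this ▸ dvd_zero _)
  have hb0 : (b : ℚ) ≠ 0 := by
    intro h
    have : b = 0 := by exact_mod_cast h
    exact hb (this ▸ dvd_zero _)
  apply Rep.cong
  refine ⟨(sub b ((p - 1) / 2 + 1)).2 * m ^ (3 * (p - 1)) - e * (sa m p).2 * b ^ ((p - 1) / 2), m ^ (3 * (p - 1)) * b ^ ((p - 1) / 2), ?_, ?_, ?_⟩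
  · intro h
    rcases (Nat.prime_iff_prime_int.mp hp).dvd_mul.mp h with h | h
    · exact hm ((Nat.prime_iff_prime_int.mp hp).dvd_of_dvd_pow h)
    · exact hb ((Nat.prime_iff_prime_int.mp hp).dvd_of_dvd_pow h)
  · rw [sub_eq, sa_eq, Sb, T, sub_mul]
    push_cast
    have e1 : (∑ k ∈ range ((p - 1) / 2 + 1), ((2 * k).choose k : ℚ) ^ 3 / (b : ℚ) ^ k) * (b : ℚ) ^ ((p - 1) / 2) =
        ∑ j ∈ range ((p - 1) / 2 + 1), (uc j : ℚ) * (b : ℚ) ^ ((p - 1) / 2 - j) := by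
      rw [sum_mul]
      refine sum_congr rfl fun k hk => ?_
      rw [mem_range] at hk
      have e3 : (b : ℚ) ^ ((p - 1) / 2) = (b : ℚ) ^ ((p - 1) / 2 - k) * (b : ℚ) ^ k := by
        rw [← pow_add]; congr 1; omega
      rw [e3]
      unfold uc
      push_cast
      field_simp
    have e2 : (∑ k ∈ range p, ((2 * k).choose k * (3 * k).choose k * (6 * k).choose (3 * k) : ℚ) / (m : ℚ) ^ (3 * k)) * (m : ℚ) ^ (3 * (p - 1)) =
        ∑ j ∈ range p, (v1 j : ℚ) * (m : ℚ) ^ (3 * (p - 1 - j)) := by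
      rw [sum_mul]
      refine sum_congr rfl fun k hk => ?_
      rw [mem_range] at hk
      rw [show 3 * (p - 1) = 3 * (p - 1 - k) + 3 * k by omega, pow_add]
      unfold v1
      push_cast
      field_simp
    rw [← e2, ← e1]
    ring
  · rw [mul_zero]
    apply (ZMod.intCast_zmod_eq_zero_iff_dvd _ _).mpr
    exact_mod_cast h

end Pool.Agent.H547.P4
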