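import Pool.Agent.H547.P4.T7
import Pool.Agent.H547.P4.T8
import Pool.Agent.H547.P4.Tr

set_option autoImplicit false

/-!
# The points with discriminants `-3` and `-12`
-/

namespace Pool.Agent.H547.P4

open Finset Pool.Agent.H547.P3

variable {p : ℕ} [hp : Fact p.Prime] {n : ℕ} {h : ZMod (p ^ 3)}

theorem D3_core (hp53 : 53 ≤ p) (hn : p = 2 * n + 1) (hh : 2 * h = 1) {m i15 : ZMod (p ^ 3)}
    (hm : m ^ 2 - m + 1 = 0) (hi15 : 15 * i15 = 1) :
    ∃ x : ZMod (p ^ 3), x ^ 2 = 1 ∧ red p x = (-5) ^ n ∧ fS p (h ^ 8) 0 = x * fT1 p (h ^ 4 * i15 ^ 3) 0 := by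
  have uh : IsUnit h := IsUnit.of_mul_eq_one 2 (by linear_combination hh)
  have u15 : IsUnit (15 : ZMod (p ^ 3)) := IsUnit.of_mul_eq_one i15 hi15
  have u3 : IsUnit (3 : ZMod (p ^ 3)) := IsUnit.of_mul_eq_one (5 * i15) (by linear_combination hi15)
  have k : ∀ m, (2 * h) ^ m = 1 := fun m => by rw [hh, one_pow]
  have kr := red_h_pow hn hh
  -- the point 1/16
  obtain ⟨a1, a2⟩ := aut_omega hp53 hn hh (z := h ^ 4) (by linear_combination k 4) hm
  -- Fricke
  obtain ⟨ν, hν⟩ := fermat_unit (uh.pow 8)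
  obtain ⟨c, hc, -, hX⟩ := fricke (z := h ^ 8) (z' := h ^ 4) (by omega) hh hn (by linear_combination k 12) hν
  obtain ⟨d2, d1, -⟩ := fricke_comps hh hX
  rw [a2, mul_zero] at d2
  rw [a1, a2, sub_zero, mul_zero] at d1
  -- the point 1/256
  have l1 : 15 * h ^ 4 = 1 - 16 * h ^ 8 := by linear_combination k 4 + h ^ 4 * k 4
  have l1i : (15 * h ^ 4) * (16 * i15) = 1 := by linear_combination (15 * i15) * k 4 + hi15
  obtain ⟨x, hx, ⟨y1, hy1⟩, f0, -, -⟩ := star1 hp53 hn hh (z := h ^ 8) (uh.pow 8) l1 l1i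
  have w1 : (h ^ 8) ^ 2 * (16 * i15) ^ 3 = h ^ 4 * i15 ^ 3 := by linear_combination (h ^ 4 * i15 ^ 3) * k 12
  rw [w1, d1, d2] at f0
  refine ⟨x, hx, ?_, ?_⟩
  · have r2m : red p (2 * m - 1) ≠ 0 := by
      apply unit_red
      have : IsUnit ((2 * m - 1) * (2 * m - 1)) := by
        have e : (2 * m - 1) * (2 * m - 1) = -3 := by linear_combination 4 * hm
        rw [e]; exact u3.neg
      exact isUnit_of_mul_isUnit_left this
    have h3 : (-3 : ZMod p) ^ n = 1 := by
      have e : (-3 : ZMod p) = red p (2 * m - 1) ^ 2 := by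
        have : (2 * m - 1) ^ 2 = -3 := by linear_combination 4 * hm
        rw [← map_pow, this, map_neg, map_ofNat]
      rw [e, ← pow_mul, show 2 * n = p - 1 by omega]
      exact ZMod.pow_card_sub_one_eq_one r2m
    have h4 : (red p h) ^ (4 * n) = 1 := by rw [show 4 * n = 2 * n * 2 by ring, pow_mul, kr, one_pow]
    rw [red_x hy1, map_mul, map_pow, mul_pow, ← pow_mul, h4, map_ofNat, mul_one]
    have e : (15 : ZMod p) ^ n = (-5) ^ n * (-3) ^ n := by rw [← mul_pow]; norm_num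
    rw [e, h3, mul_one]
  · apply ((u15.mul (uh.pow 4)).pow 2).mul_left_cancel
    linear_combination -f0

theorem leg3_aux : ∀ r : ℕ, r < 3 → r ≠ 0 → haveI : Fact (Nat.Prime 3) := ⟨by norm_num⟩
    legendreSym 3 (r : ℤ) = if r = 1 then 1 else -1 := by
  decide

theorem legm3 (hp2 : p ≠ 2) (hp3 : p ≠ 3) : legendreSym p (-3) = if p % 3 = 1 then 1 else -1 := by
  haveI : Fact (Nat.Prime 3) := ⟨by norm_num⟩
  have h0 : p % 3 ≠ 0 := by
    intro h0
    have := (Nat.prime_dvd_prime_iff_eq (by norm_num : Nat.Prime 3) hp.out).mp (Nat.dvd_of_mod_eq_zero h0)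
    omega
  have h3 : legendreSym 3 p = if p % 3 = 1 then 1 else -1 := by
    rw [legendreSym.mod]
    have hc : ((p : ℤ) % ((3 : ℕ) : ℤ)) = ((p % 3 : ℕ) : ℤ) := by norm_cast
    rw [hc]
    exact leg3_aux _ (Nat.mod_lt _ (by norm_num)) h0
  have hm : legendreSym p (-3) = legendreSym p (-1) * legendreSym p 3 := by
    rw [← legendreSym.mul]; norm_num
  have hq := legendreSym.quadratic_reciprocity' (p := p) (q := 3) hp2 (by norm_num)
  have hodd : p % 2 = 1 := by
    rcases hp.out.eq_two_or_odd with h | h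
    · exact absurd h hp2
    · exact h
  rw [← h3, hm, legendreSym.at_neg_one hp2]
  push_cast at hq
  rw [ZMod.χ₄_eq_neg_one_pow hodd, hq, mul_one]

theorem exists_omega (hp3 : 3 < p) (h : p % 3 = 1) : ∃ m : ZMod (p ^ 3), m ^ 2 - m + 1 = 0 := by
  have u3 : IsUnit (3 : ZMod (p ^ 3)) := by have := unit_cast (p := p) (k := 3) (by norm_num) hp3; simpa using this
  obtain ⟨i, hh⟩ := exists_half' (p := p) (by omega)
  have : ∃ r : ZMod (p ^ 3), r ^ 2 = -3 := by
    apply exists_sqrt (by omega) u3.neg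
    have h1 := legm3 (p := p) (by omega) (by omega)
    rw [if_pos h] at h1
    have h2 : ((-3 : ℤ) : ZMod p) ≠ 0 := by
      have := unit_red u3
      rw [map_ofNat] at this
      push_cast
      exact neg_ne_zero.mpr this
    have h3 := (legendreSym.eq_one_iff p h2).mp h1
    rw [map_neg, map_ofNat]
    push_cast at h3
    exact h3
  obtain ⟨r, hr⟩ := this
  refine ⟨(1 + r) * i, ?_⟩
  linear_combination (i ^ 2) * hr + ((r - 1) * i - 1) * hh

end Pool.Agent.H547.P4
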